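import Mathlib

/-! The Boolean-algebra level interface between the forcing construction and the model. -/

namespace Pool.Agent.P.MP_b10269_lc

/-- The inaccessible cardinal `κ`, as the well-order of all ordinals of the lowest universe. -/
abbrev K : Type 1 := Ordinal.{0}

/-- Types of size `ℶ_{n+1}(κ)`. -/
def Th : ℕ → Type 1
  | 0 => Set K
  | n + 1 => Set (Th n)

/-- A type of size `θ = ℶ_ω(κ)`. -/
abbrev Θ : Type 1 := Σ n, Th n

variable {B : Type 1} [CompleteBooleanAlgebra B]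

/-- Small families of dense open sets have a dense intersection. -/
def Distrib (B : Type 1) [CompleteBooleanAlgebra B] : Prop :=
  ∀ (ι : Type 1) [Small.{0} ι] (Φ : ι → B → Prop), (∀ i a b, a ≤ b → Φ i b → Φ i a) →
    (∀ i p, p ≠ ⊥ → ∃ q, q ≠ ⊥ ∧ q ≤ p ∧ Φ i q) → ∀ p, p ≠ ⊥ → ∃ q, q ≠ ⊥ ∧ q ≤ p ∧ ∀ i, Φ i q

/-- `p` forces that `a` is unbounded in `κ`. -/
def Unb (p : B) (a : K → B) : Prop := ∀ β, p ≤ ⨆ x, ⨆ (_ : β ≤ x), a x

/-- `p` forces that `a` is almost contained in `b`. -/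
def ASub (p : B) (a b : K → B) : Prop :=
  ∀ q, q ≠ ⊥ → q ≤ p → ∃ r β, r ≠ ⊥ ∧ r ≤ q ∧ ∀ x, β ≤ x → r ⊓ a x ≤ b x

/-- The family `A` is forced to have the strong intersection property. -/
def BSIP {J : Type 1} (A : J → K → B) : Prop :=
  ∀ u : Set J, Small.{0} u → Unb ⊤ (fun x => ⨅ j ∈ u, A j x)

/-- What the forcing construction provides. -/
structure Iface (B : Type 1) [CompleteBooleanAlgebra B] (c : Θ → K → B) : Prop where
  ne : (⊤ : B) ≠ ⊥
  distrib : Distrib B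
  sip : BSIP c
  nopi : ∀ p a, p ≠ ⊥ → Unb p a → (∀ α, ASub p a (c α)) → False
  kill : ∀ n (A : Th n → K → B), BSIP A → ∃ a, Unb ⊤ a ∧ ∀ j, ASub ⊤ a (A j)

/-- Below `p`, the well-ordered family `T` is a tower. -/
structure BTower {I : Type 1} [LinearOrder I] (p : B) (T : I → K → B) : Prop where
  sip : BSIP T
  dec : ∀ i j, i < j → ASub ⊤ (T j) (T i)
  nopi : ∀ q a, q ≠ ⊥ → q ≤ p → Unb q a → (∀ i, ASub q a (T i)) → False

end Pool.Agent.P.MP_b10269_lc
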