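import Mathlib
import Pool.Agent.P.MP_b10269_lc.Iface

/-! Existence of a club tower in a distributive Boolean valued universe. -/

namespace Pool.Agent.P.MP_b10269_lc

namespace BT

variable {B : Type 1} [CompleteBooleanAlgebra B]

/-- Boolean value of: `a` meets the open interval between `β` and `x`. -/
def M (a : K → B) (β x : K) : B := ⨆ y, ⨆ (_ : β < y ∧ y < x), a y

/-- Limit points. -/
def L (a : K → B) (x : K) : B := ⨆ (_ : x ≠ 0), ⨅ β, ⨅ (_ : β < x), M a β x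

theorem M_mono (a : K → B) {β β' x x' : K} (h1 : β' ≤ β) (h2 : x ≤ x') : M a β x ≤ M a β' x' := by
  refine iSup₂_le fun y hy => ?_
  exact le_iSup₂_of_le y ⟨lt_of_le_of_lt h1 hy.1, lt_of_lt_of_le hy.2 h2⟩ le_rfl

theorem L_le_M (a : K → B) {β x : K} (h : β < x) : L a x ≤ M a β x :=
  iSup_le fun _ => iInf₂_le β h

theorem le_L {a : K → B} {x : K} {q : B} (hx : x ≠ 0) (h : ∀ β, β < x → q ≤ M a β x) :
    q ≤ L a x :=
  le_iSup_of_le hx (le_iInf₂ h)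

theorem L_closed (a : K → B) (x : K) : L (L a) x ≤ L a x := by
  by_cases hx : x = 0
  · exact iSup_le fun h => absurd hx h
  refine le_L hx fun β hβ => (L_le_M _ hβ).trans ?_
  refine iSup₂_le fun y hy => ?_
  exact (L_le_M a hy.1).trans (M_mono a le_rfl hy.2.le)

theorem exists_ne_bot {ι : Sort*} {q : B} {f : ι → B} (hq : q ≠ ⊥) (h : q ≤ ⨆ i, f i) :
    ∃ i, q ⊓ f i ≠ ⊥ := by
  by_contra hc
  push Not at hc
  apply hq
  have : q = q ⊓ ⨆ i, f i := (inf_eq_left.2 h).symm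
  rw [this, inf_iSup_eq]
  simp [hc]

theorem unb_ex {a : K → B} {p q : B} (ha : Unb p a) (hq : q ≠ ⊥) (hqp : q ≤ p) (β : K) :
    ∃ x, β ≤ x ∧ q ⊓ a x ≠ ⊥ := by
  obtain ⟨x, hx⟩ := exists_ne_bot hq (hqp.trans (ha β))
  by_cases hb : β ≤ x
  · exact ⟨x, hb, by simpa [hb] using hx⟩
  · simp [hb] at hx

theorem unb_of {a : K → B} (h : ∀ β q, q ≠ ⊥ → ∃ x, β ≤ x ∧ q ⊓ a x ≠ ⊥) : Unb ⊤ a := by
  intro β
  rw [top_le_iff]
  by_contra hc
  have hne : (⨆ x, ⨆ (_ : β ≤ x), a x)ᶜ ≠ ⊥ := fun h => hc (compl_eq_bot.1 h)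
  obtain ⟨x, hx, hne'⟩ := h β _ hne
  apply hne'
  rw [eq_bot_iff]
  calc (⨆ x, ⨆ (_ : β ≤ x), a x)ᶜ ⊓ a x
      ≤ (⨆ x, ⨆ (_ : β ≤ x), a x)ᶜ ⊓ (⨆ x, ⨆ (_ : β ≤ x), a x) :=
        inf_le_inf_left _ (le_iSup₂_of_le x hx le_rfl)
    _ = ⊥ := compl_inf_eq_bot

section Lim

variable {ι : Type 1} (a : ι → K → B)

/-- All members of the family meet the interval. -/
def h (γ' γ : K) : B := ⨆ (_ : γ' < γ), ⨅ i, M (a i) γ' γ

/-- `q` decides the next closure step. -/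
def E (q : B) (γ' γ : K) : Prop := q ≤ h a γ' γ ∧ ∀ γ'', γ'' < γ → q ⊓ h a γ' γ'' = ⊥

theorem E_mono {q r : B} {γ' γ : K} (hr : r ≤ q) (H : E a q γ' γ) : E a r γ' γ :=
  ⟨hr.trans H.1, fun g hg => eq_bot_iff.2 ((inf_le_inf_right _ hr).trans (H.2 g hg).le)⟩

theorem E_uniq {q : B} {γ' γ1 γ2 : K} (hq : q ≠ ⊥) (H1 : E a q γ' γ1) (H2 : E a q γ' γ2) :
    γ1 = γ2 := by
  rcases lt_trichotomy γ1 γ2 with hlt | heq | hlt
  · exact absurd ((inf_eq_left.2 H1.1).symm.trans (H2.2 _ hlt)) hq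
  · exact heq
  · exact absurd ((inf_eq_left.2 H2.1).symm.trans (H1.2 _ hlt)) hq

theorem E_dense [Small.{0} ι] (hd : Distrib B) (ha : ∀ i, Unb ⊤ (a i)) (γ' : K) {q : B}
    (hq : q ≠ ⊥) : ∃ r γ, r ≠ ⊥ ∧ r ≤ q ∧ E a r γ' γ := by
  obtain ⟨r0, hr0, hr0q, hr⟩ := hd ι (fun i r => ∃ y, γ' < y ∧ r ≤ a i y)
    (fun i x y hxy ⟨z, hz, hz'⟩ => ⟨z, hz, hxy.trans hz'⟩)
    (fun i p hp => by
      obtain ⟨x, hx, hne⟩ := unb_ex (ha i) hp le_top (Order.succ γ')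
      exact ⟨p ⊓ a i x, hne, inf_le_left, x, Order.succ_le_iff.1 hx, inf_le_right⟩) q hq
  choose y hy hy' using hr
  obtain ⟨b, hb⟩ : BddAbove (Set.range y) := Ordinal.bddAbove_of_small
  have hex : ∃ γ, q ⊓ h a γ' γ ≠ ⊥ := by
    refine ⟨Order.succ (max b γ'), fun hc => hr0 (eq_bot_iff.2 ?_)⟩
    rw [← hc]
    refine le_inf hr0q (le_iSup_of_le (Order.lt_succ_of_le (le_max_right _ _)) (le_iInf fun i => ?_))
    refine le_iSup₂_of_le (y i) ⟨hy i, Order.lt_succ_of_le ?_⟩ (hy' i)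
    exact (hb ⟨i, rfl⟩).trans (le_max_left _ _)
  obtain ⟨γ, hγ, hmin⟩ := (wellFounded_lt (α := K)).has_min {γ | q ⊓ h a γ' γ ≠ ⊥} hex
  refine ⟨q ⊓ h a γ' γ, γ, hγ, inf_le_left, inf_le_right, fun g hg => ?_⟩
  by_contra hc
  refine hmin g (fun h0 => hc (eq_bot_iff.2 ?_)) hg
  rw [← h0]
  exact inf_le_inf_right _ inf_le_left

/-- `q` decides the first `n` closure steps above `β`. -/
def N (β : K) : ℕ → B → K → Prop
  | 0, _, γ => γ = β
  | n + 1, q, γ => ∃ γ', N β n q γ' ∧ E a q γ' γ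

theorem N_mono (β : K) : ∀ (n : ℕ) {q r : B} {γ : K}, r ≤ q → N a β n q γ → N a β n r γ
  | 0, _, _, _, _, H => H
  | n + 1, _, _, _, hr, ⟨g, H1, H2⟩ => ⟨g, N_mono β n hr H1, E_mono a hr H2⟩

theorem N_uniq (β : K) {q : B} (hq : q ≠ ⊥) :
    ∀ (n : ℕ) {γ1 γ2 : K}, N a β n q γ1 → N a β n q γ2 → γ1 = γ2
  | 0, _, _, H1, H2 => Eq.trans H1 (Eq.symm H2)
  | n + 1, _, _, ⟨g1, H1, H1'⟩, ⟨g2, H2, H2'⟩ => by
    have := N_uniq β hq n H1 H2
    subst this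
    exact E_uniq a hq H1' H2'

theorem N_dense [Small.{0} ι] (hd : Distrib B) (ha : ∀ i, Unb ⊤ (a i)) (β : K) :
    ∀ (n : ℕ) (q : B), q ≠ ⊥ → ∃ r, r ≠ ⊥ ∧ r ≤ q ∧ ∃ γ, N a β n r γ
  | 0, q, hq => ⟨q, hq, le_rfl, β, rfl⟩
  | n + 1, q, hq => by
    obtain ⟨r, hr, hrq, g, hg⟩ := N_dense hd ha β n q hq
    obtain ⟨s, γ, hs, hsr, hE⟩ := E_dense a hd ha g hr
    exact ⟨s, hs, hsr.trans hrq, γ, g, N_mono a β n hsr hg, hE⟩

theorem lim [Small.{0} ι] (hd : Distrib B) (ha : ∀ i, Unb ⊤ (a i)) :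
    Unb ⊤ (fun x => ⨅ i, L (a i) x) := by
  refine unb_of fun β q hq => ?_
  obtain ⟨r, hr, hrq, H⟩ := hd (ULift.{1} ℕ) (fun n r => ∃ γ, N a β n.down r γ)
    (fun n x y hxy ⟨z, hz⟩ => ⟨z, N_mono a β _ hxy hz⟩)
    (fun n p hp => N_dense a hd ha β n.down p hp) q hq
  have H' : ∀ n : ℕ, ∃ γ, N a β n r γ := fun n => H ⟨n⟩
  choose g hg using H'
  have hE : ∀ n, E a r (g n) (g (n + 1)) := fun n => by
    obtain ⟨g', h1, h2⟩ := hg (n + 1)
    rwa [N_uniq a β hr n h1 (hg n)] at h2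
  have hlt : ∀ n, g n < g (n + 1) := fun n => by
    by_contra hc
    apply hr
    have := (hE n).1
    simpa [h, hc] using this
  have hM : ∀ n i, r ≤ M (a i) (g n) (g (n + 1)) := fun n i =>
    (hE n).1.trans (iSup_le fun _ => iInf_le _ i)
  have hbdd : BddAbove (Set.range g) := Ordinal.bddAbove_of_small
  have hle : ∀ n, g n ≤ ⨆ n, g n := fun n => le_ciSup hbdd n
  have h0 : g 0 = β := hg 0
  refine ⟨⨆ n, g n, h0 ▸ hle 0, fun hc => hr (eq_bot_iff.2 ?_)⟩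
  rw [← hc]
  refine le_inf hrq (le_iInf fun i => le_L ?_ fun b hb => ?_)
  · exact (lt_of_le_of_lt zero_le (lt_of_lt_of_le (hlt 0) (hle 1))).ne'
  · obtain ⟨n, hn⟩ := (lt_ciSup_iff hbdd).1 hb
    exact (hM n i).trans (M_mono _ hn.le (hle _))

end Lim

theorem unb_L (hd : Distrib B) {a : K → B} (ha : Unb ⊤ a) : Unb ⊤ (L a) := by
  have := lim (ι := PUnit.{2}) (fun _ => a) hd (fun _ => ha)
  simpa using this

theorem bsip_of (hd : Distrib B) {J : Type 1} (A : J → K → B) (hu : ∀ j, Unb ⊤ (A j))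
    (hc : ∀ j x, L (A j) x ≤ A j x) : BSIP A := by
  intro u hsm β
  refine (lim (ι := u) (fun j => A j) hd (fun j => hu j) β).trans ?_
  refine iSup₂_mono fun x _ => ?_
  exact le_iInf₂ fun j hj => (iInf_le _ (⟨j, hj⟩ : u)).trans (hc j x)

theorem asub_L {a C : K → B} (H : ASub ⊤ a C) : ASub ⊤ (L a) (L C) := by
  intro q hq hqt
  obtain ⟨r, β, hr, hrq, hx⟩ := H q hq hqt
  refine ⟨r, Order.succ β, hr, hrq, fun x hβ => ?_⟩
  have hβ' : β < x := Order.succ_le_iff.1 hβ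
  refine le_L (lt_of_le_of_lt zero_le hβ').ne' fun b hb => ?_
  refine (inf_le_inf_left r (L_le_M a (max_lt hβ' hb))).trans ?_
  unfold M
  rw [inf_iSup₂_eq]
  refine iSup₂_le fun y hy => ?_
  exact le_iSup₂_of_le y ⟨lt_of_le_of_lt (le_max_right _ _) hy.1, hy.2⟩
    (hx y ((le_max_left _ _).trans hy.1.le))

theorem asub_mono {p : B} {a C C' : K → B} (H : ASub p a C) (hC : ∀ x, C x ≤ C' x) :
    ASub p a C' := by
  intro q hq hqt
  obtain ⟨r, β, hr, hrq, hx⟩ := H q hq hqt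
  exact ⟨r, β, hr, hrq, fun x hβ => (hx x hβ).trans (hC x)⟩

theorem not_asub_L (hne : (⊤ : B) ≠ ⊥) {C : K → B} (hC : Unb ⊤ C) : ¬ ASub ⊤ C (L C) := by
  intro H
  obtain ⟨r, β, hr, -, hx⟩ := H ⊤ hne le_rfl
  obtain ⟨x, hx1, hx2⟩ := unb_ex hC hr le_top (Order.succ β)
  obtain ⟨γ, ⟨hγ1, hγ2⟩, hmin⟩ := (wellFounded_lt (α := K)).has_min {γ | β < γ ∧ r ⊓ C γ ≠ ⊥}
    ⟨x, Order.succ_le_iff.1 hx1, hx2⟩
  apply hγ2
  rw [eq_bot_iff]
  have h1 : r ⊓ C γ ≤ r ⊓ M C β γ :=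
    le_inf inf_le_left ((hx γ hγ1.le).trans (L_le_M C hγ1))
  refine h1.trans ?_
  unfold M
  rw [inf_iSup₂_eq]
  refine iSup₂_le fun y hy => ?_
  by_contra hc
  exact hmin y ⟨hy.1, fun h0 => hc h0.le⟩ hy.2

/-- Mixing. -/
theorem mix {I : Type 1} (T : I → K → B)
    (H : sSup {q | ∃ a, Unb q a ∧ ∀ i, ASub q a (T i)} = ⊤) :
    ∃ a, Unb ⊤ a ∧ ∀ i, ASub ⊤ a (T i) := by
  set S : Set B := {q | ∃ a, Unb q a ∧ ∀ i, ASub q a (T i)} with hS
  have hch : ∀ q : S, ∃ a, Unb q.1 a ∧ ∀ i, ASub q.1 a (T i) := fun q => q.2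
  choose a ha1 ha2 using hch
  let d : S → B := fun q => q.1 ⊓ (⨆ q' : S, ⨆ (_ : WellOrderingRel q' q), q'.1)ᶜ
  have hwf : WellFounded (WellOrderingRel (α := S)) := IsWellFounded.wf
  have hdis : ∀ q q' : S, WellOrderingRel q' q → d q ⊓ d q' = ⊥ := fun q q' hqq => by
    rw [eq_bot_iff]
    calc d q ⊓ d q' ≤ (⨆ q' : S, ⨆ (_ : WellOrderingRel q' q), q'.1)ᶜ ⊓
          (⨆ q' : S, ⨆ (_ : WellOrderingRel q' q), q'.1) :=
          inf_le_inf inf_le_right (inf_le_left.trans (le_iSup₂_of_le q' hqq le_rfl))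
      _ = ⊥ := compl_inf_eq_bot
  have hden : ∀ r : B, r ≠ ⊥ → ∃ q : S, r ⊓ q.1 ≠ ⊥ ∧ r ⊓ q.1 ≤ d q := fun r hr => by
    have h1 : r ≤ ⨆ q : S, q.1 := by rw [← sSup_eq_iSup', H]; exact le_top
    obtain ⟨q, hq, hmin⟩ := hwf.has_min {q : S | r ⊓ q.1 ≠ ⊥} (exists_ne_bot hr h1)
    refine ⟨q, hq, le_inf inf_le_right ?_⟩
    rw [le_compl_iff_disjoint_right, disjoint_iff, inf_iSup₂_eq, eq_bot_iff]
    refine iSup₂_le fun q' hq' => ?_
    by_contra hc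
    refine hmin q' (fun h0 => hc ?_) hq'
    rw [← h0]
    exact inf_le_inf_right _ inf_le_left
  refine ⟨fun x => ⨆ q : S, d q ⊓ a q x, unb_of fun β r hr => ?_, fun i r hr _ => ?_⟩
  · obtain ⟨q, hq, hqd⟩ := hden r hr
    obtain ⟨x, hx, hne⟩ := unb_ex (ha1 q) hq inf_le_right β
    refine ⟨x, hx, fun hc => hne (eq_bot_iff.2 ?_)⟩
    rw [← hc]
    exact le_inf (inf_le_left.trans inf_le_left) (le_iSup_of_le q (inf_le_inf_right _ hqd))
  · obtain ⟨q, hq, hqd⟩ := hden r hr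
    obtain ⟨s, β, hs, hsr, hx⟩ := ha2 q i _ hq inf_le_right
    refine ⟨s, β, hs, hsr.trans inf_le_left, fun x hβ => ?_⟩
    rw [inf_iSup_eq]
    refine iSup_le fun q' => ?_
    have hsd : s ≤ d q := hsr.trans hqd
    rcases trichotomous_of (WellOrderingRel (α := S)) q q' with hlt | heq | hlt
    · have : s ⊓ (d q' ⊓ a q' x) ≤ d q' ⊓ d q :=
        le_inf (inf_le_right.trans inf_le_left) (inf_le_left.trans hsd)
      rw [hdis q' q hlt] at this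
      exact this.trans bot_le
    · subst heq
      exact (inf_le_inf_left _ inf_le_right).trans (hx x hβ)
    · have : s ⊓ (d q' ⊓ a q' x) ≤ d q ⊓ d q' := inf_le_inf hsd inf_le_left
      rw [hdis q q' hlt] at this
      exact this.trans bot_le

open Classical in
/-- The recursion producing the tower. -/
noncomputable def tw (B : Type 1) [CompleteBooleanAlgebra B] (J : Type 1) [LinearOrder J]
    [WellFoundedLT J] : J → K → B :=
  WellFoundedLT.fix fun i T =>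
    if h : ∃ a, Unb ⊤ a ∧ ∀ j, ∀ hj : j < i, ASub ⊤ a (T j hj) then L h.choose else fun _ => ⊤

open Classical in
theorem tw_eq {J : Type 1} [LinearOrder J] [WellFoundedLT J] (i : J) :
    tw B J i = if h : ∃ a, Unb ⊤ a ∧ ∀ j, j < i → ASub ⊤ a (tw B J j) then L h.choose
      else fun _ => ⊤ := by
  unfold tw
  rw [WellFoundedLT.fix_eq]

theorem tw_spec {J : Type 1} [LinearOrder J] [WellFoundedLT J] {i : J}
    (h : ∃ a, Unb ⊤ a ∧ ∀ j, j < i → ASub ⊤ a (tw B J j)) :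
    ∃ a, tw B J i = L a ∧ Unb ⊤ a ∧ ∀ j, j < i → ASub ⊤ a (tw B J j) :=
  ⟨h.choose, by rw [tw_eq, dif_pos h], h.choose_spec⟩

end BT

open BT in
theorem exists_btower {B : Type 1} [CompleteBooleanAlgebra B] (hne : (⊤ : B) ≠ ⊥)
    (hd : Distrib B) :
    ∃ (p : B) (I : Type 1) (_ : LinearOrder I) (_ : WellFoundedLT I) (T : I → K → B),
      p ≠ ⊥ ∧ BTower p T := by
  let J : Type 1 := (Order.succ (Cardinal.mk (K → B))).ord.ToType
  have hfail : ∃ i : J, ¬ ∃ a, Unb ⊤ a ∧ ∀ j, j < i → ASub ⊤ a (tw B J j) := by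
    by_contra hc
    push Not at hc
    have key : ∀ i j : J, i < j → tw B J i ≠ tw B J j := fun i j hij heq => by
      obtain ⟨a, h1, h2, h3⟩ := tw_spec (hc j)
      refine not_asub_L hne (unb_L hd h2) ?_
      have := asub_L (h3 i hij)
      rwa [heq, h1] at this
    have hinj : Function.Injective (tw B J) := fun i j heq => by
      rcases lt_trichotomy i j with hlt | h | hlt
      · exact absurd heq (key i j hlt)
      · exact h
      · exact absurd heq.symm (key j i hlt)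
    have := Cardinal.mk_le_of_injective hinj
    rw [Cardinal.mk_ord_toType] at this
    exact absurd this (not_le.2 (Order.lt_succ _))
  obtain ⟨i0, hi0, hmin⟩ := (wellFounded_lt (α := J)).has_min
    {i | ¬ ∃ a, Unb ⊤ a ∧ ∀ j, j < i → ASub ⊤ a (tw B J j)} hfail
  have hok : ∀ i : Set.Iio i0, ∃ a, tw B J i = L a ∧ Unb ⊤ a ∧
      ∀ j, j < i.1 → ASub ⊤ a (tw B J j) := fun i => by
    refine tw_spec ?_
    by_contra hc
    exact hmin i hc i.2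
  choose a ha1 ha2 ha3 using hok
  have hcl : ∀ (i : Set.Iio i0) x, L (tw B J i) x ≤ tw B J i x := fun i x => by
    rw [ha1]; exact L_closed _ x
  refine ⟨(sSup {q | ∃ a, Unb q a ∧ ∀ i : Set.Iio i0, ASub q a (tw B J i)})ᶜ, Set.Iio i0,
    inferInstance, inferInstance, fun i => tw B J i, fun hc => hi0 ?_, ?_, ?_, ?_⟩
  · obtain ⟨b, hb1, hb2⟩ := mix (fun i : Set.Iio i0 => tw B J i) (compl_eq_bot.1 hc)
    exact ⟨b, hb1, fun j hj => hb2 ⟨j, hj⟩⟩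
  · exact bsip_of hd _ (fun i => by rw [ha1]; exact unb_L hd (ha2 i)) hcl
  · intro i j hij
    have := asub_mono (asub_L (ha3 j i hij)) (hcl i)
    rwa [← ha1] at this
  · intro q b hq hqp hb1 hb2
    apply hq
    rw [eq_bot_iff]
    have h1 : q ≤ sSup {q | ∃ a, Unb q a ∧ ∀ i : Set.Iio i0, ASub q a (tw B J i)} :=
      le_sSup ⟨b, hb1, hb2⟩
    exact (le_inf hqp h1).trans compl_inf_eq_bot.le

end Pool.Agent.P.MP_b10269_lc
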