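import Mathlib

/-! Models of ZFC, and the notions of the problem read inside such a model `(M, E)`. -/

namespace Pool.Agent.P.MP_b10269_lc

universe u

/-- First-order formulas of the language of set theory, with variables named by numbers. -/
inductive Fml : Type
  | mem : ℕ → ℕ → Fml
  | eq : ℕ → ℕ → Fml
  | bot : Fml
  | imp : Fml → Fml → Fml
  | all : ℕ → Fml → Fml

variable {M : Type u} (E : M → M → Prop)

/-- Tarski satisfaction in the structure `(M, E)` under an assignment of the variables. -/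
def Sat (φ : Fml) : (ℕ → M) → Prop :=
  Fml.rec (motive := fun _ => (ℕ → M) → Prop)
    (fun i j v => E (v i) (v j)) (fun i j v => v i = v j) (fun _ => False)
    (fun _ _ p q v => p v → q v) (fun i _ p v => ∀ x, p (Function.update v i x)) φ

/-- `w` contains the empty set and is closed under `x ↦ x ∪ {x}`. -/
def IsInductive (w : M) : Prop :=
  (∃ e, E e w ∧ ∀ x, ¬ E x e) ∧ ∀ x, E x w → ∃ s, E s w ∧ ∀ y, E y s ↔ E y x ∨ y = x

/-- `(M, E)` is a model of ZFC: extensionality, foundation, pairing, union, power set, infinity,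
the separation and replacement schemes (all formulas, all parameters), and choice. -/
def IsZFC : Prop :=
  (∀ a b, (∀ x, E x a ↔ E x b) → a = b) ∧
  (∀ a, (∃ x, E x a) → ∃ x, E x a ∧ ∀ y, E y x → ¬ E y a) ∧
  (∀ a b, ∃ c, ∀ x, E x c ↔ x = a ∨ x = b) ∧
  (∀ a, ∃ c, ∀ x, E x c ↔ ∃ y, E y a ∧ E x y) ∧
  (∀ a, ∃ c, ∀ x, E x c ↔ ∀ y, E y x → E y a) ∧
  (∃ w, IsInductive E w) ∧
  (∀ (φ : Fml) (v : ℕ → M) (i : ℕ) (a : M),
    ∃ b, ∀ x, E x b ↔ E x a ∧ Sat E φ (Function.update v i x)) ∧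
  (∀ (φ : Fml) (v : ℕ → M) (i j : ℕ) (a : M),
    (∀ x, E x a → ∃! y, Sat E φ (Function.update (Function.update v i x) j y)) →
    ∃ b, ∀ y, E y b ↔ ∃ x, E x a ∧ Sat E φ (Function.update (Function.update v i x) j y)) ∧
  (∀ a, (∀ x, E x a → ∃ z, E z x) → (∀ x y z, E x a → E y a → E z x → E z y → x = y) →
    ∃ c, ∀ x, E x a → ∃! z, E z x ∧ E z c)

/-- `p` is the Kuratowski pair `{{a}, {a, b}}`. -/
def IsOPair (p a b : M) : Prop :=
  ∀ x, E x p ↔ (∀ y, E y x ↔ y = a) ∨ (∀ y, E y x ↔ y = a ∨ y = b)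

/-- The pair `(a, b)` belongs to `f`. -/
def Rel (f a b : M) : Prop := ∃ p, E p f ∧ IsOPair E p a b

/-- `f` is an injective function from `A` into `B`. -/
def IsInjection (f A B : M) : Prop :=
  (∀ p, E p f → ∃ a b, E a A ∧ E b B ∧ IsOPair E p a b) ∧ (∀ a, E a A → ∃ b, Rel E f a b) ∧
  (∀ a b b', Rel E f a b → Rel E f a b' → b = b') ∧ ∀ a a' b, Rel E f a b → Rel E f a' b → a = a'

/-- `|A| ≤ |B|`. -/
def CardLE (A B : M) : Prop := ∃ f, IsInjection E f A B

/-- `|A| < |B|`. -/
def CardLT (A B : M) : Prop := CardLE E A B ∧ ¬ CardLE E B A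

/-- `A` injects into the least inductive set `ω`. -/
def IsCountable (A : M) : Prop :=
  ∃ w, IsInductive E w ∧ (∀ w', IsInductive E w' → ∀ x, E x w → E x w') ∧ CardLE E A w

/-- `a` is a von Neumann ordinal: transitive and linearly ordered by membership. -/
def IsOrd (a : M) : Prop :=
  (∀ x y, E x a → E y x → E y a) ∧ ∀ x y, E x a → E y a → E x y ∨ x = y ∨ E y x

/-- `k` is a regular uncountable cardinal: an uncountable ordinal all of whose elements have
smaller size and all of whose cofinal subsets have size `k`. -/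
def IsRegUnc (k : M) : Prop :=
  IsOrd E k ∧ ¬ IsCountable E k ∧ (∀ a, E a k → CardLT E a k) ∧
    ∀ X, (∀ x, E x X → E x k) → (∀ a, E a k → ∃ x, E x X ∧ (E a x ∨ a = x)) → CardLE E k X

/-- `A ∈ [k]^k`: a subset of `k` of size `k`. -/
def Big (k A : M) : Prop := (∀ x, E x A → E x k) ∧ CardLE E k A

/-- `A ⊆* F`: the difference `A \ F` has size `< k`. -/
def AlmostSub (k A F : M) : Prop :=
  ∃ D, (∀ x, E x D ↔ E x A ∧ ¬ E x F) ∧ CardLT E D k

/-- The strong intersection property: every subfamily of size `< k` has an intersection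
(inside `k`) of size `k`. -/
def SIP (k F : M) : Prop :=
  ∀ G, (∀ A, E A G → E A F) → CardLT E G k →
    ∃ I, (∀ x, E x I ↔ E x k ∧ ∀ A, E A G → E x A) ∧ CardLE E k I

/-- `F ⊆ [k]^k` has the strong intersection property and no pseudo-intersection of size `k`. -/
def PFam (k F : M) : Prop :=
  (∀ A, E A F → Big E k A) ∧ SIP E k F ∧ ¬ ∃ P, Big E k P ∧ ∀ A, E A F → AlmostSub E k P A

/-- `T` is a tower: a family as in `PFam` that is the range of a function `f` on an ordinal `d`
with `f b ⊆* f a` whenever `a < b < d`. -/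
def Tower (k T : M) : Prop :=
  PFam E k T ∧ ∃ d f, IsOrd E d ∧ (∀ a, E a d → ∃ A, E A T ∧ Rel E f a A) ∧
    (∀ a A A', Rel E f a A → Rel E f a A' → A = A') ∧ (∀ A, E A T → ∃ a, E a d ∧ Rel E f a A) ∧
    ∀ a b A A', E a b → E b d → Rel E f a A → Rel E f b A' → AlmostSub E k A' A

end Pool.Agent.P.MP_b10269_lc
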