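import Mathlib
import Pool.Agent.P.MP_b10269_lc.Defs
import Pool.Agent.P.MP_b10269_lc.Model

/-! Every ultrafilter quotient of the Boolean-valued universe is a model of ZFC. -/

namespace Pool.Agent.P.MP_b10269_lc

universe u

open Name

variable {B : Type u} [CompleteBooleanAlgebra B]

theorem of_mem_name {a : Name B} {P : ∀ U : Ultra B, Mod U → Prop}
    (hP : ∀ x, Rep (fun U => P U (mk U x)))
    (H : ∀ i U, U.s (a.bv i) → P U (mk U (a.val i))) (U : Ultra B) (y : Mod U)
    (hy : mem U y (mk U a)) : P U y := by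
  cases a with
  | mk ι A b => exact of_mem_mk hP H U y hy

theorem mem_val {U : Ultra B} (a : Name B) (i : a.idx) (h : U.s (a.bv i)) :
    mem U (mk U (a.val i)) (mk U a) := U.mono (bv_le_bmem a i) h

theorem mod_ext (U : Ultra B) (a b : Mod U) (h : ∀ x, mem U x a ↔ mem U x b) : a = b := by
  obtain ⟨a, rfl⟩ := mk_surj a
  obtain ⟨b, rfl⟩ := mk_surj b
  have hr : Rep (fun U : Ultra B => ∀ x, mem U x (mk U a) ↔ mem U x (mk U b)) :=
    Rep.all (fun x => (Rep.mem x a).iff (Rep.mem x b))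
  obtain ⟨p, hp⟩ := hr
  have : p ≤ beq a b := by
    apply le_beq_of_ext
    · intro i Γ h1 h2
      exact le_of_ultra (fun V hV =>
        (((hp V).mp (V.mono h1 hV)) _).mp (mem_val a i (V.mono h2 hV)))
    · intro i Γ h1 h2
      exact le_of_ultra (fun V hV =>
        (((hp V).mp (V.mono h1 hV)) _).mpr (mem_val b i (V.mono h2 hV)))
  exact mk_eq.mpr (U.mono this ((hp U).mpr h))

theorem mod_irrefl (U : Ultra B) (a : Mod U) : ¬ mem U a a := by
  obtain ⟨a, rfl⟩ := mk_surj a
  rw [mem_mk, bmem_self]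
  exact U.bot

theorem mod_found (U : Ultra B) (a : Mod U) (h : ∃ x, mem U x a) :
    ∃ x, mem U x a ∧ ∀ y, mem U y x → ¬ mem U y a := by
  obtain ⟨a, rfl⟩ := mk_surj a
  have hc : Rep (fun U : Ultra B => ∃ x, mem U x (mk U a) ∧ ∀ y, mem U y x → ¬ mem U y (mk U a)) :=
    Rep.ex (fun x => (Rep.mem x a).and (Rep.all (fun y => (Rep.mem y x).imp (Rep.mem y a).not)))
  have key : ∀ (x : Name B) (U : Ultra B), mem U (mk U x) (mk U a) →
      ∃ x, mem U x (mk U a) ∧ ∀ y, mem U y x → ¬ mem U y (mk U a) := by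
    intro x
    induction x with
    | mk ι A b ih =>
      intro U hx
      by_contra hcon
      apply hcon
      refine ⟨_, hx, fun y hy hya => hcon ?_⟩
      exact of_mem_mk (P := fun U y => mem U y (mk U a) →
          ∃ x, mem U x (mk U a) ∧ ∀ y, mem U y x → ¬ mem U y (mk U a))
        (fun z => (Rep.mem z a).imp hc) (fun i V _ => ih i V) U y hy hya
  obtain ⟨x, hx⟩ := h
  obtain ⟨x, rfl⟩ := mk_surj x
  exact key x U hx

/-- The unordered pair. -/
def upair (a b : Name B) : Name B := Name.mk (ULift.{u} Bool) (fun t => cond t.down a b) (fun _ => ⊤)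

theorem mem_upair (U : Ultra B) (a b : Name B) (x : Mod U) :
    mem U x (mk U (upair a b)) ↔ x = mk U a ∨ x = mk U b := by
  constructor
  · refine of_mem_mk (P := fun U x => x = mk U a ∨ x = mk U b)
      (fun x => (Rep.eq x a).or (Rep.eq x b)) ?_ U x
    rintro ⟨_ | _⟩ V -
    exacts [Or.inr rfl, Or.inl rfl]
  · rintro (rfl | rfl)
    · exact mem_mk_of (A := fun t : ULift.{u} Bool => cond t.down a b) ⟨true⟩ U.top
    · exact mem_mk_of (A := fun t : ULift.{u} Bool => cond t.down a b) ⟨false⟩ U.top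

theorem mod_union (U : Ultra B) (a : Mod U) :
    ∃ c, ∀ x, mem U x c ↔ ∃ y, mem U y a ∧ mem U x y := by
  obtain ⟨a, rfl⟩ := mk_surj a
  refine ⟨mk U (Name.mk (Σ i, (a.val i).idx) (fun s => (a.val s.1).val s.2)
    (fun s => a.bv s.1 ⊓ (a.val s.1).bv s.2)), fun x => ⟨?_, ?_⟩⟩
  · refine of_mem_mk (P := fun U x => ∃ y, mem U y (mk U a) ∧ mem U x y)
      (fun x => Rep.ex (fun y => (Rep.mem y a).and (Rep.mem x y))) ?_ U x
    rintro ⟨i, j⟩ V hV
    rw [V.inf_iff] at hV
    exact ⟨_, mem_val a i hV.1, mem_val _ j hV.2⟩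
  · rintro ⟨y, hy, hxy⟩
    obtain ⟨x, rfl⟩ := mk_surj x
    set c := Name.mk (Σ i, (a.val i).idx) (fun s => (a.val s.1).val s.2)
      (fun s => a.bv s.1 ⊓ (a.val s.1).bv s.2) with hc
    refine of_mem_name (P := fun U y => mem U (mk U x) y → mem U (mk U x) (mk U c))
      (fun y => (Rep.mem x y).imp (Rep.mem x c)) ?_ U y hy hxy
    intro i V hV hx
    refine of_mem_name (P := fun U z => U.s (a.bv i) → mem U z (mk U c))
      (fun z => (Rep.of_s _).imp (Rep.mem z c)) ?_ V _ hx hV
    intro j W h1 h2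
    exact mem_mk_of (ι := Σ i, (a.val i).idx) ⟨i, j⟩ (W.inf h2 h1)

/-- The trace of `x` on the name `a`. -/
theorem eq_trace (U : Ultra B) (a x : Name B)
    (h : ∀ y, mem U y (mk U x) → mem U y (mk U a)) :
    mk U x = mk U (Name.mk a.idx a.val (fun i => a.bv i ⊓ bmem (a.val i) x)) := by
  apply mod_ext
  intro y
  constructor
  · intro hy
    refine of_mem_name (P := fun U y => mem U y (mk U x) →
        mem U y (mk U (Name.mk a.idx a.val (fun i => a.bv i ⊓ bmem (a.val i) x))))
      (fun y => (Rep.mem y x).imp (Rep.mem y _)) ?_ U y (h y hy) hy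
    intro i V h1 h2
    exact mem_mk_of i (V.inf h1 h2)
  · refine of_mem_mk (P := fun U y => mem U y (mk U x)) (fun y => Rep.mem y x) ?_ U y
    intro i V h1
    exact V.mono inf_le_right h1

theorem mod_power (U : Ultra B) (a : Mod U) :
    ∃ c, ∀ x, mem U x c ↔ ∀ y, mem U y x → mem U y a := by
  obtain ⟨a, rfl⟩ := mk_surj a
  refine ⟨mk U (Name.mk (a.idx → B) (fun τ => Name.mk a.idx a.val (fun i => a.bv i ⊓ τ i))
    (fun _ => ⊤)), fun x => ⟨?_, ?_⟩⟩
  · refine of_mem_mk (P := fun U x => ∀ y, mem U y x → mem U y (mk U a))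
      (fun x => Rep.all (fun y => (Rep.mem y x).imp (Rep.mem y a))) ?_ U x
    intro τ V _ y
    refine of_mem_mk (P := fun U y => mem U y (mk U a)) (fun y => Rep.mem y a) ?_ V y
    intro i W hW
    exact mem_val a i (W.mono inf_le_left hW)
  · intro h
    obtain ⟨x, rfl⟩ := mk_surj x
    rw [eq_trace U a x h]
    exact mem_mk_of (A := fun τ : a.idx → B => Name.mk a.idx a.val (fun i => a.bv i ⊓ τ i))
      (fun i => bmem (a.val i) x) U.top

/-- `x ∪ {x}`. -/
def succN (x : Name B) : Name B :=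
  Name.mk (Option x.idx) (fun o => Option.elim o x x.val) (fun o => Option.elim o ⊤ x.bv)

theorem mem_succN (U : Ultra B) (x : Name B) (y : Mod U) :
    mem U y (mk U (succN x)) ↔ mem U y (mk U x) ∨ y = mk U x := by
  constructor
  · refine of_mem_mk (P := fun U y => mem U y (mk U x) ∨ y = mk U x)
      (fun y => (Rep.mem y x).or (Rep.eq y x)) ?_ U y
    rintro (_ | i) V hV
    · exact Or.inr rfl
    · exact Or.inl (mem_val x i hV)
  · rintro (h | rfl)
    · refine of_mem_name (P := fun U y => mem U y (mk U (succN x))) (fun y => Rep.mem y _) ?_ U y h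
      intro i V hV
      exact mem_mk_of (A := fun o => Option.elim o x x.val) (some i) hV
    · exact mem_mk_of (A := fun o => Option.elim o x x.val) none U.top

/-- The finite ordinals. -/
def natN : ℕ → Name B
  | 0 => Name.mk PEmpty PEmpty.elim PEmpty.elim
  | n + 1 => succN (natN n)

theorem not_mem_zero (U : Ultra B) (y : Mod U) : ¬ mem U y (mk U (natN 0)) :=
  of_mem_mk (P := fun _ _ => False) (fun _ => Rep.false) (fun i => i.elim) U y

theorem natN_mem (U : Ultra B) {m n : ℕ} (h : m < n) :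
    mem U (mk U (natN m)) (mk U (natN n)) := by
  induction n with
  | zero => omega
  | succ n ih =>
    rw [natN, mem_succN]
    rcases Nat.lt_succ_iff_lt_or_eq.mp h with h | h
    · exact Or.inl (ih h)
    · exact Or.inr (by rw [h])

theorem natN_inj (U : Ultra B) {m n : ℕ} (h : mk U (natN m) = mk U (natN n)) : m = n := by
  by_contra hne
  rcases lt_or_gt_of_ne hne with h1 | h1
  · have := natN_mem U h1
    rw [h] at this
    exact mod_irrefl U _ this
  · have := natN_mem U h1
    rw [h] at this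
    exact mod_irrefl U _ this

/-- The first infinite ordinal. -/
def omegaN : Name B := Name.mk (ULift.{u} ℕ) (fun n => natN n.down) (fun _ => ⊤)

theorem natN_mem_omega (U : Ultra B) (n : ℕ) : mem U (mk U (natN n)) (mk U omegaN) :=
  mem_mk_of (A := fun n : ULift.{u} ℕ => natN n.down) ⟨n⟩ U.top

theorem omega_inductive (U : Ultra B) : IsInductive (mem U) (mk U omegaN) := by
  refine ⟨⟨_, natN_mem_omega U 0, not_mem_zero U⟩, ?_⟩
  refine of_mem_mk (P := fun U x => ∃ s, mem U s (mk U omegaN) ∧ ∀ y, mem U y s ↔ mem U y x ∨ y = x)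
    (fun x => Rep.ex (fun s => (Rep.mem s _).and (Rep.all (fun y =>
      (Rep.mem y s).iff ((Rep.mem y x).or (Rep.eq y x)))))) ?_ U
  rintro ⟨n⟩ V _
  exact ⟨_, natN_mem_omega V (n + 1), mem_succN V _⟩

theorem rep_inductive (w : Name B) : Rep (fun U => IsInductive (mem U) (mk U w)) :=
  (Rep.ex (fun e => (Rep.mem e w).and (Rep.all (fun x => (Rep.mem x e).not)))).and
    (Rep.all (fun x => (Rep.mem x w).imp (Rep.ex (fun s => (Rep.mem s w).and (Rep.all (fun y =>
      (Rep.mem y s).iff ((Rep.mem y x).or (Rep.eq y x))))))))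

theorem omega_least (U : Ultra B) (w : Mod U) (hw : IsInductive (mem U) w) (x : Mod U)
    (hx : mem U x (mk U omegaN)) : mem U x w := by
  obtain ⟨w, rfl⟩ := mk_surj w
  refine of_mem_mk (P := fun U x => IsInductive (mem U) (mk U w) → mem U x (mk U w))
    (fun x => (rep_inductive w).imp (Rep.mem x w)) ?_ U x hx hw
  rintro ⟨n⟩ V - hV
  show mem V (mk V (natN n)) (mk V w)
  induction n with
  | zero =>
    obtain ⟨e, he, he'⟩ := hV.1
    rwa [mod_ext V (mk V (natN 0)) e (fun y => iff_of_false (not_mem_zero V y) (he' y))]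
  | succ n ih =>
    obtain ⟨s, hs, hs'⟩ := hV.2 _ ih
    rwa [mod_ext V (mk V (natN (n + 1))) s (fun y => by rw [hs', natN, mem_succN])]

theorem mk_update (U : Ultra B) (v : ℕ → Name B) (i : ℕ) (x : Name B) :
    Function.update (fun n => mk U (v n)) i (mk U x) = fun n => mk U (Function.update v i x n) :=
  (Function.comp_update (mk U) v i x).symm

theorem rep_sat (φ : Fml) : ∀ v : ℕ → Name B,
    Rep (fun U => Sat (mem U) φ (fun n => mk U (v n))) := by
  induction φ with
  | mem i j => exact fun v => Rep.mem _ _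
  | eq i j => exact fun v => Rep.eq _ _
  | bot => exact fun v => Rep.false
  | imp φ ψ h1 h2 => exact fun v => (h1 v).imp (h2 v)
  | all i φ ih =>
    intro v
    refine Rep.all (P := fun U x => Sat (mem U) φ (Function.update (fun n => mk U (v n)) i x))
      (fun x => ?_)
    simp only [mk_update]
    exact ih _

theorem exists_sep (a : Name B) {P : ∀ U : Ultra B, Mod U → Prop}
    (hP : ∀ x, Rep (fun U => P U (mk U x))) :
    ∃ b : Name B, ∀ U x, mem U x (mk U b) ↔ mem U x (mk U a) ∧ P U x := by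
  choose φ hφ using hP
  have hP : ∀ x, Rep (fun U => P U (mk U x)) := fun x => ⟨φ x, hφ x⟩
  refine ⟨Name.mk a.idx a.val (fun i => a.bv i ⊓ φ (a.val i)), fun U x => ⟨?_, ?_⟩⟩
  · refine of_mem_mk (P := fun U x => mem U x (mk U a) ∧ P U x)
      (fun x => (Rep.mem x a).and (hP x)) ?_ U x
    intro i V hV
    rw [V.inf_iff] at hV
    exact ⟨mem_val a i hV.1, (hφ _ V).mp hV.2⟩
  · rintro ⟨h1, h2⟩
    refine of_mem_name (P := fun U x => P U x →
        mem U x (mk U (Name.mk a.idx a.val (fun i => a.bv i ⊓ φ (a.val i)))))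
      (fun x => (hP x).imp (Rep.mem x _)) ?_ U x h1 h2
    intro i V g1 g2
    exact mem_mk_of i (V.inf g1 ((hφ _ V).mpr g2))

theorem exists_coll (a : Name B) {Q : ∀ U : Ultra B, Mod U → Mod U → Prop}
    (hQ : ∀ x y, Rep (fun U => Q U (mk U x) (mk U y))) :
    ∃ c : Name B, ∀ U x, mem U x (mk U a) → (∃ y, Q U x y) → ∃ y, mem U y (mk U c) ∧ Q U x y := by
  choose y hy using fun i : a.idx =>
    Rep.witness (P := fun U y => Q U (mk U (a.val i)) y) (fun y => hQ _ y)
  refine ⟨Name.mk a.idx y (fun _ => ⊤), fun U x hx => ?_⟩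
  refine of_mem_name (P := fun U x => (∃ y, Q U x y) →
      ∃ z, mem U z (mk U (Name.mk a.idx y (fun _ => ⊤))) ∧ Q U x z)
    (fun x => (Rep.ex (fun y => hQ x y)).imp (Rep.ex (fun z => (Rep.mem z _).and (hQ x z))))
    ?_ U x hx
  intro i V _ h
  exact ⟨_, mem_mk_of i V.top, hy i V h⟩

theorem mod_choice (U : Ultra B) (a : Mod U) (h1 : ∀ x, mem U x a → ∃ z, mem U z x)
    (h2 : ∀ x y z, mem U x a → mem U y a → mem U z x → mem U z y → x = y) :
    ∃ c, ∀ x, mem U x a → ∃! z, mem U z x ∧ mem U z c := by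
  obtain ⟨a, rfl⟩ := mk_surj a
  choose w hw using fun i : a.idx =>
    Rep.witness (P := fun U z => mem U z (mk U (a.val i))) (fun z => Rep.mem z _)
  let r : a.idx → a.idx → Prop := WellOrderingRel
  have wo : IsWellOrder a.idx r := WellOrderingRel.isWellOrder
  let first : a.idx → B := fun i =>
    a.bv i ⊓ ⨅ j : {j // r j i}, (a.bv j ⊓ beq (a.val j) (a.val i))ᶜ
  let c : Name B := Name.mk a.idx w first
  have hH : Rep (fun U => (∀ x, mem U x (mk U a) → ∃ z, mem U z x) ∧
      ∀ x y z, mem U x (mk U a) → mem U y (mk U a) → mem U z x → mem U z y → x = y) :=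
    (Rep.all (fun x => (Rep.mem x a).imp (Rep.ex (fun z => Rep.mem z x)))).and
      (Rep.all (fun x => Rep.all (fun y => Rep.all (fun z => (Rep.mem x a).imp ((Rep.mem y a).imp
        ((Rep.mem z x).imp ((Rep.mem z y).imp (Rep.eq x y))))))))
  have hex : ∀ i (V : Ultra B), V.s (a.bv i) → (∀ x, mem V x (mk V a) → ∃ z, mem V z x) →
      ∃ z, mem V z (mk V (a.val i)) ∧ mem V z (mk V c) := by
    intro i
    induction i using wo.wf.induction with
    | _ i ih =>
      intro V g1 g2
      refine Rep.imp_of_dense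
        (P := fun V => V.s (a.bv i) ∧ ∀ x, mem V x (mk V a) → ∃ z, mem V z x)
        (Q := fun V => ∃ z, mem V z (mk V (a.val i)) ∧ mem V z (mk V c)) ((Rep.of_s (a.bv i)).and
        (Rep.all (fun x => (Rep.mem x a).imp (Rep.ex (fun z => Rep.mem z x)))))
        (Rep.ex (fun z => (Rep.mem z (a.val i)).and (Rep.mem z c))) ?_ V ⟨g1, g2⟩
      intro q hq hF
      by_cases hf : q ≤ ⨅ j : {j // r j i}, (a.bv j ⊓ beq (a.val j) (a.val i))ᶜ
      · refine ⟨q, hq, le_rfl, fun W hW => ?_⟩
        obtain ⟨k1, k2⟩ := hF W hW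
        exact ⟨_, hw i W (k2 _ (mem_val a i k1)), mem_mk_of i (W.inf k1 (W.mono hf hW))⟩
      · rw [le_iInf_iff] at hf
        push Not at hf
        obtain ⟨j, hj⟩ := hf
        obtain ⟨r', k1, k2, k3⟩ := exists_of_not_le hj
        rw [compl_compl] at k3
        refine ⟨r', k1, k2, fun W hW => ?_⟩
        have k4 := W.inf_iff.mp (W.mono k3 hW)
        have k5 := ih j j.2 W k4.1 (hF W (W.mono k2 hW)).2
        rwa [mk_eq.mpr k4.2] at k5
  have huniq : ∀ i j (V : Ultra B), V.s (first i) → V.s (first j) →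
      mk V (a.val i) = mk V (a.val j) → i = j := by
    have key : ∀ i j (V : Ultra B), r i j → V.s (first i) → V.s (first j) →
        mk V (a.val i) = mk V (a.val j) → False := by
      intro i j V hij g1 g2 g3
      have k1 : V.s (a.bv i ⊓ beq (a.val i) (a.val j))ᶜ :=
        V.mono (inf_le_right.trans (iInf_le (fun k : {k // r k j} =>
          (a.bv k ⊓ beq (a.val k) (a.val j))ᶜ) ⟨i, hij⟩)) g2
      exact V.compl_iff.mp k1 (V.inf (V.mono inf_le_left g1) (mk_eq.mp g3))
    intro i j V g1 g2 g3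
    exact wo.trichotomous i j (fun h => key i j V h g1 g2 g3) (fun h => key j i V h g2 g1 g3.symm)
  refine ⟨mk U c, fun x hx => ?_⟩
  obtain ⟨x, rfl⟩ := mk_surj x
  have e1 : ∃ z, mem U z (mk U x) ∧ mem U z (mk U c) :=
    of_mem_name (P := fun V x => (∀ x, mem V x (mk V a) → ∃ z, mem V z x) →
        ∃ z, mem V z x ∧ mem V z (mk V c))
      (fun x => (Rep.all (fun x => (Rep.mem x a).imp (Rep.ex (fun z => Rep.mem z x)))).imp
        (Rep.ex (fun z => (Rep.mem z x).and (Rep.mem z c)))) hex U _ hx h1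
  apply existsUnique_of_exists_of_unique e1
  rintro z z' ⟨k1, k2⟩ ⟨k3, k4⟩
  obtain ⟨z', rfl⟩ := mk_surj z'
  let H : Ultra B → Prop := fun U => (∀ x, mem U x (mk U a) → ∃ z, mem U z x) ∧
      ∀ x y z, mem U x (mk U a) → mem U y (mk U a) → mem U z x → mem U z y → x = y
  refine of_mem_mk (P := fun V z => H V → mem V (mk V x) (mk V a) → mem V z (mk V x) →
      mem V (mk V z') (mk V x) → mem V (mk V z') (mk V c) → z = mk V z')
    (fun z => hH.imp ((Rep.mem x a).imp ((Rep.mem z x).imp ((Rep.mem z' x).imp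
      ((Rep.mem z' c).imp (Rep.eq z z')))))) ?_ U z k2 ⟨h1, h2⟩ hx k1 k3 k4
  intro i V g1 g2 g3 g4 g5 g6
  refine of_mem_mk (P := fun V z' => V.s (first i) → H V → mem V (mk V x) (mk V a) →
      mem V (mk V (w i)) (mk V x) → mem V z' (mk V x) → mk V (w i) = z')
    (fun z' => (Rep.of_s _).imp (hH.imp ((Rep.mem x a).imp ((Rep.mem _ x).imp
      ((Rep.mem z' x).imp (Rep.eq _ z')))))) ?_ V _ g6 g1 g2 g3 g4 g5
  intro j W m1 m2 m3 m4 m5 m6
  have n1 := mem_val a i (W.mono inf_le_left m2)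
  have n2 := mem_val a j (W.mono inf_le_left m1)
  have n3 := m3.2 _ _ _ n1 m4 (hw i W (m3.1 _ n1)) m5
  have n4 := m3.2 _ _ _ n2 m4 (hw j W (m3.1 _ n2)) m6
  rw [huniq i j W m2 m1 (n3.trans n4.symm)]

theorem mod_isZFC (U : Ultra B) : IsZFC (mem U) := by
  refine ⟨mod_ext U, mod_found U, ?_, mod_union U, mod_power U, ⟨_, omega_inductive U⟩, ?_, ?_,
    mod_choice U⟩
  · intro a b
    obtain ⟨a, rfl⟩ := mk_surj a
    obtain ⟨b, rfl⟩ := mk_surj b
    exact ⟨_, mem_upair U a b⟩
  · intro φ v i a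
    obtain ⟨a, rfl⟩ := mk_surj a
    choose w hw using fun n => mk_surj (v n)
    obtain rfl : v = fun n => mk U (w n) := funext (fun n => (hw n).symm)
    obtain ⟨b, hb⟩ := exists_sep a
      (P := fun U x => Sat (mem U) φ (Function.update (fun n => mk U (w n)) i x)) (fun x => by
        simp only [mk_update]
        exact rep_sat φ _)
    exact ⟨_, hb U⟩
  · intro φ v i j a h
    obtain ⟨a, rfl⟩ := mk_surj a
    choose w hw using fun n => mk_surj (v n)
    obtain rfl : v = fun n => mk U (w n) := funext (fun n => (hw n).symm)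
    have hQ : ∀ x y, Rep (fun U => Sat (mem U) φ
        (Function.update (Function.update (fun n => mk U (w n)) i (mk U x)) j (mk U y))) := by
      intro x y
      simp only [mk_update]
      exact rep_sat φ _
    obtain ⟨c, hc⟩ := exists_coll a (Q := fun U x y => Sat (mem U) φ
      (Function.update (Function.update (fun n => mk U (w n)) i x) j y)) hQ
    obtain ⟨b, hb⟩ := exists_sep c (P := fun U y => ∃ x, mem U x (mk U a) ∧ Sat (mem U) φ
      (Function.update (Function.update (fun n => mk U (w n)) i x) j y))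
      (fun y => Rep.ex (fun x => (Rep.mem x a).and (hQ x y)))
    refine ⟨mk U b, fun y => ?_⟩
    rw [hb]
    refine ⟨fun h => h.2, fun ⟨x, hx, hxy⟩ => ⟨?_, x, hx, hxy⟩⟩
    obtain ⟨y', h1, h2⟩ := hc U x hx ⟨y, hxy⟩
    rwa [(h x hx).unique hxy h2]

end Pool.Agent.P.MP_b10269_lc
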