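import Mathlib
import Pool.Agent.P.MP_b10269_lc.Defs

/-! Further notions read inside a model `(M, E)` of ZFC. -/

namespace Pool.Agent.P.MP_b10269_lc

universe u

variable {M : Type u} (E : M → M → Prop)

/-- `k` is strongly inaccessible: regular, uncountable, and the power set of every element of `k`
has size `< k`. -/
def IsInacc (k : M) : Prop :=
  IsRegUnc E k ∧ ∀ a, E a k → ∃ P, (∀ x, E x P ↔ ∀ y, E y x → E y a) ∧ CardLT E P k

/-- `F` has the property `Q` and has least size among the sets with `Q`. -/
def LeastWith (Q : M → Prop) (F : M) : Prop := Q F ∧ ∀ G, Q G → CardLE E F G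

/-- `|F|` is singular of countable cofinality: `F` is uncountable and is the union of a countable
family of sets of size `< |F|`. -/
def SingularOmega (F : M) : Prop :=
  ¬ IsCountable E F ∧ ∃ N, IsCountable E N ∧ (∀ S, E S N → CardLT E S F) ∧
    ∀ A, E A F ↔ ∃ S, E S N ∧ E A S

end Pool.Agent.P.MP_b10269_lc
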