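import Mathlib
import Pool.Agent.P.MP_b10269_lc.Iface

/-! General tools: small sets, recursive choices, filtrations, closures, cardinalities. -/

namespace Pool.Agent.P.MP_b10269_lc

open Cardinal Set

universe u v

/-- Sets of size less than `κ`. -/
abbrev Sm {X : Type 1} (s : Set X) : Prop := Small.{0} s

namespace Sm

variable {X Y : Type 1}

theorem sub {s t : Set X} (h : Sm s) (hts : t ⊆ s) : Sm t := @small_subset _ _ _ hts h

theorem empty : Sm (∅ : Set X) := small_empty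

theorem single (x : X) : Sm ({x} : Set X) := small_single x

theorem union {s t : Set X} (hs : Sm s) (ht : Sm t) : Sm (s ∪ t) := @small_union _ s t hs ht

theorem image {s : Set X} (hs : Sm s) (f : X → Y) : Sm (f '' s) := @small_image _ _ f s hs

theorem biUnion {s : Set X} (hs : Sm s) {f : X → Set Y} (hf : ∀ x ∈ s, Sm (f x)) :
    Sm (⋃ x ∈ s, f x) := @small_biUnion _ _ s hs (fun x _ => f x) (fun x hx => hf x hx)

theorem sUnion {S : Set (Set X)} (hS : Sm S) (h : ∀ s ∈ S, Sm s) : Sm (⋃₀ S) := by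
  rw [sUnion_eq_biUnion]; exact hS.biUnion h

theorem pow {s : Set X} (hs : Sm s) : Sm {t | t ⊆ s} := @small_powerset _ s hs

theorem prod {s : Set X} {t : Set Y} (hs : Sm s) (ht : Sm t) : Sm (s ×ˢ t) :=
  @small_setProd _ _ s t hs ht

theorem iio (β : K) : Sm (Iio β) := Ordinal.small_Iio β

theorem iic (β : K) : Sm (Iic β) := Ordinal.small_Iic β

theorem range {ι : Type v} [Small.{0} ι] (f : ι → X) : Sm (range f) := small_range f

theorem of_inj {s : Set X} {t : Set Y} (ht : Sm t) (f : X → Y) (hf : InjOn f s)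
    (hm : MapsTo f s t) : Sm s :=
  @small_of_injective _ _ ht (hm.restrict f s t) (hm.restrict_inj.mpr hf)

theorem bdd {s : Set K} (hs : Sm s) : ∃ β, ∀ x ∈ s, x < β := by
  obtain ⟨β, hβ⟩ := @Ordinal.bddAbove_of_small s hs
  exact ⟨β + 1, fun x hx => Order.lt_add_one_iff.mpr (hβ hx)⟩

theorem bound {s : Set X} (hs : Sm s) (P : X → K → Prop) (h : ∀ x ∈ s, ∃ β, P x β)
    (hm : ∀ x β β', β ≤ β' → P x β → P x β') : ∃ β, ∀ x ∈ s, P x β := by
  choose! f hf using h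
  obtain ⟨β, hβ⟩ := (hs.image f).bdd
  exact ⟨β, fun x hx => hm x _ _ (hβ _ ⟨x, hx, rfl⟩).le (hf x hx)⟩

theorem lub {s : Set K} (hs : Sm s) : ∃ σ, (∀ x ∈ s, x ≤ σ) ∧ ∀ β, β < σ → ∃ x ∈ s, β < x := by
  have hb := @Ordinal.bddAbove_of_small s hs
  refine ⟨sSup s, fun x hx => le_csSup hb hx, fun β hβ => ?_⟩
  by_contra hc
  push Not at hc
  exact absurd (csSup_le' hc) (not_le.mpr hβ)

theorem card_lt {s : Set X} : Sm s ↔ #s < #K := by
  have := @small_iff_lift_mk_lt_univ.{1, 0} s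
  simpa using this

end Sm

theorem exists_rec {I : Type u} {X : Type v} [Nonempty X] [LT I] [WellFoundedLT I]
    (Φ : I → (I → X) → X → Prop)
    (hloc : ∀ i f g x, (∀ j, j < i → f j = g j) → Φ i f x → Φ i g x)
    (hstep : ∀ i f, (∀ j, j < i → Φ j f (f j)) → ∃ x, Φ i f x) : ∃ f, ∀ i, Φ i f (f i) := by
  classical
  let d : X := Classical.arbitrary X
  let F : ∀ i : I, (∀ j, j < i → X) → X := fun i r =>
    Classical.epsilon (Φ i (fun j => if h : j < i then r j h else d))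
  let f : I → X := (wellFounded_lt (α := I)).fix F
  have hf : ∀ i, f i = Classical.epsilon (Φ i (fun j => if j < i then f j else d)) := by
    intro i
    show (wellFounded_lt (α := I)).fix F i = _
    rw [WellFounded.fix_eq]
    rfl
  refine ⟨f, fun i => ?_⟩
  induction i using (wellFounded_lt (α := I)).induction with
  | _ i ih =>
    obtain ⟨x, hx⟩ := hstep i f ih
    have h1 : Φ i (fun j => if j < i then f j else d) x :=
      hloc i _ _ x (fun j hj => by simp [hj]) hx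
    have h2 := Classical.epsilon_spec ⟨x, h1⟩
    rw [← hf] at h2
    exact hloc i _ _ _ (fun j hj => by simp [hj]) h2

theorem exists_rec' {I : Type u} {X : Type v} [Nonempty X] [LT I] [WellFoundedLT I]
    (P : I → X → Prop) (R : I → X → I → X → Prop)
    (hstep : ∀ i (f : I → X), (∀ j, j < i → P j (f j)) →
      (∀ j, j < i → ∀ k, k < j → R k (f k) j (f j)) → ∃ x, P i x ∧ ∀ j, j < i → R j (f j) i x) :
    ∃ f : I → X, (∀ i, P i (f i)) ∧ ∀ i j, j < i → R j (f j) i (f i) := by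
  obtain ⟨f, hf⟩ := exists_rec (fun i (f : I → X) x => P i x ∧ ∀ j, j < i → R j (f j) i x)
    (fun i f g x h hx => ⟨hx.1, fun j hj => h j hj ▸ hx.2 j hj⟩)
    (fun i f h => hstep i f (fun j hj => (h j hj).1) (fun j hj => (h j hj).2))
  exact ⟨f, fun i => (hf i).1, fun i j hj => (hf i).2 j hj⟩

/-- A filtration by small sets closed under a given operation. -/
theorem exists_filtration {X : Type 1} (S0 : Set X) (h0 : Sm S0) (Φ : Set X → K → Set X)
    (hΦ : ∀ S β, Sm S → Sm (Φ S β)) :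
    ∃ V : K → Set X, (∀ β, Sm (V β)) ∧ (∀ β, S0 ⊆ V β) ∧ (∀ β γ, β ≤ γ → V β ⊆ V γ) ∧
      ∀ β γ, β < γ → Φ (V β) β ⊆ V γ := by
  obtain ⟨V, h1, h2⟩ := exists_rec' (I := K) (fun _ (S : Set X) => Sm S ∧ S0 ⊆ S)
    (fun γ S _ S' => S ⊆ S' ∧ Φ S γ ⊆ S') (by
      intro β f h1 _
      refine ⟨S0 ∪ ⋃ γ ∈ Iio β, (f γ ∪ Φ (f γ) γ), ⟨h0.union ((Sm.iio β).biUnion
        (fun γ hγ => (h1 γ hγ).1.union (hΦ _ _ (h1 γ hγ).1))), subset_union_left⟩,
        fun γ hγ => ⟨?_, ?_⟩⟩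
      · exact fun a ha => Or.inr (mem_biUnion hγ (Or.inl ha))
      · exact fun a ha => Or.inr (mem_biUnion hγ (Or.inr ha)))
  refine ⟨V, fun β => (h1 β).1, fun β => (h1 β).2, fun β γ h => ?_, fun β γ h => (h2 γ β h).2⟩
  rcases h.lt_or_eq with h | rfl
  exacts [(h2 γ β h).1, subset_rfl]

theorem aleph0_le_K : ℵ₀ ≤ #K := aleph0_le_mk K

/-- A set of size at most `κ` is covered by a `κ`-sequence. -/
theorem exists_enum {X : Type 1} (d : X) {s : Set X} (hs : #s ≤ #K) :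
    ∃ f : K → X, (∀ k, f k ∈ s ∨ f k = d) ∧ ∀ x ∈ s, ∃ k, f k = x := by
  classical
  obtain ⟨e⟩ := Cardinal.le_def _ _ |>.mp hs
  refine ⟨fun k => if h : ∃ x, e x = k then (h.choose : X) else d, fun k => ?_, fun x hx => ?_⟩
  · by_cases h : ∃ x, e x = k
    · left; simp only [dif_pos h]; exact h.choose.2
    · right; simp only [dif_neg h]
  · have h : ∃ y, e y = e ⟨x, hx⟩ := ⟨_, rfl⟩
    refine ⟨e ⟨x, hx⟩, ?_⟩
    simp only [dif_pos h]
    rw [e.injective h.choose_spec]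

theorem card_iUnion_le {X ι : Type 1} {c : Cardinal.{1}} (hc : ℵ₀ ≤ c) (hι : #ι ≤ c)
    {f : ι → Set X} (hf : ∀ i, #(f i) ≤ c) : #(⋃ i, f i) ≤ c := by
  refine (mk_iUnion_le f).trans ?_
  exact (mul_le_mul' hι (ciSup_le' hf)).trans (mul_eq_self hc).le

theorem card_union_le {X : Type 1} {c : Cardinal.{1}} (hc : ℵ₀ ≤ c) {s t : Set X} (hs : #s ≤ c)
    (ht : #t ≤ c) : #(s ∪ t : Set X) ≤ c :=
  (mk_union_le s t).trans (add_le_of_le hc hs ht)

/-- Closure under `κ`-ary operations. -/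
theorem exists_closure {X : Type 1} {c : Cardinal.{1}} (hc : ℵ₀ ≤ c) (hcK : c ^ #K ≤ c)
    (S0 : Set X) (h0 : #S0 ≤ c) (F : (K → X) → Set X) (hF : ∀ f, #(F f) ≤ c) :
    ∃ M : Set X, S0 ⊆ M ∧ #M ≤ c ∧ ∀ f, (∀ k, f k ∈ M) → F f ⊆ M := by
  classical
  rcases S0.eq_empty_or_nonempty with rfl | ⟨d, hd⟩
  · refine ⟨∅, subset_rfl, h0, fun f hf => (hf 0).elim⟩
  have he : ∀ s : Set X, #s ≤ c → ∃ e : c.out → X, (∀ i, e i ∈ s ∨ e i = d) ∧ ∀ x ∈ s, ∃ i, e i = x := by
    intro s hs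
    rw [← mk_out c] at hs
    obtain ⟨e⟩ := Cardinal.le_def _ _ |>.mp hs
    refine ⟨fun k => if h : ∃ x, e x = k then (h.choose : X) else d, fun k => ?_, fun x hx => ?_⟩
    · by_cases h : ∃ x, e x = k
      · left; simp only [dif_pos h]; exact h.choose.2
      · right; simp only [dif_neg h]
    · have h : ∃ y, e y = e ⟨x, hx⟩ := ⟨_, rfl⟩
      refine ⟨e ⟨x, hx⟩, ?_⟩
      simp only [dif_pos h]
      rw [e.injective h.choose_spec]
  obtain ⟨e0, -, he0⟩ := he S0 h0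
  choose e _ he using fun f => he (F f) (hF f)
  let β : c.out ⊕ c.out → Type 1 := fun a => Sum.elim (fun _ => PEmpty) (fun _ => K) a
  let ev : WType β → X := fun t => WType.elim X (fun s => match s with
    | ⟨Sum.inl i, _⟩ => e0 i
    | ⟨Sum.inr i, f⟩ => e f i) t
  refine ⟨range ev, fun x hx => ?_, ?_, fun f hf x hx => ?_⟩
  · obtain ⟨i, rfl⟩ := he0 x hx
    exact ⟨WType.mk (Sum.inl i) PEmpty.elim, rfl⟩
  · refine mk_range_le.trans (WType.cardinalMk_le_of_le ?_)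
    refine (sum_le_mk_mul_iSup _).trans ?_
    refine (mul_le_mul' (b := c) (d := c) ?_ (ciSup_le' ?_)).trans (mul_eq_self hc).le
    · simp [add_eq_self hc]
    · rintro (i | i)
      · simpa [β] using one_le_aleph0.trans hc
      · exact hcK
  · choose t ht using hf
    obtain ⟨i, rfl⟩ := he f x hx
    refine ⟨WType.mk (Sum.inr i) t, ?_⟩
    show e (fun k => ev (t k)) i = e f i
    rw [funext ht]

instance (n : ℕ) : Nonempty (Th n) := by
  cases n <;> exact ⟨(∅ : Set _)⟩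

theorem card_Th_zero : #(Th 0) = 2 ^ #K := mk_set

theorem card_Th_succ (n : ℕ) : #(Th (n + 1)) = 2 ^ #(Th n) := mk_set

theorem Th_lt (n : ℕ) : #(Th n) < #(Th (n + 1)) := by rw [card_Th_succ]; exact cantor _

theorem Th_mono {m n : ℕ} (h : m ≤ n) : #(Th m) ≤ #(Th n) :=
  monotone_nat_of_le_succ (f := fun n => #(Th n)) (fun n => (Th_lt n).le) h

theorem K_le_Th (n : ℕ) : #K ≤ #(Th n) :=
  ((cantor _).le.trans card_Th_zero.ge).trans (Th_mono (Nat.zero_le n))

theorem aleph0_le_Th (n : ℕ) : ℵ₀ ≤ #(Th n) := aleph0_le_K.trans (K_le_Th n)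

theorem Th_pow (n : ℕ) : #(Th n) ^ #K ≤ #(Th n) := by
  cases n with
  | zero => rw [card_Th_zero, ← power_mul, mul_eq_self aleph0_le_K]
  | succ n => rw [card_Th_succ, ← power_mul, mul_eq_left (aleph0_le_Th n) (K_le_Th n)
      (mk_ne_zero K)]

theorem Th_le_Θ (n : ℕ) : #(Th n) ≤ #Θ := mk_le_of_injective (sigma_mk_injective (i := n))

/-- Closure under queries given by `κ`-indexed families of small sets. -/
theorem exists_closure' {X I : Type 1} (hI : #I ≤ #K) (n : ℕ) (S0 : Set X) (hne : S0.Nonempty)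
    (h0 : #S0 ≤ #(Th n)) (Φ : (I → Set X) → Set X) (hΦ : ∀ q, #(Φ q) ≤ #(Th n)) :
    ∃ M : Set X, S0 ⊆ M ∧ #M ≤ #(Th n) ∧
      ∀ q, (∀ i, Sm (q i)) → (∀ i, q i ⊆ M) → Φ q ⊆ M := by
  obtain ⟨M, h1, h2, h3⟩ := exists_closure (aleph0_le_Th n) (Th_pow n) S0 h0
    (fun f => ⋃ τ : I → Set K, Φ (fun i => f '' τ i)) (fun f => by
      refine card_iUnion_le (aleph0_le_Th n) ?_ (fun τ => hΦ _)
      have : #(I → Set K) = #(Th 0) ^ #I := by
        rw [← power_def]; rfl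
      rw [this]
      exact ((power_le_power_left (mk_ne_zero _) hI).trans (Th_pow 0)).trans (Th_mono n.zero_le))
  refine ⟨M, h1, h2, fun q hq hM => ?_⟩
  obtain ⟨d, hd⟩ := hne
  obtain ⟨f, hf1, hf2⟩ := exists_enum d (s := ⋃ i, q i)
    (card_iUnion_le aleph0_le_K hI (fun i => (Sm.card_lt.mp (hq i)).le))
  refine subset_trans ?_ (h3 f (fun k => ?_))
  · refine subset_iUnion_of_subset (fun i => f ⁻¹' q i) ?_
    have : (fun i => f '' (f ⁻¹' q i)) = q := by
      funext i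
      exact image_preimage_eq_of_subset (fun x hx => hf2 x (mem_iUnion.mpr ⟨i, hx⟩))
    rw [this]
  · rcases hf1 k with h | h
    · obtain ⟨i, hi⟩ := mem_iUnion.mp h
      exact hM i hi
    · rw [h]; exact h1 hd

end Pool.Agent.P.MP_b10269_lc
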