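import Mathlib
import Pool.Agent.P.MP_b10269_lc.Gen

/-! The forcing order: atoms, conditions, the extension relation and its basic calculus. -/

namespace Pool.Agent.P.MP_b10269_lc

open Cardinal Set

/-- The coordinates of the iteration. -/
def Row : Type 1 := (#(Set Θ)).ord.ToType

noncomputable instance : LinearOrder Row := inferInstanceAs (LinearOrder (#(Set Θ)).ord.ToType)

instance : WellFoundedLT Row := inferInstanceAs (WellFoundedLT (#(Set Θ)).ord.ToType)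

abbrev Lv : Type 1 := WithTop Row

theorem card_Row : #Row = 2 ^ #Θ := (mk_ord_toType _).trans mk_set

theorem K_le_Θ : #K ≤ #Θ := (K_le_Th 0).trans (Th_le_Θ 0)

theorem aleph0_le_Θ : ℵ₀ ≤ #Θ := aleph0_le_K.trans K_le_Θ

theorem Θ_le_Row : #Θ ≤ #Row := by rw [card_Row]; exact (cantor _).le

theorem aleph0_le_Row : ℵ₀ ≤ #Row := aleph0_le_Θ.trans Θ_le_Row

instance : Nonempty Row := mk_ne_zero_iff.mp (aleph0_pos.trans_le aleph0_le_Row).ne'

theorem Row_pow {I : Type 1} (hI : #I ≤ #Θ) : #Row ^ #I ≤ #Row := by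
  refine (power_le_power_left (mk_ne_zero _) hI).trans ?_
  rw [card_Row, ← power_mul, mul_eq_self aleph0_le_Θ]

theorem card_fun_le {I X : Type 1} (hI : #I ≤ #Θ) (hX : #X ≤ #Row) : #(I → X) ≤ #Row := by
  rw [← power_def]
  exact (power_le_power_right hX).trans (Row_pow hI)

theorem row_bound (s : Set Row) (hs : #s ≤ #Θ) : ∃ η, ∀ η' ∈ s, η' < η := by
  by_contra hc
  push Not at hc
  have h1 : Order.cof Row ≤ #s := Order.cof_le hc
  have h2 : Order.cof Row = (#(Set Θ)).ord.cof := Ordinal.cof_toType _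
  have h3 := lt_cof_ord_power aleph0_le_Θ (b := 2) (by norm_num)
  rw [h2, mk_set] at h1
  exact absurd (h1.trans hs) (not_le.mpr h3)

abbrev Fam : Type 1 := K → Row

abbrev Nm : Type 1 := K → K → Fam

/-- Cohen atoms, stem atoms and promise atoms. -/
inductive Atom : Type 1
  | c (α : Θ) (ξ : K) (b : Bool)
  | s (η : Row) (x : K)
  | p (η : Row) (π : Nm)

abbrev Dt : Type 1 := Set Atom

theorem card_Fam : #Fam ≤ #Row := card_fun_le K_le_Θ le_rfl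

theorem card_Atom : #Atom ≤ #Row := by
  let e : (Θ × K × ULift.{1} Bool) ⊕ (Row × K) ⊕ (Row × Nm) → Atom := fun z => match z with
    | Sum.inl ⟨α, ξ, b⟩ => Atom.c α ξ b.down
    | Sum.inr (Sum.inl ⟨η, x⟩) => Atom.s η x
    | Sum.inr (Sum.inr ⟨η, π⟩) => Atom.p η π
  have he : Function.Surjective e := by
    rintro (⟨α, ξ, b⟩ | ⟨η, x⟩ | ⟨η, π⟩)
    exacts [⟨Sum.inl ⟨α, ξ, ⟨b⟩⟩, rfl⟩, ⟨Sum.inr (Sum.inl ⟨η, x⟩), rfl⟩,
      ⟨Sum.inr (Sum.inr ⟨η, π⟩), rfl⟩]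
  refine (mk_le_of_surjective he).trans ?_
  have hK : #K ≤ #Row := K_le_Θ.trans Θ_le_Row
  have hN : #Nm ≤ #Row := card_fun_le K_le_Θ (card_fun_le K_le_Θ card_Fam)
  have hm : ∀ {a b : Cardinal.{1}}, a ≤ #Row → b ≤ #Row → a * b ≤ #Row := fun ha hb =>
    (mul_le_mul' ha hb).trans (mul_eq_self aleph0_le_Row).le
  simp only [mk_sum, mk_prod, lift_id]
  refine add_le_of_le aleph0_le_Row (hm Θ_le_Row (hm hK ?_))
    (add_le_of_le aleph0_le_Row (hm le_rfl hK) (hm le_rfl hN))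
  exact (mk_le_aleph0).trans aleph0_le_Row

theorem exists_surj {X : Type 1} [Nonempty X] (h : #X ≤ #Row) :
    ∃ e : Row → X, Function.Surjective e := by
  obtain ⟨i⟩ := Cardinal.le_def _ _ |>.mp h
  exact ⟨Function.invFun i, Function.invFun_surjective i.injective⟩

theorem exists_dec : ∃ dec : Row → Dt, ∀ d, Sm d → ∃ ρ, dec ρ = d := by
  obtain ⟨e, he⟩ := exists_surj (X := K → Option Atom) (card_fun_le K_le_Θ (by
    rw [mk_option]
    exact add_le_of_le aleph0_le_Row card_Atom (one_le_aleph0.trans aleph0_le_Row)))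
  refine ⟨fun ρ => {a | ∃ k, e ρ k = some a}, fun d hd => ?_⟩
  obtain ⟨f, h1, h2⟩ := exists_enum none (s := some '' d) (Sm.card_lt.mp (hd.image _)).le
  obtain ⟨ρ, rfl⟩ := he f
  refine ⟨ρ, Set.ext fun a => ⟨?_, fun ha => h2 _ ⟨a, ha, rfl⟩⟩⟩
  rintro ⟨k, hk⟩
  rcases h1 k with ⟨b, hb, h⟩ | h
  · rw [hk] at h; cases h; exact hb
  · rw [hk] at h; cases h

/-- Decoding of small data. -/
noncomputable def dec : Row → Dt := exists_dec.choose

theorem dec_surj {d : Dt} (hd : Sm d) : ∃ ρ, dec ρ = d := exists_dec.choose_spec d hd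

theorem exists_bk : ∃ bk : Row → Σ n, (Th n → K → Fam), ∀ v η0, ∃ η, η0 ≤ η ∧ bk η = v := by
  have hV : #((Σ n, (Th n → K → Fam)) × Row) ≤ #Row := by
    rw [mk_prod, lift_id, lift_id]
    refine (mul_le_mul' ?_ le_rfl).trans (mul_eq_self aleph0_le_Row).le
    rw [mk_sigma]
    refine (sum_le_lift_mk_mul_iSup _).trans ?_
    refine (mul_le_mul' (b := #Row) (d := #Row) ?_ (ciSup_le' fun n => ?_)).trans
      (mul_eq_self aleph0_le_Row).le
    · simpa using aleph0_le_Row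
    · exact card_fun_le (Th_le_Θ n) (card_fun_le K_le_Θ card_Fam)
  have : Nonempty (Σ n, (Th n → K → Fam)) := ⟨⟨0, Classical.arbitrary _⟩⟩
  obtain ⟨e, he⟩ := exists_surj hV
  refine ⟨fun η => (e η).1, fun v η0 => ?_⟩
  by_contra hc
  push Not at hc
  choose g hg using fun ρ => he (v, ρ)
  have h1 : ∀ ρ, g ρ < η0 := fun ρ => lt_of_not_ge (fun h => hc _ h (by rw [hg]))
  have h2 : #Row ≤ #(Iio η0) := mk_le_of_injective (f := fun ρ => (⟨g ρ, h1 ρ⟩ : Iio η0)) (by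
    intro a b hab
    have h3 : g a = g b := congrArg Subtype.val hab
    have h4 := hg a
    rw [h3, hg b] at h4
    exact (Prod.ext_iff.mp h4).2.symm)
  have h3 : #(Iio η0) < #Row := mk_Iio_lt η0 (by
    rw [card_Row, ← mk_set]; exact (Ordinal.type_toType _).symm)
  exact absurd h2 (not_le.mpr h3)

/-- The bookkeeping. -/
noncomputable def bk : Row → Σ n, (Th n → K → Fam) := exists_bk.choose

noncomputable def lev (η : Row) : ℕ := (bk η).1

noncomputable def fam (η : Row) : Th (lev η) → K → Fam := (bk η).2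

def Atom.below (ℓ : Lv) : Atom → Prop
  | .c _ _ _ => True
  | .s η _ => (η : Lv) < ℓ
  | .p η _ => (η : Lv) < ℓ

def res (d : Dt) (ℓ : Lv) : Dt := {a | a ∈ d ∧ a.below ℓ}

def tail (d : Dt) (ℓ : Lv) : Dt := {a | a ∈ d ∧ ¬ a.below ℓ}

def stem (d : Dt) (η : Row) : Set K := {x | Atom.s η x ∈ d}

def Func (d : Dt) : Prop := ∀ α ξ, Atom.c α ξ true ∈ d → Atom.c α ξ false ∉ d

noncomputable def mark (t : Set K) (x : K) : K := sInf {m | ∀ y ∈ t, y < x → y < m}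

def FR (R : Dt → Dt → Prop) (p : Dt) (f : Fam) : Prop :=
  ∀ p', R p' p → ∃ p'', R p'' p' ∧ ∃ k, R p'' (dec (f k))

def SipR (R : Dt → Dt → Prop) (η : Row) : Prop :=
  ∀ u : Set (Th (lev η)), Sm u → ∀ β p, R p p →
    ∃ p', R p' p ∧ ∃ x, β ≤ x ∧ ∀ j ∈ u, FR R p' (fam η j x)

def DecR (R : Dt → Dt → Prop) (η : Row) (p : Dt) (u : Set (Th (lev η))) (β : K) (a : K → Fam) :
    Prop :=
  Sm u ∧ (u.Nonempty → SipR R η) ∧
    ∀ x, β ≤ x → ∀ p', R p' p → (∀ j ∈ u, FR R p' (fam η j x)) → FR R p' (a x)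

def PromR (R : Dt → Dt → Prop) (η : Row) (π : Nm) : Prop :=
  ∀ m p, R p p → ∃ p', R p' p ∧ ∃ u β, DecR R η p' u β (π m)

def RowCl (R : Dt → Dt → Prop) (η : Row) (p q : Dt) : Prop :=
  (∀ π, Atom.p η π ∈ p → PromR R η π) ∧
  (∀ x y, Atom.s η x ∈ p → Atom.s η y ∈ q → x < y → Atom.s η x ∈ q) ∧
  ∀ x π, Atom.s η x ∈ p → Atom.s η x ∉ q → Atom.p η π ∈ q → FR R p (π (mark (stem p η) x) x)

/-- The extension relation below a level. -/
noncomputable def R : Lv → Dt → Dt → Prop :=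
  (wellFounded_lt (α := Lv)).fix fun ℓ IH p q => Sm (res p ℓ) ∧ Func p ∧ res q ℓ ⊆ p ∧
    ∀ (η : Row) (h : (η : Lv) < ℓ), RowCl (IH η h) η p q

def Forc (η : Row) (p : Dt) (f : Fam) : Prop := FR (R η) p f

def Sip (η : Row) : Prop := SipR (R η) η

def Dec (η : Row) (p : Dt) (u : Set (Th (lev η))) (β : K) (a : K → Fam) : Prop :=
  DecR (R η) η p u β a

def Prom (η : Row) (π : Nm) : Prop := PromR (R η) η π

structure IsR (ℓ : Lv) (p q : Dt) : Prop where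
  sm : Sm (res p ℓ)
  func : Func p
  sub : res q ℓ ⊆ p
  prom : ∀ (η : Row) π, (η : Lv) < ℓ → Atom.p η π ∈ p → Prom η π
  endx : ∀ (η : Row) x y, (η : Lv) < ℓ → Atom.s η x ∈ p → Atom.s η y ∈ q → x < y → Atom.s η x ∈ q
  new : ∀ (η : Row) x π, (η : Lv) < ℓ → Atom.s η x ∈ p → Atom.s η x ∉ q → Atom.p η π ∈ q →
    Forc η p (π (mark (stem p η) x) x)

theorem R_iff {ℓ : Lv} {p q : Dt} : R ℓ p q ↔ IsR ℓ p q := by
  unfold R
  rw [WellFounded.fix_eq]
  exact ⟨fun ⟨h1, h2, h3, h4⟩ => ⟨h1, h2, h3, fun η π h => (h4 η h).1 π,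
      fun η x y h => (h4 η h).2.1 x y, fun η x π h => (h4 η h).2.2 x π⟩,
    fun h => ⟨h.sm, h.func, h.sub, fun η hη => ⟨fun π => h.prom η π hη,
      fun x y => h.endx η x y hη, fun x π => h.new η x π hη⟩⟩⟩

theorem Atom.below.mono {ℓ ℓ' : Lv} (h : ℓ ≤ ℓ') {a : Atom} (ha : a.below ℓ) : a.below ℓ' := by
  cases a
  exacts [trivial, lt_of_lt_of_le ha h, lt_of_lt_of_le ha h]

theorem Atom.below_top (a : Atom) : a.below ⊤ := by
  cases a
  exacts [trivial, WithTop.coe_lt_top _, WithTop.coe_lt_top _]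

@[simp] theorem res_top (d : Dt) : res d ⊤ = d := Set.ext fun a => and_iff_left a.below_top

theorem res_sub (d : Dt) (ℓ : Lv) : res d ℓ ⊆ d := fun _ h => h.1

theorem tail_sub (d : Dt) (ℓ : Lv) : tail d ℓ ⊆ d := fun _ h => h.1

theorem res_mono {d e : Dt} (h : d ⊆ e) {ℓ ℓ' : Lv} (h' : ℓ ≤ ℓ') : res d ℓ ⊆ res e ℓ' :=
  fun _ ha => ⟨h ha.1, ha.2.mono h'⟩

theorem R.mono {ℓ ℓ' : Lv} (h : ℓ ≤ ℓ') {p q : Dt} (H : R ℓ' p q) : R ℓ p q := by
  rw [R_iff] at H ⊢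
  exact ⟨H.sm.sub (res_mono subset_rfl h), H.func, (res_mono subset_rfl h).trans H.sub,
    fun η π hη => H.prom η π (hη.trans_le h), fun η x y hη => H.endx η x y (hη.trans_le h),
    fun η x π hη => H.new η x π (hη.trans_le h)⟩

/-- Agreement below a level. -/
def Agree (ℓ : Lv) (p q : Dt) : Prop := ∀ a : Atom, a.below ℓ → (a ∈ p ↔ a ∈ q)

theorem Agree.refl (ℓ : Lv) (p : Dt) : Agree ℓ p p := fun _ _ => Iff.rfl

theorem Agree.symm {ℓ : Lv} {p q : Dt} (h : Agree ℓ p q) : Agree ℓ q p :=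
  fun a ha => (h a ha).symm

theorem Agree.mono {ℓ ℓ' : Lv} (h : ℓ ≤ ℓ') {p q : Dt} (H : Agree ℓ' p q) : Agree ℓ p q :=
  fun a ha => H a (ha.mono h)

theorem agree_res (ℓ : Lv) (p : Dt) : Agree ℓ p (res p ℓ) := fun _ ha => (and_iff_left ha).symm

theorem Agree.res_eq {ℓ : Lv} {p q : Dt} (h : Agree ℓ p q) : res p ℓ = res q ℓ :=
  Set.ext fun a => and_congr_left (h a)

theorem Agree.stem_eq {ℓ : Lv} {p q : Dt} (h : Agree ℓ p q) {η : Row} (hη : (η : Lv) < ℓ) :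
    stem p η = stem q η := Set.ext fun x => h (Atom.s η x) hη

theorem Agree.c {ℓ : Lv} {p q : Dt} (h : Agree ℓ p q) {α ξ b} :
    Atom.c α ξ b ∈ p ↔ Atom.c α ξ b ∈ q := h (Atom.c α ξ b) trivial

theorem Agree.s {ℓ : Lv} {p q : Dt} (h : Agree ℓ p q) {η : Row} (hη : (η : Lv) < ℓ) {x} :
    Atom.s η x ∈ p ↔ Atom.s η x ∈ q := h (Atom.s η x) hη

theorem Agree.p {ℓ : Lv} {p q : Dt} (h : Agree ℓ p q) {η : Row} (hη : (η : Lv) < ℓ) {π} :
    Atom.p η π ∈ p ↔ Atom.p η π ∈ q := h (Atom.p η π) hη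

theorem R.congr {ℓ : Lv} : ∀ {p p' q q' : Dt}, Agree ℓ p p' → Agree ℓ q q' → R ℓ p q → R ℓ p' q' := by
  induction ℓ using (wellFounded_lt (α := Lv)).induction with
  | _ ℓ ih =>
    intro p p' q q' h1 h2 H
    rw [R_iff] at H ⊢
    refine ⟨h1.res_eq ▸ H.sm, fun α ξ g1 g2 => H.func α ξ (h1.c.mpr g1)
      (h1.c.mpr g2), fun a ha => (h1 a ha.2).mp (H.sub ⟨(h2 a ha.2).mpr ha.1, ha.2⟩),
      fun η π hη g => H.prom η π hη ((h1.p hη).mpr g), fun η x y hη g1 g2 g3 =>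
        (h2.s hη).mp (H.endx η x y hη ((h1.s hη).mpr g1) ((h2.s hη).mpr g2) g3),
      fun η x π hη g1 g2 g3 v hv => ?_⟩
    rw [← h1.stem_eq hη]
    exact H.new η x π hη ((h1.s hη).mpr g1) (fun g => g2 ((h2.s hη).mp g)) ((h2.p hη).mpr g3) v
      (ih η hη (Agree.refl _ _) (h1.mono hη.le).symm hv)

theorem Forc.congr {η : Row} {p p' : Dt} {f : Fam} (h : Agree η p p') (H : Forc η p f) :
    Forc η p' f := fun v hv => H v (hv.congr (Agree.refl _ _) h.symm)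

theorem mark_congr {t t' : Set K} {x : K} (h : ∀ y, y < x → (y ∈ t ↔ y ∈ t')) :
    mark t x = mark t' x := by
  unfold mark
  congr 1
  ext m
  exact ⟨fun H y hy hyx => H y ((h y hyx).mpr hy) hyx, fun H y hy hyx => H y ((h y hyx).mp hy) hyx⟩

theorem R.trans {ℓ : Lv} : ∀ {p q r : Dt}, R ℓ p q → R ℓ q r → R ℓ p r := by
  induction ℓ using (wellFounded_lt (α := Lv)).induction with
  | _ ℓ ih =>
    intro p q r H1 H2
    have H1' := H1
    rw [R_iff] at H1 H2 ⊢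
    refine ⟨H1.sm, H1.func, fun a ha => H1.sub ⟨H2.sub ha, ha.2⟩, H1.prom,
      fun η x y hη g1 g2 g3 => H2.endx η x y hη
        (H1.endx η x y hη g1 (H2.sub ⟨g2, hη⟩) g3) g2 g3, fun η x π hη g1 g2 g3 => ?_⟩
    by_cases hx : Atom.s η x ∈ q
    · rw [mark_congr (t := stem p η) (t' := stem q η) (fun y hy =>
        ⟨fun g => H1.endx η y x hη g hx hy, fun g => H1.sub ⟨g, hη⟩⟩)]
      exact fun v hv => H2.new η x π hη hx g2 g3 v (ih η hη hv (H1'.mono hη.le))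
    · exact H1.new η x π hη g1 hx (H2.sub ⟨g3, hη⟩)

theorem R.left {ℓ : Lv} {p q : Dt} (H : R ℓ p q) : R ℓ p p := by
  rw [R_iff] at H ⊢
  exact ⟨H.sm, H.func, res_sub _ _, H.prom, fun _ _ _ _ g _ _ => g, fun _ _ _ _ g g' => (g' g).elim⟩

/-- The forcing order. -/
def Le (p q : Dt) : Prop := R ⊤ p q

/-- Conditions. -/
def Val (p : Dt) : Prop := Le p p

theorem Le.trans {p q r : Dt} (h1 : Le p q) (h2 : Le q r) : Le p r := R.trans h1 h2

theorem Le.R {p q : Dt} (h : Le p q) (ℓ : Lv) : R ℓ p q := R.mono le_top h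

theorem Le.left {p q : Dt} (h : Le p q) : Val p := R.left h

theorem Le.sub {p q : Dt} (h : Le p q) : q ⊆ p := by simpa using (R_iff.mp h).sub

theorem Le.endx {p q : Dt} (h : Le p q) {η x y} (h1 : Atom.s η x ∈ p) (h2 : Atom.s η y ∈ q)
    (h3 : x < y) : Atom.s η x ∈ q := (R_iff.mp h).endx η x y (WithTop.coe_lt_top _) h1 h2 h3

theorem Le.new {p q : Dt} (h : Le p q) {η x π} (h1 : Atom.s η x ∈ p) (h2 : Atom.s η x ∉ q)
    (h3 : Atom.p η π ∈ q) : Forc η p (π (mark (stem p η) x) x) :=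
  (R_iff.mp h).new η x π (WithTop.coe_lt_top _) h1 h2 h3

theorem Val.sm {p : Dt} (h : Val p) : Sm p := by simpa using (R_iff.mp h).sm

theorem Val.func {p : Dt} (h : Val p) : Func p := (R_iff.mp h).func

theorem Val.prom {p : Dt} (h : Val p) {η π} (h1 : Atom.p η π ∈ p) : Prom η π :=
  (R_iff.mp h).prom η π (WithTop.coe_lt_top _) h1

theorem Val.le {p : Dt} (h : Val p) : Le p p := h

theorem val_of {p : Dt} (h1 : Sm p) (h2 : Func p) (h3 : ∀ η π, Atom.p η π ∈ p → Prom η π) :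
    Val p :=
  R_iff.mpr ⟨by simpa using h1, h2, res_sub _ _, fun η π _ => h3 η π, fun _ _ _ _ g _ _ => g,
    fun _ _ _ _ g g' => (g' g).elim⟩

theorem Val.of_sub {p q : Dt} (h : Val p) (hq : q ⊆ p) : Val q :=
  val_of (h.sm.sub hq) (fun α ξ g1 g2 => h.func α ξ (hq g1) (hq g2)) (fun _ _ g => h.prom (hq g))

theorem Le.right {p q : Dt} (h : Le p q) : Val q := h.left.of_sub h.sub

theorem le_of {p q : Dt} (h : Val p) (h1 : q ⊆ p)
    (h2 : ∀ η x y, Atom.s η x ∈ p → Atom.s η y ∈ q → x < y → Atom.s η x ∈ q)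
    (h3 : ∀ η x π, Atom.s η x ∈ p → Atom.s η x ∉ q → Atom.p η π ∈ q →
      Forc η p (π (mark (stem p η) x) x)) : Le p q :=
  R_iff.mpr ⟨by simpa using h.sm, h.func, by simpa using h1, fun _ _ _ => h.prom,
    fun η x y _ => h2 η x y, fun η x π _ => h3 η x π⟩

theorem Forc.mono {η : Row} {p p' : Dt} {f : Fam} (H : Forc η p f) (h : Le p' p) : Forc η p' f :=
  fun v hv => H v (hv.trans (h.R η))

theorem val_empty : Val ∅ := val_of Sm.empty (fun _ _ h => h.elim) (fun _ _ h => h.elim)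

theorem Val.le_empty {p : Dt} (h : Val p) : Le p ∅ :=
  le_of h (empty_subset _) (fun _ _ _ _ g => g.elim) (fun _ _ _ _ _ g => g.elim)

theorem Le.res {p q : Dt} (h : Le p q) (ℓ : Lv) : Le p (res q ℓ) :=
  le_of h.left ((res_sub _ _).trans h.sub) (fun _ _ _ g1 g2 g3 => ⟨h.endx g1 g2.1 g3, g2.2⟩)
    (fun _ _ _ g1 g2 g3 => h.new g1 (fun g => g2 ⟨g, g3.2⟩) g3.1)

theorem Le.tail {p q : Dt} (h : Le p q) (ℓ : Lv) : Le p (tail q ℓ) :=
  le_of h.left ((tail_sub _ _).trans h.sub) (fun _ _ _ g1 g2 g3 => ⟨h.endx g1 g2.1 g3, g2.2⟩)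
    (fun _ _ _ g1 g2 g3 => h.new g1 (fun g => g2 ⟨g, g3.2⟩) g3.1)

theorem R_iff_le {ℓ : Lv} {p q : Dt} : R ℓ p q ↔ Le (res p ℓ) (res q ℓ) := by
  constructor
  · intro H
    have H' := R_iff.mp (H.congr (agree_res ℓ p) (agree_res ℓ q))
    exact R_iff.mpr ⟨by simpa using (R_iff.mp H).sm, H'.func,
      fun a ha => H'.sub ⟨ha.1, ha.1.2⟩, fun η π _ g => H'.prom η π g.2 g,
      fun η x y _ g => H'.endx η x y g.2 g, fun η x π _ g => H'.new η x π g.2 g⟩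
  · exact fun H => (H.R ℓ).congr (agree_res ℓ p).symm (agree_res ℓ q).symm

theorem Le.res_res {p q : Dt} (h : Le p q) (ℓ : Lv) : Le (MP_b10269_lc.res p ℓ) (MP_b10269_lc.res q ℓ) :=
  R_iff_le.mp (h.R ℓ)

/-- All atoms lie below the level. -/
def Below (ℓ : Lv) (d : Dt) : Prop := ∀ a ∈ d, a.below ℓ

theorem below_res (d : Dt) (ℓ : Lv) : Below ℓ (res d ℓ) := fun _ h => h.2

theorem below_top (d : Dt) : Below ⊤ d := fun a _ => a.below_top

theorem Below.res_eq {ℓ : Lv} {d : Dt} (h : Below ℓ d) : res d ℓ = d :=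
  Set.ext fun a => ⟨fun g => g.1, fun g => ⟨g, h a g⟩⟩

theorem Below.mono {ℓ ℓ' : Lv} {d : Dt} (h : Below ℓ d) (h' : ℓ ≤ ℓ') : Below ℓ' d :=
  fun a ha => (h a ha).mono h'

theorem Below.sub {ℓ : Lv} {d e : Dt} (h : Below ℓ d) (h' : e ⊆ d) : Below ℓ e :=
  fun a ha => h a (h' ha)

theorem Le.res_left {p q : Dt} (h : Le p q) {ℓ : Lv} (hq : Below ℓ q) :
    Le (MP_b10269_lc.res p ℓ) q := by
  have := h.res_res ℓ
  rwa [hq.res_eq] at this

theorem agree_splice (v p : Dt) (ℓ : Lv) : Agree ℓ (res v ℓ ∪ tail p ℓ) v :=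
  fun _ ha => ⟨fun h => h.elim (fun g => g.1) (fun g => (g.2 ha).elim), fun h => Or.inl ⟨h, ha⟩⟩

theorem R.splice {ℓ : Lv} {v p : Dt} (H : R ℓ v p) (hp : Val p) : Le (res v ℓ ∪ tail p ℓ) p := by
  have H' := R_iff.mp H
  have hv : Val (res v ℓ) := (R_iff_le.mp H).left
  refine le_of (val_of (hv.sm.union (hp.sm.sub (tail_sub _ _))) ?_ ?_) ?_ ?_ ?_
  · intro α ξ g1 g2
    exact H'.func α ξ ((agree_splice v p ℓ).c.mp g1) ((agree_splice v p ℓ).c.mp g2)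
  · rintro η π (g | g)
    exacts [hv.prom g, hp.prom g.1]
  · intro a ha
    by_cases h : a.below ℓ
    exacts [Or.inl ⟨H'.sub ⟨ha, h⟩, h⟩, Or.inr ⟨ha, h⟩]
  · rintro η x y (g | g) g2 g3
    exacts [H'.endx η x y g.2 g.1 g2 g3, g.1]
  · rintro η x π (g | g) g2 g3
    · rw [(agree_splice v p ℓ).stem_eq g.2]
      exact (H'.new η x π g.2 g.1 g2 g3).congr ((agree_splice v p ℓ).mono (le_of_lt g.2)).symm
    · exact (g2 g.1).elim

theorem R.lift {ℓ : Lv} {v p : Dt} (H : R ℓ v p) (hp : Val p) : ∃ w, Le w p ∧ Agree ℓ w v :=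
  ⟨_, H.splice hp, agree_splice v p ℓ⟩

/-- Splicing: `q` extends the part of `p` below `ℓ`. -/
theorem splice {ℓ : Lv} {q p : Dt} (hq : Below ℓ q) (H : Le q (res p ℓ)) (hp : Val p) :
    Le (q ∪ tail p ℓ) p ∧ Le (q ∪ tail p ℓ) q := by
  have h1 := ((H.R ℓ).congr (Agree.refl _ _) (agree_res ℓ p).symm).splice hp
  rw [hq.res_eq] at h1
  refine ⟨h1, ?_⟩
  have h2 := h1.left.le.res ℓ
  have h3 : res (q ∪ tail p ℓ) ℓ = q := by
    have := (agree_splice q p ℓ).res_eq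
    rwa [hq.res_eq] at this
  rwa [h3] at h2

theorem forc_iff {η : Row} {p : Dt} {f : Fam} (hp : Val p) : Forc η p f ↔
    ∀ p', Le p' p → ∃ p'', Le p'' p' ∧ ∃ k, Le p'' (res (dec (f k)) η) := by
  constructor
  · intro H p' hp'
    obtain ⟨v, h1, k, h2⟩ := H p' (hp'.R η)
    obtain ⟨w, g1, g2⟩ := h1.lift hp'.left
    exact ⟨w, g1, k, (g1.left.le.res η).trans (R_iff_le.mp (h2.congr g2.symm (Agree.refl _ _)))⟩
  · intro H v hv
    obtain ⟨w, g1, g2⟩ := hv.lift hp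
    obtain ⟨p'', h1, k, h2⟩ := H w g1
    exact ⟨p'', (h1.R η).congr (Agree.refl _ _) g2, k,
      (h2.R η).congr (Agree.refl _ _) (agree_res _ _).symm⟩

theorem forc_of_dense {η : Row} {p : Dt} {f : Fam} (hp : Val p)
    (H : ∀ p', Le p' p → ∃ p'', Le p'' p' ∧ Forc η p'' f) : Forc η p f := by
  rw [forc_iff hp]
  intro p' hp'
  obtain ⟨p'', h1, h2⟩ := H p' hp'
  obtain ⟨v, h3, h4⟩ := (forc_iff h1.left).mp h2 p'' h1.left
  exact ⟨v, h3.trans h1, h4⟩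

theorem Forc.res {η : Row} {p : Dt} {f : Fam} (H : Forc η p f) {ℓ : Lv} (h : (η : Lv) ≤ ℓ) :
    Forc η (res p ℓ) f := H.congr ((agree_res ℓ p).mono h)

theorem R.val_res {ℓ : Lv} {p : Dt} (H : R ℓ p p) : Val (res p ℓ) := R_iff_le.mp H

theorem sip_iff {η : Row} : Sip η ↔ ∀ u : Set (Th (lev η)), Sm u → ∀ β p, Val p →
    ∃ p', Le p' p ∧ ∃ x, β ≤ x ∧ ∀ j ∈ u, Forc η p' (fam η j x) := by
  constructor
  · intro H u hu β p hp
    obtain ⟨v, h1, x, h2, h3⟩ := H u hu β p (hp.R η)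
    obtain ⟨w, g1, g2⟩ := h1.lift hp
    exact ⟨w, g1, x, h2, fun j hj => Forc.congr g2.symm (h3 j hj)⟩
  · intro H u hu β p hp
    obtain ⟨v, h1, x, h2, h3⟩ := H u hu β _ hp.val_res
    exact ⟨v, (h1.R η).congr (Agree.refl _ _) (agree_res _ _).symm, x, h2, h3⟩

theorem dec_iff {η : Row} {p : Dt} {u β a} (hp : Val p) : Dec η p u β a ↔
    Sm u ∧ (u.Nonempty → Sip η) ∧
      ∀ x, β ≤ x → ∀ p', Le p' p → (∀ j ∈ u, Forc η p' (fam η j x)) → Forc η p' (a x) := by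
  refine and_congr_right fun _ => and_congr_right fun _ =>
    ⟨fun H x hx p' hp' h => H x hx p' (hp'.R η) h, fun H x hx v hv h => ?_⟩
  obtain ⟨w, g1, g2⟩ := hv.lift hp
  exact Forc.congr g2 (H x hx w g1 (fun j hj => Forc.congr g2.symm (h j hj)))

theorem Dec.congr {η : Row} {p p' : Dt} {u β a} (h : Agree η p p') (H : Dec η p u β a) :
    Dec η p' u β a :=
  ⟨H.1, H.2.1, fun x hx v hv => H.2.2 x hx v (hv.congr (Agree.refl _ _) h.symm)⟩

theorem Dec.mono {η : Row} {p p' : Dt} {u β a} (H : Dec η p u β a) (h : Le p' p) :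
    Dec η p' u β a :=
  ⟨H.1, H.2.1, fun x hx v hv => H.2.2 x hx v (hv.trans (h.R η))⟩

theorem prom_iff {η : Row} {π : Nm} : Prom η π ↔
    ∀ m p, Val p → ∃ p', Le p' p ∧ ∃ u β, Dec η p' u β (π m) := by
  constructor
  · intro H m p hp
    obtain ⟨v, h1, u, β, h2⟩ := H m p (hp.R η)
    obtain ⟨w, g1, g2⟩ := h1.lift hp
    exact ⟨w, g1, u, β, Dec.congr g2.symm h2⟩
  · intro H m p hp
    obtain ⟨v, h1, h2⟩ := H m _ hp.val_res
    exact ⟨v, (h1.R η).congr (Agree.refl _ _) (agree_res _ _).symm, h2⟩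

end Pool.Agent.P.MP_b10269_lc
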