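import Mathlib
import Pool.Agent.P.MP_b10269_lc.Poset

/-! Unions, closure, chain condition and names for the forcing order. -/

namespace Pool.Agent.P.MP_b10269_lc

open Cardinal Set

theorem le_sUnion {v : Dt} {S : Set Dt} (hv : Val v) (H : ∀ p ∈ S, Le v p) : Le v (⋃₀ S) := by
  refine le_of hv (sUnion_subset fun p hp => (H p hp).sub) ?_ ?_
  · rintro η x y g1 ⟨p, hp, g2⟩ g3
    exact ⟨p, hp, (H p hp).endx g1 g2 g3⟩
  · rintro η x π g1 g2 ⟨p, hp, g3⟩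
    exact (H p hp).new g1 (fun g => g2 ⟨p, hp, g⟩) g3

theorem le_union {v p q : Dt} (h1 : Le v p) (h2 : Le v q) : Le v (p ∪ q) := by
  rw [← sUnion_pair]
  refine le_sUnion h1.left ?_
  rintro r (rfl | rfl)
  exacts [h1, h2]

theorem sUnion_le {S : Set Dt} (hd : ∀ p ∈ S, ∀ q ∈ S, ∃ r ∈ S, Le r p ∧ Le r q)
    (hs : Sm (⋃₀ S)) {p : Dt} (hp : p ∈ S) : Le (⋃₀ S) p := by
  have key : ∀ ℓ : Lv, ∀ p ∈ S, R ℓ (⋃₀ S) p := by
    intro ℓ
    induction ℓ using (wellFounded_lt (α := Lv)).induction with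
    | _ ℓ ih =>
      intro p hp
      refine R_iff.mpr ⟨hs.sub (res_sub _ _), ?_, fun a ha => ⟨p, hp, ha.1⟩, ?_, ?_, ?_⟩
      · rintro α ξ ⟨q, hq, g1⟩ ⟨q', hq', g2⟩
        obtain ⟨r, -, h1, h2⟩ := hd q hq q' hq'
        exact h1.left.func α ξ (h1.sub g1) (h2.sub g2)
      · rintro η π - ⟨q, hq, g⟩
        obtain ⟨r, -, h1, -⟩ := hd q hq q hq
        exact h1.right.prom g
      · rintro η x y - ⟨q, hq, g1⟩ g2 g3
        obtain ⟨r, -, h1, h2⟩ := hd q hq p hp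
        exact h2.endx (h1.sub g1) g2 g3
      · rintro η x π hη ⟨q, hq, g1⟩ g2 g3
        obtain ⟨r, hr, h1, h2⟩ := hd q hq p hp
        have h3 := h2.new (h1.sub g1) g2 g3
        rw [mark_congr (t := stem (⋃₀ S) η) (t' := stem r η) (fun y hy => ⟨?_, fun g => ⟨r, hr, g⟩⟩)]
        · exact fun v hv => h3 v (hv.trans (ih η hη r hr))
        · rintro ⟨q', hq', g⟩
          obtain ⟨r', -, k1, k2⟩ := hd q' hq' r hr
          exact k2.endx (k1.sub g) (h1.sub g1) hy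
  exact key ⊤ p hp

/-- The rows on which `d` has atoms. -/
def rows (d : Dt) : Set Row := {η | (∃ x, Atom.s η x ∈ d) ∨ ∃ π, Atom.p η π ∈ d}

theorem rows_mono {d e : Dt} (h : d ⊆ e) : rows d ⊆ rows e := by
  rintro η (⟨x, hx⟩ | ⟨x, hx⟩)
  exacts [Or.inl ⟨x, h hx⟩, Or.inr ⟨x, h hx⟩]

noncomputable def Atom.row : Atom → Row
  | .c _ _ _ => Classical.arbitrary Row
  | .s η _ => η
  | .p η _ => η

theorem rows_sub_image (d : Dt) : rows d ⊆ Atom.row '' d := by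
  rintro η (⟨x, hx⟩ | ⟨x, hx⟩)
  exacts [⟨_, hx, rfl⟩, ⟨_, hx, rfl⟩]

theorem Sm.rows {d : Dt} (h : Sm d) : Sm (rows d) := (h.image _).sub (rows_sub_image d)

theorem Sm.stem {d : Dt} (h : Sm d) (η : Row) : Sm (stem d η) :=
  h.of_inj (Atom.s η) (fun _ _ _ _ h => by cases h; rfl) (fun _ h => h)

theorem Sm.prom {d : Dt} (h : Sm d) (η : Row) : Sm {π | Atom.p η π ∈ d} :=
  h.of_inj (Atom.p η) (fun _ _ _ _ h => by cases h; rfl) (fun _ h => h)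

theorem Below.lt {ℓ : Lv} {d : Dt} (h : Below ℓ d) {η : Row} (hη : η ∈ rows d) : (η : Lv) < ℓ := by
  rcases hη with ⟨x, hx⟩ | ⟨x, hx⟩
  exacts [h _ hx, h _ hx]

theorem mem_rows_res {d : Dt} {ℓ : Lv} {η : Row} : η ∈ rows (res d ℓ) ↔ η ∈ rows d ∧ (η : Lv) < ℓ := by
  refine ⟨fun h => ⟨rows_mono (res_sub _ _) h, (below_res d ℓ).lt h⟩, ?_⟩
  rintro ⟨⟨x, hx⟩ | ⟨x, hx⟩, h⟩
  exacts [Or.inl ⟨x, hx, h⟩, Or.inr ⟨x, hx, h⟩]

theorem mem_rows_tail {d : Dt} {ℓ : Lv} {η : Row} :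
    η ∈ rows (tail d ℓ) ↔ η ∈ rows d ∧ ℓ ≤ (η : Lv) := by
  constructor
  · rintro (⟨x, hx⟩ | ⟨x, hx⟩)
    exacts [⟨Or.inl ⟨x, hx.1⟩, not_lt.mp hx.2⟩, ⟨Or.inr ⟨x, hx.1⟩, not_lt.mp hx.2⟩]
  · rintro ⟨⟨x, hx⟩ | ⟨x, hx⟩, h⟩
    exacts [Or.inl ⟨x, hx, not_lt.mpr h⟩, Or.inr ⟨x, hx, not_lt.mpr h⟩]

theorem mem_rows_union {d e : Dt} {η : Row} : η ∈ rows (d ∪ e) ↔ η ∈ rows d ∨ η ∈ rows e := by
  refine ⟨?_, fun h => h.elim (fun g => rows_mono subset_union_left g)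
    (fun g => rows_mono subset_union_right g)⟩
  rintro (⟨x, hx | hx⟩ | ⟨x, hx | hx⟩)
  exacts [Or.inl (Or.inl ⟨x, hx⟩), Or.inr (Or.inl ⟨x, hx⟩), Or.inl (Or.inr ⟨x, hx⟩),
    Or.inr (Or.inr ⟨x, hx⟩)]

theorem mem_rows_sUnion {S : Set Dt} {η : Row} : η ∈ rows (⋃₀ S) ↔ ∃ d ∈ S, η ∈ rows d := by
  refine ⟨?_, fun ⟨d, hd, h⟩ => rows_mono (subset_sUnion_of_mem hd) h⟩
  rintro (⟨x, d, hd, hx⟩ | ⟨x, d, hd, hx⟩)
  exacts [⟨d, hd, Or.inl ⟨x, hx⟩⟩, ⟨d, hd, Or.inr ⟨x, hx⟩⟩]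

theorem below_of_rows {ℓ : Lv} {d : Dt} (h : ∀ η ∈ rows d, (η : Lv) < ℓ) : Below ℓ d := by
  rintro (_ | ⟨η, x⟩ | ⟨η, x⟩) ha
  exacts [trivial, h η (Or.inl ⟨x, ha⟩), h η (Or.inr ⟨x, ha⟩)]

theorem amalg {p q : Dt} (hp : Val p) (hq : Val q) (hf : Func (p ∪ q))
    (h : ∀ η ∈ rows p, η ∈ rows q → stem p η = stem q η) : Le (p ∪ q) p := by
  have key : ∀ η x, η ∈ rows p → Atom.s η x ∈ p ∪ q → Atom.s η x ∈ p := by
    rintro η x h1 (g | g)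
    · exact g
    · exact (Set.ext_iff.mp (h η h1 (Or.inl ⟨x, g⟩)) x).mpr g
  refine le_of (val_of (hp.sm.union hq.sm) hf ?_) subset_union_left
    (fun η x y g1 g2 _ => key η x (Or.inl ⟨y, g2⟩) g1)
    (fun η x π g1 g2 g3 => (g2 (key η x (Or.inr ⟨π, g3⟩) g1)).elim)
  rintro η π (g | g)
  exacts [hp.prom g, hq.prom g]

/-- Compatibility. -/
def Cp (p q : Dt) : Prop := ∃ v, Le v p ∧ Le v q

theorem Cp.symm {p q : Dt} (h : Cp p q) : Cp q p := let ⟨v, h1, h2⟩ := h; ⟨v, h2, h1⟩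

theorem Cp.mono {p q p' q' : Dt} (h : Cp p q) (h1 : Le p p') (h2 : Le q q') : Cp p' q' :=
  let ⟨v, g1, g2⟩ := h; ⟨v, g1.trans h1, g2.trans h2⟩

theorem cp_of_amalg {p q : Dt} (hp : Val p) (hq : Val q) (hf : Func (p ∪ q))
    (h : ∀ η ∈ rows p, η ∈ rows q → stem p η = stem q η) : Cp p q :=
  ⟨p ∪ q, amalg hp hq hf h, union_comm q p ▸ amalg hq hp (union_comm p q ▸ hf)
    (fun η h1 h2 => (h η h2 h1).symm)⟩

/-- Two conditions compatible below `ℓ` with no common row from `ℓ` on are compatible. -/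
theorem cp_of_res {p q : Dt} {ℓ : Lv} (hp : Val p) (hq : Val q) (h : Cp (res p ℓ) (res q ℓ))
    (hd : ∀ η ∈ rows p, η ∈ rows q → (η : Lv) < ℓ) : Cp p q := by
  obtain ⟨v, h1, h2⟩ := h
  have g1 := splice (below_res v ℓ) (h1.res_left (below_res _ _)) hp
  have g2 := splice (below_res v ℓ) (h2.res_left (below_res _ _)) hq
  refine (cp_of_amalg g1.1.left g2.1.left ?_ ?_).mono g1.1 g2.1
  · have key : ∀ α ξ b, Atom.c α ξ b ∈ res v ℓ ∪ tail p ℓ ∪ (res v ℓ ∪ tail q ℓ) →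
        Atom.c α ξ b ∈ v := by
      rintro α ξ b (g | g)
      exacts [(agree_splice v p ℓ).c.mp g, (agree_splice v q ℓ).c.mp g]
    exact fun α ξ k1 k2 => h1.left.func α ξ (key _ _ _ k1) (key _ _ _ k2)
  · intro η k1 k2
    by_cases hη : (η : Lv) < ℓ
    · rw [(agree_splice v p ℓ).stem_eq hη, (agree_splice v q ℓ).stem_eq hη]
    · rw [mem_rows_union, mem_rows_res, mem_rows_tail] at k1 k2
      exact (hη (hd η (k1.elim (fun g => (hη g.2).elim) (fun g => g.1))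
        (k2.elim (fun g => (hη g.2).elim) (fun g => g.1)))).elim

theorem Cp.of_res_left {p q : Dt} {ℓ : Lv} (hp : Val p) (hq : Below ℓ q) (h : Cp (res p ℓ) q) :
    Cp p q := by
  obtain ⟨v, h1, h2⟩ := h
  exact cp_of_res (ℓ := ℓ) hp h2.right ⟨v, h1, h2.res ℓ⟩ (fun η _ h => hq.lt h)

theorem ext_row {p : Dt} (hp : Val p) {η : Row} {T : Set K} (hT : Sm T)
    (h1 : ∀ x ∈ T, ∀ y, Atom.s η y ∈ p → x < y → Atom.s η x ∈ p)
    (h2 : ∀ x ∈ T, Atom.s η x ∉ p → ∀ π, Atom.p η π ∈ p →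
      Forc η p (π (mark (stem p η ∪ T) x) x)) : Le (p ∪ Atom.s η '' T) p := by
  have ha : Agree η p (p ∪ Atom.s η '' T) := by
    refine fun a ha => ⟨Or.inl, ?_⟩
    rintro (g | ⟨x, -, rfl⟩)
    exacts [g, (lt_irrefl _ ha).elim]
  refine le_of (val_of (hp.sm.union (hT.image _)) ?_ ?_) subset_union_left ?_ ?_
  · exact fun α ξ g1 g2 => hp.func α ξ (ha.c.mpr g1) (ha.c.mpr g2)
  · rintro η' π (g | ⟨x, -, g⟩)
    exacts [hp.prom g, by cases g]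
  · rintro η' x y (g | ⟨x', hx, g⟩) g2 g3
    · exact g
    · cases g; exact h1 x hx y g2 g3
  · rintro η' x π (g | ⟨x', hx, g⟩) g2 g3
    · exact (g2 g).elim
    · cases g
      have : stem (p ∪ Atom.s η '' T) η = stem p η ∪ T := by
        ext y
        refine or_congr_right ⟨?_, fun g => ⟨y, g, rfl⟩⟩
        rintro ⟨y', hy, g⟩
        cases g; exact hy
      rw [this]
      exact (h2 x hx g2 π g3).congr ha

theorem add_prom {p : Dt} (hp : Val p) {η : Row} {π : Nm} (h : Prom η π) :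
    Le (p ∪ {Atom.p η π}) p := by
  have hv : Val {Atom.p η π} := val_of (Sm.single _) (fun _ _ g => by cases g)
    (fun _ _ g => by cases g; exact h)
  refine le_of (val_of (hp.sm.union hv.sm) ?_ ?_) subset_union_left ?_ ?_
  · rintro α ξ (g1 | g1) (g2 | g2)
    exacts [hp.func α ξ g1 g2, (by cases g2), (by cases g1), (by cases g1)]
  · rintro η' π' (g | g)
    exacts [hp.prom g, hv.prom g]
  · rintro η' x y (g | g) - -
    exacts [g, by cases g]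
  · rintro η' x π' (g | g) g2 -
    exacts [(g2 g).elim, by cases g]

theorem chain_lb {I : Type 1} [LinearOrder I] {f : I → Dt} {J : Set I} (hJ : Sm J) {p0 : Dt}
    (hp : Val p0) (h0 : ∀ i ∈ J, Le (f i) p0) (h : ∀ i ∈ J, ∀ j ∈ J, j < i → Le (f i) (f j)) :
    ∃ q, Le q p0 ∧ ∀ i ∈ J, Le q (f i) := by
  have hd : ∀ p ∈ insert p0 (f '' J), ∀ q ∈ insert p0 (f '' J),
      ∃ r ∈ insert p0 (f '' J), Le r p ∧ Le r q := by
    rintro p (rfl | ⟨i, hi, rfl⟩) q (rfl | ⟨j, hj, rfl⟩)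
    · exact ⟨_, Or.inl rfl, hp, hp⟩
    · exact ⟨_, Or.inr ⟨j, hj, rfl⟩, h0 j hj, (h0 j hj).left⟩
    · exact ⟨_, Or.inr ⟨i, hi, rfl⟩, (h0 i hi).left, h0 i hi⟩
    · rcases lt_trichotomy i j with hij | rfl | hij
      · exact ⟨_, Or.inr ⟨j, hj, rfl⟩, h j hj i hi hij, (h0 j hj).left⟩
      · exact ⟨_, Or.inr ⟨i, hi, rfl⟩, (h0 i hi).left, (h0 i hi).left⟩
      · exact ⟨_, Or.inr ⟨i, hi, rfl⟩, (h0 i hi).left, h i hi j hj hij⟩
  have hs : Sm (⋃₀ insert p0 (f '' J)) := by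
    refine Sm.sUnion ((Sm.single p0).union (hJ.image f)) ?_
    rintro p (rfl | ⟨i, hi, rfl⟩)
    exacts [hp.sm, (h0 i hi).left.sm]
  exact ⟨_, sUnion_le hd hs (Or.inl rfl), fun i hi => sUnion_le hd hs (Or.inr ⟨i, hi, rfl⟩)⟩

theorem exists_chain {I : Type 1} [LinearOrder I] [WellFoundedLT I] (hI : ∀ i : I, Sm (Iio i))
    (D : I → Dt → Prop) {p0 : Dt} (hp : Val p0) (hd : ∀ i p, Le p p0 → ∃ q, Le q p ∧ D i q) :
    ∃ g : I → Dt, (∀ i, Le (g i) p0 ∧ D i (g i)) ∧ ∀ i j, j < i → Le (g i) (g j) := by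
  refine exists_rec' (fun i q => Le q p0 ∧ D i q) (fun _ q' _ q => Le q q') ?_
  intro i f h1 h2
  obtain ⟨q, g1, g2⟩ := chain_lb (hI i) hp (fun j hj => (h1 j hj).1) (fun j hj k _ => h2 j hj k)
  obtain ⟨q', g3, g4⟩ := hd i q g1
  exact ⟨q', ⟨g3.trans g1, g4⟩, fun j hj => g3.trans (g2 j hj)⟩

theorem exists_inter {ι : Type 1} {s : Set ι} (hs : Sm s) (D : ι → Dt → Prop)
    (hm : ∀ i p q, Le q p → D i p → D i q) {p0 : Dt} (hp : Val p0)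
    (hd : ∀ i ∈ s, ∀ p, Le p p0 → ∃ q, Le q p ∧ D i q) : ∃ q, Le q p0 ∧ ∀ i ∈ s, D i q := by
  obtain ⟨_, _⟩ := exists_wellFoundedLT s
  have hu : Sm (univ : Set s) := @small_univ _ hs
  obtain ⟨g, h1, h2⟩ := exists_chain (I := s) (fun i => hu.sub (subset_univ _))
    (fun i => D i) hp (fun i => hd i i.2)
  obtain ⟨q, g1, g2⟩ := chain_lb hu hp (fun i _ => (h1 i).1) (fun i _ j _ => h2 i j)
  exact ⟨q, g1, fun i hi => hm i _ _ (g2 ⟨i, hi⟩ trivial) (h1 ⟨i, hi⟩).2⟩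

/-- Deciding a small family of open families. -/
def DecO (η : Row) (p : Dt) (u : Set (Th (lev η))) (β : K) (O : K → Dt → Prop) : Prop :=
  Sm u ∧ (u.Nonempty → Sip η) ∧ ∀ x, β ≤ x → ∀ p', Le p' p → (∀ j ∈ u, Forc η p' (fam η j x)) →
    ∃ p'', Le p'' p' ∧ O x p''

theorem DecO.mono {η : Row} {p p' : Dt} {u β O} (H : DecO η p u β O) (h : Le p' p) :
    DecO η p' u β O := ⟨H.1, H.2.1, fun x hx v hv => H.2.2 x hx v (hv.trans h)⟩

theorem DecO.imp {η : Row} {p : Dt} {u β O O'} (H : DecO η p u β O)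
    (h : ∀ x q, β ≤ x → Le q p → O x q → O' x q) : DecO η p u β O' :=
  ⟨H.1, H.2.1, fun x hx v hv g => let ⟨q, g1, g2⟩ := H.2.2 x hx v hv g
    ⟨q, g1, h x q hx (g1.trans hv) g2⟩⟩

theorem DecO.up {η : Row} {p : Dt} {u β β' O} (H : DecO η p u β O) (h : β ≤ β') :
    DecO η p u β' O := ⟨H.1, H.2.1, fun x hx => H.2.2 x (h.trans hx)⟩

theorem decO_inter {η : Row} {ι : Type 1} {s : Set ι} (hs : Sm s) (O : ι → K → Dt → Prop)
    (hm : ∀ i x p q, Le q p → O i x p → O i x q) {p0 : Dt} (hp : Val p0)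
    (hd : ∀ i ∈ s, ∀ p, Le p p0 → ∃ q, Le q p ∧ ∃ u β, DecO η q u β (O i)) :
    ∃ q, Le q p0 ∧ ∃ u β, DecO η q u β (fun x p => ∀ i ∈ s, O i x p) := by
  obtain ⟨q, h1, h2⟩ := exists_inter hs (fun i q => ∃ u β, DecO η q u β (O i))
    (fun i p q h ⟨u, β, g⟩ => ⟨u, β, g.mono h⟩) hp hd
  choose! u hu using h2
  obtain ⟨β, hβ⟩ := hs.bound (fun i β => DecO η q (u i) β (O i)) hu (fun i β β' h g => g.up h)
  refine ⟨q, h1, ⋃ i ∈ s, u i, β, hs.biUnion (fun i hi => (hβ i hi).1), ?_, fun x hx p hp h => ?_⟩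
  · rintro ⟨j, hj⟩
    obtain ⟨i, hi, hj⟩ := mem_iUnion₂.mp hj
    exact (hβ i hi).2.1 ⟨j, hj⟩
  · refine exists_inter hs (fun i => O i x) (fun i => hm i x) hp.left (fun i hi v hv => ?_)
    exact (hβ i hi).2.2 x hx v (hv.trans hp) (fun j hj => (h j (mem_biUnion hi hj)).mono hv)

theorem Dec.decO {η : Row} {p : Dt} {u β a} (hp : Val p) (H : Dec η p u β a) :
    DecO η p u β (fun x q => Forc η q (a x)) := by
  rw [dec_iff hp] at H
  exact ⟨H.1, H.2.1, fun x hx v hv g => ⟨v, hv.left, H.2.2 x hx v hv g⟩⟩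

theorem DecO.exists {η : Row} {p : Dt} {u β O} (hp : Val p) (H : DecO η p u β O) (γ : K) :
    ∃ q, Le q p ∧ ∃ x, γ ≤ x ∧ O x q := by
  have : ∃ p', Le p' p ∧ ∃ x, max β γ ≤ x ∧ ∀ j ∈ u, Forc η p' (fam η j x) := by
    rcases u.eq_empty_or_nonempty with rfl | hu
    · exact ⟨p, hp, _, le_rfl, fun _ h => h.elim⟩
    · exact sip_iff.mp (H.2.1 hu) u H.1 _ p hp
  obtain ⟨p', h1, x, h2, h3⟩ := this
  obtain ⟨q, h4, h5⟩ := H.2.2 x ((le_max_left _ _).trans h2) p' h1 h3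
  exact ⟨q, h4.trans h1, x, (le_max_right _ _).trans h2, h5⟩

theorem dec_proms {η : Row} {d : Dt} (hd : Val d) (m : K) {p : Dt} (hp : Val p) :
    ∃ q, Le q p ∧ ∃ u β, DecO η q u β (fun x v => ∀ π, Atom.p η π ∈ d → Forc η v (π m x)) :=
  decO_inter (hd.sm.prom η) (fun π x v => Forc η v (π m x)) (fun _ _ _ _ h g => g.mono h) hp
    (fun π hπ v hv => by
      obtain ⟨q, h1, u, β, h2⟩ := prom_iff.mp (hd.prom hπ) m v hv.left
      exact ⟨q, h1, u, β, h2.decO h1.left⟩)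

theorem add_point {p : Dt} (hp : Val p) (η : Row) (β : K) :
    ∃ q, Le q p ∧ ∃ x, β ≤ x ∧ Atom.s η x ∈ q := by
  obtain ⟨γ, hγ⟩ := (hp.sm.stem η).bdd
  obtain ⟨q, h1, u, β', h2⟩ := dec_proms (η := η) hp (mark (stem p η) γ) hp
  obtain ⟨v, h3, x, h4, h5⟩ := h2.exists h1.left (max β γ)
  have hx : γ ≤ x := (le_max_right _ _).trans h4
  have h6 := ((h3.trans h1).R η).splice hp
  have h7 : stem (res v η ∪ tail p η) η = stem p η := by
    ext y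
    exact ⟨fun g => g.elim (fun g => (lt_irrefl _ g.2).elim) (fun g => g.1),
      fun g => Or.inr ⟨g, lt_irrefl _⟩⟩
  refine ⟨_, (ext_row h6.left (η := η) (Sm.single x) ?_ ?_).trans h6, x,
    (le_max_left _ _).trans h4, Or.inr ⟨x, rfl, rfl⟩⟩
  · rintro x' hx' y g1 g2
    obtain rfl : x = x' := hx'.symm
    have : y ∈ stem p η := h7 ▸ g1
    exact absurd (((hγ y this).trans_le hx).trans g2) (lt_irrefl _)
  · rintro x' hx' - π g
    obtain rfl : x = x' := hx'.symm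
    have g' : Atom.p η π ∈ p := g.elim (fun g => (lt_irrefl _ g.2).elim) (fun g => g.1)
    have : mark (stem (res v η ∪ tail p η) η ∪ {x}) x = mark (stem p η) γ := by
      rw [h7]
      unfold mark
      congr 1
      ext m
      refine ⟨fun H y hy _ => H y (Or.inl hy) ((hγ y hy).trans_le hx), ?_⟩
      rintro H y (hy | hy) hyx
      exacts [H y hy (hγ y hy), (hyx.ne hy).elim]
    rw [this]
    exact (h5 π g').congr (agree_splice v p η).symm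

theorem add_points {p : Dt} (hp : Val p) {s : Set Row} (hs : Sm s) (β : K) :
    ∃ q, Le q p ∧ ∀ η ∈ s, ∃ x, β ≤ x ∧ Atom.s η x ∈ q :=
  exists_inter hs (fun η q => ∃ x, β ≤ x ∧ Atom.s η x ∈ q)
    (fun _ _ _ h ⟨x, g1, g2⟩ => ⟨x, g1, h.sub g2⟩) hp (fun η _ _ h => add_point h.left η β)

/-- A fixed non-condition. -/
noncomputable def bad : Dt :=
  {Atom.c ⟨0, (∅ : Set K)⟩ 0 true, Atom.c ⟨0, (∅ : Set K)⟩ 0 false}

theorem sm_bad : Sm bad := small_pair _ _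

theorem not_le_bad {p : Dt} : ¬ Le p bad := fun h =>
  h.right.func _ _ (Or.inl rfl) (Or.inr rfl)

theorem below_bad (ℓ : Lv) : Below ℓ bad := by
  rintro a (rfl | rfl) <;> trivial

/-- The `κ⁺`-chain condition: every set of conditions has a predense subfamily of size `κ`. -/
theorem exists_predense (O : Dt → Prop) (hO : ∀ p, O p → Val p) :
    ∃ f : K → Dt, (∀ k, O (f k) ∨ f k = bad) ∧ ∀ p, O p → ∃ k, O (f k) ∧ Cp p (f k) := by
  classical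
  let Q : Dt × Set Row → Dt → Prop := fun z p => O p ∧ z.1 ⊆ p ∧ ∀ η ∈ z.2, stem p η = stem z.1 η
  have hw : ∀ z, ∃ w, (O w ∨ w = bad) ∧ ((∃ p, Q z p) → Q z w) := by
    intro z
    by_cases h : ∃ p, Q z p
    · obtain ⟨p, hp⟩ := h
      exact ⟨p, Or.inl hp.1, fun _ => hp⟩
    · exact ⟨bad, Or.inr rfl, fun g => (h g).elim⟩
  choose w hw1 hw2 using hw
  have hws : ∀ z, Sm (w z) := fun z => (hw1 z).elim (fun h => (hO _ h).sm) (fun h => h ▸ sm_bad)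
  let fl : Atom → Atom := fun a => match a with
    | .c α ξ b => .c α ξ (!b)
    | a => a
  let Z : Dt → Set (Dt × Set Row) := fun S => {t | t ⊆ S} ×ˢ {a | a ⊆ rows S}
  have hZ : ∀ S, Sm S → Sm (Z S) := fun S hS => hS.pow.prod hS.rows.pow
  obtain ⟨V, h1, -, h2, h3⟩ := exists_filtration (∅ : Dt) Sm.empty
    (fun S β => (⋃ z ∈ Z S, w z) ∪ (fl '' S ∪ (fun z : Row × K => Atom.s z.1 z.2) '' (rows S ×ˢ Iic β)))
    (fun S β hS => ((hZ S hS).biUnion (fun z _ => hws z)).union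
      ((hS.image _).union ((hS.rows.prod (Sm.iic β)).image _)))
  obtain ⟨f, hf1, hf2⟩ := exists_enum bad (s := ⋃ β, w '' Z (V β))
    (card_iUnion_le aleph0_le_K le_rfl (fun β => (Sm.card_lt.mp ((hZ _ (h1 β)).image w)).le))
  refine ⟨f, fun k => ?_, fun p hp => ?_⟩
  · rcases hf1 k with h | h
    · obtain ⟨β, z, -, h⟩ := mem_iUnion.mp h
      exact h ▸ hw1 z
    · exact Or.inr h
  have hv := hO p hp
  obtain ⟨β1, hβ1⟩ := (hv.sm.sub (inter_subset_left (t := ⋃ β, V β))).bound (fun a β => a ∈ V β)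
    (fun a ha => mem_iUnion.mp ha.2) (fun a β β' h g => h2 _ _ h g)
  obtain ⟨β2, hβ2⟩ := (hv.sm.rows.sub (inter_subset_left (t := ⋃ β, rows (V β)))).bound
    (fun a β => a ∈ rows (V β))
    (fun a ha => mem_iUnion.mp ha.2) (fun a β β' h g => rows_mono (h2 _ _ h) g)
  let z : Dt × Set Row := (p ∩ ⋃ β, V β, rows p ∩ ⋃ β, rows (V β))
  have hz : z ∈ Z (V (max β1 β2)) :=
    ⟨fun a ha => h2 _ _ (le_max_left _ _) (hβ1 a ha),
      fun a ha => rows_mono (h2 _ _ (le_max_right _ _)) (hβ2 a ha)⟩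
  have hst : ∀ η ∈ z.2, stem p η = stem z.1 η := by
    rintro η ⟨-, hη⟩
    obtain ⟨β, hη⟩ := mem_iUnion.mp hη
    refine Set.ext fun x => ⟨fun g => ⟨g, mem_iUnion.mpr ⟨max β x + 1, ?_⟩⟩, fun g => g.1⟩
    exact h3 _ _ (Order.lt_add_one_iff.mpr le_rfl) (Or.inr (Or.inr ⟨(η, x),
      ⟨rows_mono (h2 _ _ (le_max_left β x)) hη, le_max_right β x⟩, rfl⟩))
  obtain ⟨g1, g2, g3⟩ := hw2 z ⟨p, hp, inter_subset_left, hst⟩
  obtain ⟨k, hk⟩ := hf2 (w z) (mem_iUnion.mpr ⟨_, z, hz, rfl⟩)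
  have hwV : w z ⊆ V (max β1 β2 + 1) := fun a ha =>
    h3 _ _ (Order.lt_add_one_iff.mpr le_rfl) (Or.inl (mem_biUnion hz ha))
  refine ⟨k, hk ▸ g1, hk ▸ cp_of_amalg hv (hO _ g1) ?_ ?_⟩
  · have key : ∀ α ξ b, Atom.c α ξ b ∈ p → Atom.c α ξ (!b) ∈ w z → Atom.c α ξ b ∈ w z := by
      intro α ξ b k1 k2
      refine g2 ⟨k1, mem_iUnion.mpr ⟨max β1 β2 + 1 + 1, ?_⟩⟩
      exact h3 _ _ (Order.lt_add_one_iff.mpr le_rfl) (Or.inr (Or.inl ⟨_, hwV k2, by simp [fl]⟩))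
    rintro α ξ (k1 | k1) (k2 | k2)
    exacts [hv.func α ξ k1 k2, (hO _ g1).func α ξ (key _ _ _ k1 k2) k2,
      (hO _ g1).func α ξ k1 (key _ _ _ k2 k1), (hO _ g1).func α ξ k1 k2]
  · intro η k1 k2
    have : η ∈ z.2 := ⟨k1, mem_iUnion.mpr ⟨_, rows_mono hwV k2⟩⟩
    rw [hst η this, g3 η this]

/-- Names for measurable open sets. -/
theorem exists_name (η : Row) (O : Dt → Prop) (hm : ∀ p q, Le q p → O p → O q)
    (hr : ∀ p, Val p → O p → O (res p η)) : ∃ f : Fam, ∀ p, Val p →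
      (Forc η p f ↔ ∀ p', Le p' p → ∃ p'', Le p'' p' ∧ O p'') := by
  obtain ⟨f, h1, h2⟩ := exists_predense (fun p => Val p ∧ Below η p ∧ O p) (fun _ h => h.1)
  have h3 : ∀ k, ∃ ρ, dec ρ = f k := fun k => dec_surj
    ((h1 k).elim (fun h => h.1.sm) (fun h => h ▸ sm_bad))
  choose g hg using h3
  refine ⟨g, fun p hp => ?_⟩
  rw [forc_iff hp]
  refine forall₂_congr fun p' _ => ⟨?_, ?_⟩
  · rintro ⟨v, g1, k, g2⟩
    rw [hg] at g2
    rcases h1 k with h | h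
    · exact ⟨v, g1, hm _ _ g2 (hr _ h.1 h.2.2)⟩
    · rw [h, (below_bad _).res_eq] at g2
      exact (not_le_bad g2).elim
  · rintro ⟨v, g1, g2⟩
    obtain ⟨k, k1, k2⟩ := h2 (res v η) ⟨(g1.left.le.res η).right, below_res _ _, hr _ g1.left g2⟩
    obtain ⟨w, k3, k4⟩ := k2.of_res_left g1.left k1.2.1
    exact ⟨w, k3.trans g1, k, hg k ▸ k4.res η⟩

end Pool.Agent.P.MP_b10269_lc
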