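import Mathlib
import Pool.Agent.P.MP_b10269_lc.Poset2

/-! Closed sets of atoms of size `λ_n`, reductions, and the copying lemma. -/

namespace Pool.Agent.P.MP_b10269_lc

open Cardinal Set

/-- The union of the small children of a name. -/
def chs (η : Row) (f : Fam) : Dt := ⋃ k, ⋃ (_ : Sm (res (dec (f k)) η)), res (dec (f k)) η

theorem card_chs (η : Row) (f : Fam) : #(chs η f) ≤ #K := by
  refine card_iUnion_le aleph0_le_K le_rfl (fun k => ?_)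
  by_cases h : Sm (res (dec (f k)) η)
  · simpa [h] using (Sm.card_lt.mp h).le
  · simp [h]

def Q4 (η : Row) (r : Dt) (β : K) (A : K → K → Dt) (p : Dt) (u : Set (Th (lev η))) : Prop :=
  Le p r ∧ Sm u ∧ (u.Nonempty → Sip η) ∧
    ∀ x, β ≤ x → ∀ k v, Le v p → Le v (A x k) → ¬ ∀ j ∈ u, Forc η v (fam η j x)

structure Sub (n : ℕ) (M : Dt) : Prop where
  bad : bad ⊆ M
  card : #M ≤ #(Th n)
  row : ∀ η ∈ rows M, ∀ x, Atom.s η x ∈ M
  fam : ∀ η ∈ rows M, lev η ≤ n → ∀ j x, chs η (fam η j x) ⊆ M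
  two : ∀ ra rb (A : K → Dt), ra ⊆ M → rb ⊆ M → (∀ k, Sm (A k) ∧ A k ⊆ M) →
    ∀ p, Le p ra → Le p rb → (∀ k, ¬ Cp p (A k)) →
      ∃ r, r ⊆ M ∧ Le r ra ∧ Le r rb ∧ ∀ k, ¬ Cp r (A k)
  copy : ∀ η ∈ rows M, ∀ r β (A : K → K → Dt), r ⊆ M → (∀ x k, Sm (A x k) ∧ A x k ⊆ M) →
    ∀ p u, Q4 η r β A p u →
      ∃ p u, p ⊆ M ∧ (∀ j ∈ u, ∀ x, chs η (MP_b10269_lc.fam η j x) ⊆ M) ∧ Q4 η r β A p u

theorem card_biUnion_le {X ι : Type 1} {c : Cardinal.{1}} (hc : ℵ₀ ≤ c) {s : Set ι} (hs : #s ≤ c)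
    {f : ι → Set X} (hf : ∀ i ∈ s, #(f i) ≤ c) : #(⋃ i ∈ s, f i) ≤ c := by
  rw [biUnion_eq_iUnion]
  exact card_iUnion_le hc hs (fun i => hf i i.2)

theorem card_guard {X : Type 1} {c : Cardinal.{1}} {P : Prop} {s : Set X} (h : P → #s ≤ c) :
    #(⋃ (_ : P), s) ≤ c := by
  by_cases hP : P
  · simpa [hP] using h hP
  · simp [hP]

theorem exists_sub (n : ℕ) (S0 : Dt) (h0 : #S0 ≤ #K) : ∃ M, S0 ⊆ M ∧ Sub n M := by
  have hc := aleph0_le_Th n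
  have hK := K_le_Th n
  have hs : ∀ {X : Type 1} {s : Set X}, Sm s → #s ≤ #(Th n) := fun h =>
    (Sm.card_lt.mp h).le.trans hK
  let I := Option (Option (K × K))
  have hI : #I ≤ #K := by
    simp only [I, mk_option, mk_prod, lift_id, mul_eq_self aleph0_le_K, add_one_eq aleph0_le_K]
    exact le_rfl
  have hw2 : ∀ q : I → Dt, ∃ r, Sm r ∧ ∀ p, Le p (q none) → Le p (q (some none)) →
      (∀ k, ¬ Cp p (q (some (some (0, k))))) →
      Le r (q none) ∧ Le r (q (some none)) ∧ ∀ k, ¬ Cp r (q (some (some (0, k)))) := by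
    intro q
    by_cases h : ∃ p, Le p (q none) ∧ Le p (q (some none)) ∧ ∀ k, ¬ Cp p (q (some (some (0, k))))
    · obtain ⟨p, hp⟩ := h
      exact ⟨p, hp.1.left.sm, fun _ _ _ _ => hp⟩
    · exact ⟨∅, Sm.empty, fun p h1 h2 h3 => (h ⟨p, h1, h2, h3⟩).elim⟩
  have hw4 : ∀ (q : I → Dt) η β, ∃ p u, Sm p ∧ Sm u ∧ ∀ p' u',
      Q4 η (q none) β (fun x k => q (some (some (x, k)))) p' u' →
      Q4 η (q none) β (fun x k => q (some (some (x, k)))) p u := by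
    intro q η β
    by_cases h : ∃ p u, Q4 η (q none) β (fun x k => q (some (some (x, k)))) p u
    · obtain ⟨p, u, hp⟩ := h
      exact ⟨p, u, hp.1.left.sm, hp.2.1, fun _ _ _ => hp⟩
    · exact ⟨∅, ∅, Sm.empty, Sm.empty, fun p u h1 => (h ⟨p, u, h1⟩).elim⟩
  choose w2 a2 b2 using hw2
  choose w4 u4 a4 b4 c4 using hw4
  obtain ⟨M, h1, h2, h3⟩ := exists_closure' hI n (S0 ∪ bad) ⟨_, Or.inr (Or.inl rfl)⟩
    (card_union_le hc (h0.trans hK) (hs sm_bad))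
    (fun q => w2 q ∪ ⋃ (_ : Sm (q (some none))), ⋃ η ∈ rows (q (some none)),
      (range (Atom.s η) ∪ (⋃ (_ : lev η ≤ n), ⋃ j, ⋃ x, chs η (fam η j x)) ∪
        ⋃ β, (w4 q η β ∪ ⋃ j ∈ u4 q η β, ⋃ x, chs η (fam η j x))))
    (fun q => card_union_le hc (hs (a2 q)) (card_guard fun h => card_biUnion_le hc (hs h.rows)
      fun η _ => card_union_le hc (card_union_le hc (mk_range_le.trans hK)
        (card_guard fun h => card_iUnion_le hc (Th_mono h) fun j => card_iUnion_le hc hK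
          fun x => (card_chs _ _).trans hK))
        (card_iUnion_le hc hK fun β => card_union_le hc (hs (a4 q η β))
          (card_biUnion_le hc (hs (b4 q η β)) fun j _ => card_iUnion_le hc hK
            fun x => (card_chs _ _).trans hK))))
  have hrow : ∀ η ∈ rows M, ∃ e, Sm e ∧ e ⊆ M ∧ η ∈ rows e := by
    rintro η (⟨x, hx⟩ | ⟨x, hx⟩)
    exacts [⟨{_}, Sm.single _, singleton_subset_iff.mpr hx, Or.inl ⟨x, rfl⟩⟩,
      ⟨{_}, Sm.single _, singleton_subset_iff.mpr hx, Or.inr ⟨x, rfl⟩⟩]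
  refine ⟨M, subset_union_left.trans h1, subset_union_right.trans h1, h2, ?_, ?_, ?_, ?_⟩
  · intro η hη x
    obtain ⟨e, g1, g2, g3⟩ := hrow η hη
    exact h3 (fun _ => e) (fun _ => g1) (fun _ => g2)
      (Or.inr (mem_iUnion.mpr ⟨g1, mem_biUnion g3 (Or.inl (Or.inl ⟨x, rfl⟩))⟩))
  · intro η hη hl j x a ha
    obtain ⟨e, g1, g2, g3⟩ := hrow η hη
    exact h3 (fun _ => e) (fun _ => g1) (fun _ => g2)
      (Or.inr (mem_iUnion.mpr ⟨g1, mem_biUnion g3 (Or.inl (Or.inr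
        (mem_iUnion.mpr ⟨hl, mem_iUnion.mpr ⟨j, mem_iUnion.mpr ⟨x, ha⟩⟩⟩)))⟩))
  · intro ra rb A g1 g2 g3 p k1 k2 k3
    let q : I → Dt := fun i => match i with
      | none => ra
      | some none => rb
      | some (some (_, k)) => A k
    refine ⟨w2 q, subset_union_left.trans (h3 q ?_ ?_), b2 q p k1 k2 k3⟩
    · rintro (_ | _ | ⟨_, k⟩)
      exacts [k1.right.sm, k2.right.sm, (g3 k).1]
    · rintro (_ | _ | ⟨_, k⟩)
      exacts [g1, g2, (g3 k).2]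
  · intro η hη r β A g1 g2 p u k1
    obtain ⟨e, e1, e2, e3⟩ := hrow η hη
    let q : I → Dt := fun i => match i with
      | none => r
      | some none => e
      | some (some (x, k)) => A x k
    have hq : w4 q η β ∪ ⋃ j ∈ u4 q η β, ⋃ x, chs η (fam η j x) ⊆ M := by
      refine subset_trans (fun a ha => ?_) (h3 q ?_ ?_)
      · exact Or.inr (mem_iUnion.mpr ⟨e1, mem_biUnion e3 (Or.inr (mem_iUnion.mpr ⟨β, ha⟩))⟩)
      · rintro (_ | _ | ⟨x, k⟩)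
        exacts [k1.1.right.sm, e1, (g2 x k).1]
      · rintro (_ | _ | ⟨x, k⟩)
        exacts [g1, e2, (g2 x k).2]
    exact ⟨w4 q η β, u4 q η β, subset_union_left.trans hq,
      fun j hj x a ha => hq (Or.inr (mem_biUnion hj (mem_iUnion.mpr ⟨x, ha⟩))), c4 q η β p u k1⟩

/-- `r` reduces `w` to the suborder of conditions inside `M`. -/
def Red (M r w : Dt) : Prop := ∀ r', Le r' r → r' ⊆ M → Cp r' w

theorem Red.left {M r r' w : Dt} (h : Red M r w) (h' : Le r' r) : Red M r' w :=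
  fun v hv => h v (hv.trans h')

theorem Red.right {M r w w' : Dt} (h : Red M r w) (h' : Le w w') : Red M r w' :=
  fun v hv hM => (h v hv hM).mono hv.left h'

theorem Red.res {M r w : Dt} {ℓ : Lv} (h : Red M r w) (hr : Val r) (hM : r ⊆ M) (hw : Below ℓ w) :
    Red M (res r ℓ) w := by
  intro v hv hvM
  have h1 := (((hv.R ℓ).congr (Agree.refl _ _) (agree_res ℓ r).symm)).splice hr
  obtain ⟨z, g1, g2⟩ := h _ h1 (union_subset ((res_sub _ _).trans hvM) ((tail_sub _ _).trans hM))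
  refine Cp.of_res_left hv.left hw ⟨z, ?_, g2⟩
  have := g1.res ℓ
  rwa [(agree_splice v r ℓ).res_eq] at this

theorem Red.extras {M r w : Dt} {ℓ : Lv} (h : Red M r (MP_b10269_lc.res w ℓ)) (hw : Val w)
    (hx : ∀ η ∈ rows w, η ∈ rows M → (η : Lv) < ℓ) : Red M r w := fun v hv hM =>
  cp_of_res (ℓ := ℓ) hv.left hw ((h v hv hM).mono (hv.left.le.res ℓ) (hw.le.res ℓ).right)
    (fun η g1 g2 => hx η g2 (rows_mono hM g1))

variable {n : ℕ} {M : Dt}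

theorem Sub.exists_red (hM : Sub n M) {w ra rb : Dt} (h1 : Le w ra) (h2 : Le w rb) (g1 : ra ⊆ M)
    (g2 : rb ⊆ M) : ∃ r, r ⊆ M ∧ Le r ra ∧ Le r rb ∧ Red M r w := by
  obtain ⟨f, k1, k2⟩ := exists_predense (fun r => Val r ∧ r ⊆ M ∧ ¬ Cp r w) (fun _ h => h.1)
  obtain ⟨r, m1, m2, m3, m4⟩ := hM.two ra rb f g1 g2
    (fun k => (k1 k).elim (fun h => ⟨h.1.sm, h.2.1⟩) (fun h => h ▸ ⟨sm_bad, hM.bad⟩)) w h1 h2
    (fun k => (k1 k).elim (fun h g => h.2.2 g.symm)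
      (fun h ⟨v, _, g⟩ => not_le_bad (h ▸ g)))
  refine ⟨r, m1, m2, m3, fun v hv hvM => ?_⟩
  by_contra hc
  obtain ⟨k, k3, k4⟩ := k2 v ⟨hv.left, hvM, hc⟩
  exact m4 k (k4.mono hv k3.1)

theorem Sub.exists_red1 (hM : Sub n M) {w ra : Dt} (h1 : Le w ra) (g1 : ra ⊆ M) :
    ∃ r, r ⊆ M ∧ Le r ra ∧ Red M r w :=
  let ⟨r, a, b, _, c⟩ := hM.exists_red h1 h1 g1 g1; ⟨r, a, b, c⟩

theorem Sub.red_forc (hM : Sub n M) {r p : Dt} {η : Row} {f : Fam} (hr : Val r) (hrM : r ⊆ M)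
    (h : Red M r p) (hp : Val p) (hf : Forc η p f) (hc : chs η f ⊆ M) : Forc η r f := by
  rw [forc_iff hr]
  intro v hv
  obtain ⟨r2, a1, a2, a3⟩ := hM.exists_red1 hv hrM
  obtain ⟨v', b1, b2⟩ := h r2 a2 a1
  obtain ⟨v'', c1, k, c2⟩ := (forc_iff hp).mp hf v' b2
  obtain ⟨r3, d1, d2, d3, -⟩ := hM.exists_red (c1.trans b1) c2 a1
    (fun a ha => hc (mem_iUnion.mpr ⟨k, mem_iUnion.mpr ⟨c2.right.sm, ha⟩⟩))
  obtain ⟨z, e1, e2⟩ := a3 r3 d2 d1
  exact ⟨z, e2, k, e1.trans d3⟩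

/-- `p` puts `w` into the quotient. -/
def SS (M w p : Dt) : Prop := ∃ r, r ⊆ M ∧ Red M r w ∧ Le p r

theorem SS.mono {M w p q : Dt} (h : SS M w p) (h' : Le q p) : SS M w q :=
  let ⟨r, a, b, c⟩ := h; ⟨r, a, b, h'.trans c⟩

theorem SS.res {M w p : Dt} {ℓ : Lv} (h : SS M w p) (hw : Below ℓ w) : SS M w (res p ℓ) :=
  let ⟨_, a, b, c⟩ := h
  ⟨_, (res_sub _ _).trans a, b.res c.right a hw, c.res_res ℓ⟩

/-- The statement copied into the closed set. -/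
def C1 (M : Dt) (η : Row) (w e : Dt) (m x : K) (p : Dt) : Prop :=
  (∀ p', Le p' p → ¬ SS M w p') ∨ ∃ w', Le w' w ∧ Below η w' ∧
    (∀ π, Atom.p η π ∈ e → Forc η w' (π m x)) ∧ SS M w' p

theorem C1.mono {η w e m x p q} (h : C1 M η w e m x p) (h' : Le q p) : C1 M η w e m x q :=
  h.elim (fun g => Or.inl fun p' hp' => g p' (hp'.trans h'))
    (fun ⟨w', a, b, c, d⟩ => Or.inr ⟨w', a, b, c, d.mono h'⟩)

theorem perp_res {ℓ : Lv} {p : Dt} {O : Dt → Prop} (hp : Val p)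
    (hm : ∀ p q, Le q p → O p → O q) (hr : ∀ p, Val p → O p → O (res p ℓ))
    (h : ∀ p', Le p' p → ¬ O p') : ∀ p', Le p' (res p ℓ) → ¬ O p' := by
  intro v hv hO
  have := splice (below_res v ℓ) (hv.res_left (below_res _ _)) hp
  exact h _ this.1 (hm _ _ this.2 (hr _ hv.left hO))

theorem C1.res {η : Row} {w e m x p} (h : C1 M η w e m x p) (hp : Val p) (hw : Below η w) :
    C1 M η w e m x (res p η) :=
  h.elim (fun g => Or.inl (perp_res hp (fun _ _ a b => b.mono a) (fun _ _ b => b.res hw) g))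
    (fun ⟨w', a, b, c, d⟩ => Or.inr ⟨w', a, b, c, d.res b⟩)

theorem Sub.dec_C1 (hM : Sub n M) {η : Row} (hη : η ∈ rows M) {w e : Dt} (hw : Below η w)
    (he : Val e) (m : K) {p : Dt} (hp : Val p) :
    ∃ q, Le q p ∧ ∃ u β, DecO η q u β (fun x => C1 M η w e m x) := by
  by_cases h : ∀ p', Le p' p → ¬ SS M w p'
  · exact ⟨p, hp, ∅, 0, Sm.empty, fun g => g.ne_empty rfl |>.elim,
      fun x _ v hv _ => ⟨v, hv.left, Or.inl fun p' hp' => h p' (hp'.trans hv)⟩⟩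
  push Not at h
  obtain ⟨p', h1, r0, h2, h3, h4⟩ := h
  obtain ⟨r1, a1, a2, a3⟩ := hM.exists_red1 h4 h2
  obtain ⟨v, b1, b2⟩ := h3 r1 a2 a1
  obtain ⟨v', c1, u, β, c2⟩ := dec_proms (η := η) he m b1.left
  let Gd : K → Dt → Prop := fun x r => ∃ w', Le w' w ∧ Below η w' ∧
    (∀ π, Atom.p η π ∈ e → Forc η w' (π m x)) ∧ Red M r w'
  choose A k1 k2 using fun x => exists_predense
    (fun r => Val r ∧ r ⊆ M ∧ ∀ r', Le r' r → r' ⊆ M → ¬ Gd x r') (fun _ h => h.1)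
  obtain ⟨p0, u0, d1, d2, d3, d4, d5, d6⟩ := hM.copy η hη r1 β A a1
    (fun x k => (k1 x k).elim (fun h => ⟨h.1.sm, h.2.1⟩) (fun h => h ▸ ⟨sm_bad, hM.bad⟩)) v' u
    ⟨c1.trans b1, c2.1, c2.2.1, fun x hx k z z1 z2 z3 => by
      rcases k1 x k with h | h
      · obtain ⟨z', y1, y2⟩ := c2.2.2 x hx z z1 z3
        obtain ⟨r', y3, y4, y5⟩ := hM.exists_red1 (y1.trans z2) h.2.1
        exact h.2.2 r' y4 y3 ⟨res z' η, (((y1.trans z1).trans c1).trans b2).res_left hw,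
          below_res _ _, fun π hπ => (y2 π hπ).res le_rfl, y5.right (y1.left.le.res η)⟩
      · exact not_le_bad (h ▸ z2)⟩
  obtain ⟨q, e1, e2⟩ := a3 p0 d3 d1
  refine ⟨q, e2.trans h1, u0, β, d4, d5, fun x hx z hz hf => ?_⟩
  obtain ⟨r2, f1, f2, f3⟩ := hM.exists_red1 (hz.trans e1) d1
  have f4 : ∀ j ∈ u0, Forc η r2 (MP_b10269_lc.fam η j x) := fun j hj =>
    hM.red_forc f2.left f1 f3 hz.left (hf j hj) (d2 j hj x)
  by_cases hb : ∀ r', Le r' r2 → r' ⊆ M → ¬ Gd x r'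
  · obtain ⟨k, -, y, y1, y2⟩ := k2 x r2 ⟨f2.left, f1, hb⟩
    exact (d6 x hx k y (y1.trans f2) y2 (fun j hj => (f4 j hj).mono y1)).elim
  · push Not at hb
    obtain ⟨r3, y1, y2, w', y3, y4, y5, y6⟩ := hb
    obtain ⟨y, y7, y8⟩ := f3 r3 y1 y2
    exact ⟨y, y8, Or.inr ⟨w', y3, y4, y5, r3, y2, y6, y7⟩⟩

end Pool.Agent.P.MP_b10269_lc
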