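import Mathlib
import Pool.Agent.P.MP_b10269_lc.Sub

/-! The framework for the analysis of quotients: requests, filtration, sparse promises and a
pseudo-generic chain. -/

namespace Pool.Agent.P.MP_b10269_lc

open Cardinal Set

/-- Codes of requests. -/
structure Rq : Type 1 where
  k : ℕ
  n : ℕ
  d1 : Dt
  d2 : Dt
  d3 : Dt
  d4 : Dt
  o1 : K
  o2 : K

def Rq.In (S : Dt) (β : K) (ρ : Rq) : Prop :=
  ρ.d1 ⊆ S ∧ ρ.d2 ⊆ S ∧ ρ.d3 ⊆ S ∧ ρ.d4 ⊆ S ∧ ρ.o1 < β ∧ ρ.o2 < β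

theorem Rq.In.mono {S S' : Dt} {β β' : K} {ρ : Rq} (h : ρ.In S β) (h1 : S ⊆ S') (h2 : β ≤ β') :
    ρ.In S' β' :=
  ⟨h.1.trans h1, h.2.1.trans h1, h.2.2.1.trans h1, h.2.2.2.1.trans h1, h.2.2.2.2.1.trans_le h2,
    h.2.2.2.2.2.trans_le h2⟩

theorem sm_In {S : Dt} (hS : Sm S) (β : K) : Sm {ρ : Rq | ρ.In S β} := by
  have hN : Sm (univ : Set (ULift.{1} (ℕ × ℕ))) := small_univ
  refine (hN.prod (hS.pow.prod (hS.pow.prod (hS.pow.prod (hS.pow.prod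
    ((Sm.iio β).prod (Sm.iio β))))))).of_inj
    (fun ρ => (⟨(ρ.k, ρ.n)⟩, ρ.d1, ρ.d2, ρ.d3, ρ.d4, ρ.o1, ρ.o2)) ?_ (fun ρ h => ⟨trivial, h⟩)
  rintro ⟨⟩ - ⟨⟩ - h
  simp only [Prod.mk.injEq, ULift.up.injEq] at h
  simp only [Rq.mk.injEq]
  tauto

/-- The main shape of a request. -/
def Dm (ℓ : Lv) (d1 d2 d3 d4 : Dt) (o1 o2 : K) (w : Dt) : Prop :=
  Le w d1 ∧ Le w d2 ∧ (∀ (η : Row) π, ℓ = η → Atom.p η π ∈ d3 → Forc η w (π o1 o2)) ∧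
    ∀ η ∈ rows d4, (η : Lv) < ℓ → ∃ x, o2 ≤ x ∧ Atom.s η x ∈ w

def DD (M : ℕ → Dt) (ℓ : Lv) (ρ : Rq) (w : Dt) : Prop :=
  (ρ.k ≤ 1 → Dm ℓ ρ.d1 ρ.d2 ρ.d3 ρ.d4 ρ.o1 ρ.o2 w) ∧
  (ρ.k = 2 → ∀ (η : Row) π, ℓ = η → Atom.p η π ∈ ρ.d3 → ∃ u β, Dec η w u β (π ρ.o1)) ∧
  (ρ.k = 3 → w ⊆ M ρ.n ∧ (Red (M ρ.n) w ρ.d1 ∨ ¬ Cp w ρ.d1)) ∧
  (ρ.k = 4 → w ⊆ M ρ.n ∧ Le w ρ.d1 ∧ Le w ρ.d2)

/-- `p` certifies the witness `w` of the request `ρ` at level `ℓ`. -/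
def Wit (M : ℕ → Dt) (ℓ : Lv) (ρ : Rq) (p w : Dt) : Prop :=
  Below ℓ w ∧ Val w ∧ (ρ.k = 1 → SS (M ρ.n) w p) ∧ (ρ.k ≠ 1 → Le p w) ∧ DD M ℓ ρ w

theorem Wit.mono {M ℓ ρ p q w} (h : Wit M ℓ ρ p w) (h' : Le q p) : Wit M ℓ ρ q w :=
  ⟨h.1, h.2.1, fun g => (h.2.2.1 g).mono h', fun g => h'.trans (h.2.2.2.1 g), h.2.2.2.2⟩

theorem Wit.res {M ℓ ρ p w} (h : Wit M ℓ ρ p w) : Wit M ℓ ρ (res p ℓ) w :=
  ⟨h.1, h.2.1, fun g => (h.2.2.1 g).res h.1, fun g => (h.2.2.2.1 g).res_left h.1, h.2.2.2.2⟩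

/-- The filtration. -/
structure Filt (M : ℕ → Dt) (al : ℕ → Θ) (U : K → Dt) : Prop where
  sm : ∀ β, Sm (U β)
  mono : ∀ {β γ}, β ≤ γ → U β ⊆ U γ
  hc : ∀ {β α ξ b}, Atom.c α ξ b ∈ U β → ξ < β
  hs : ∀ {β η x}, Atom.s η x ∈ U β → x < β
  row : ∀ {β γ η y}, η ∈ rows (U β) → β < γ → y < γ → Atom.s η y ∈ U γ
  fl : ∀ n {ξ γ}, ξ < γ → Atom.c (al n) ξ false ∈ U γ
  wit : ∀ (ℓ : Lv) β ρ p w, (∀ η : Row, ℓ = η → ∃ γ, η ∈ rows (U γ)) → ρ.In (U β) β → Val p →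
    Wit M ℓ ρ p w → ∃ p', Le p' p ∧ ∃ β' w', w' ⊆ U β' ∧ Wit M ℓ ρ p' w'

def Atom.hgt : Atom → K
  | .c _ ξ _ => ξ
  | .s _ x => x
  | .p _ _ => 0

theorem exists_filt (M : ℕ → Dt) (al : ℕ → Θ) (S0 : Dt) (h0 : Sm S0) :
    ∃ U, Filt M al U ∧ ∃ β, S0 ⊆ U β := by
  have hw : ∀ ℓ ρ, ∃ w : K → Dt, (∀ k, Sm (w k)) ∧ ∀ p w', Val p → Wit M ℓ ρ p w' →
      ∃ p', Le p' p ∧ ∃ k, Wit M ℓ ρ p' (w k) := by
    intro ℓ ρ
    obtain ⟨f, h1, h2⟩ := exists_predense (fun p => Val p ∧ ∃ w, Wit M ℓ ρ p w) (fun _ h => h.1)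
    have : ∀ k, ∃ w, Sm w ∧ ((∃ w, Wit M ℓ ρ (f k) w) → Wit M ℓ ρ (f k) w) := by
      intro k
      by_cases h : ∃ w, Wit M ℓ ρ (f k) w
      · obtain ⟨w, hw⟩ := h
        exact ⟨w, hw.2.1.sm, fun _ => hw⟩
      · exact ⟨∅, Sm.empty, fun g => (h g).elim⟩
    choose w a b using this
    refine ⟨w, a, fun p w' hp hw => ?_⟩
    obtain ⟨k, g1, v, g2, g3⟩ := h2 p ⟨hp, w', hw⟩
    exact ⟨v, g2, k, (b k g1.2).mono g3⟩
  choose w hw1 hw2 using hw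
  have hN : Sm (univ : Set (ULift.{1} ℕ)) := small_univ
  obtain ⟨V, h1, h2, h3, h4⟩ := exists_filtration S0 h0
    (fun S β => (fun z : Row × K => Atom.s z.1 z.2) '' (rows S ×ˢ Iic β) ∪
      (fun n : ULift.{1} ℕ => Atom.c (al n.down) β false) '' univ ∪
      ⋃ ℓ ∈ insert (⊤ : Lv) ((fun η : Row => (η : Lv)) '' rows S), ⋃ ρ ∈ {ρ : Rq | ρ.In S β},
        ⋃ k ∈ Iio β, w ℓ ρ k)
    (fun S β hS => (((hS.rows.prod (Sm.iic β)).image _).union (hN.image _)).union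
      (((Sm.single _).union (hS.rows.image _)).biUnion fun ℓ _ => (sm_In hS β).biUnion fun ρ _ =>
        (Sm.iio β).biUnion fun k _ => hw1 ℓ ρ k))
  have key : ∀ d β, Sm d → d ⊆ V β → ∃ γ, d ⊆ {a | a ∈ V γ ∧ a.hgt < γ} := by
    intro d β hd hdV
    obtain ⟨γ, hγ⟩ := (hd.image Atom.hgt).bdd
    exact ⟨max β γ, fun a ha => ⟨h3 _ _ (le_max_left _ _) (hdV ha),
      (hγ _ ⟨a, ha, rfl⟩).trans_le (le_max_right _ _)⟩⟩
  have hsub : ∀ β, {a | a ∈ V β ∧ a.hgt < β} ⊆ V β := fun β a ha => ha.1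
  refine ⟨fun β => {a | a ∈ V β ∧ a.hgt < β}, ⟨fun β => (h1 β).sub (hsub β),
    fun h a ha => ⟨h3 _ _ h ha.1, ha.2.trans_le h⟩, fun h => h.2, fun h => h.2, ?_, ?_, ?_⟩,
    key S0 0 h0 (h2 0)⟩
  · intro β γ η y g1 g2 g3
    exact ⟨h4 (max β y) γ (max_lt g2 g3) (Or.inl (Or.inl ⟨(η, y),
      ⟨rows_mono ((hsub β).trans (h3 _ _ (le_max_left β y))) g1, le_max_right β y⟩, rfl⟩)), g3⟩
  · intro n ξ γ g
    exact ⟨h4 ξ γ g (Or.inl (Or.inr ⟨⟨n⟩, trivial, rfl⟩)), g⟩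
  · intro ℓ β ρ p w' g1 g2 g3 g4
    obtain ⟨p', k1, k, k2⟩ := hw2 ℓ ρ p w' g3 g4
    have : ∃ γ, ℓ ∈ insert (⊤ : Lv) ((fun η : Row => (η : Lv)) '' rows (V γ)) := by
      induction ℓ using WithTop.recTopCoe with
      | top => exact ⟨0, Or.inl rfl⟩
      | coe η =>
        obtain ⟨γ, hγ⟩ := g1 η rfl
        exact ⟨γ, Or.inr ⟨η, rows_mono (hsub γ) hγ, rfl⟩⟩
    obtain ⟨γ, hγ⟩ := this
    let δ := max (max β γ) (k + 1)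
    have e1 : β ≤ δ := (le_max_left _ _).trans (le_max_left _ _)
    have e2 : γ ≤ δ := (le_max_right _ _).trans (le_max_left _ _)
    have e3 : k < δ := (Order.lt_add_one_iff.mpr le_rfl).trans_le (le_max_right _ _)
    obtain ⟨β', hβ'⟩ := key (w ℓ ρ k) (δ + 1) (hw1 _ _ _) (fun a ha => by
      refine h4 δ _ (Order.lt_add_one_iff.mpr le_rfl) (Or.inr (mem_biUnion (x := ℓ) ?_
        (mem_biUnion (x := ρ) (g2.mono ((hsub β).trans (h3 _ _ e1)) e1)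
          (mem_biUnion (x := k) e3 ha))))
      exact insert_subset_insert (image_mono (rows_mono (h3 _ _ e2))) hγ)
    exact ⟨p', k1, β', _, hβ', k2⟩

section good

variable (M : ℕ → Dt) (U : K → Dt) (pm : Row → Nm)

/-- `p` certifies that `δ` is a closure point above `m` for level `ℓ`. -/
def Good (ℓ : Lv) (m δ : K) (p : Dt) : Prop :=
  m < δ ∧ (∀ β, β < δ → β + 1 < δ) ∧
  (∀ β, β < δ → ∀ η ∈ rows (U β), (η : Lv) < ℓ →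
    ∃ p', Le p p' ∧ Atom.p η (pm η) ∈ p' ∧ ∀ x, Atom.s η x ∈ p' → x < δ) ∧
  ∀ β, β < δ → ∀ ρ : Rq, ρ.In (U β) β →
    (∃ β', β' < δ ∧ ∃ w, w ⊆ U β' ∧ Wit M ℓ ρ p w) ∨ ∀ p', Le p' p → ¬ ∃ w, Wit M ℓ ρ p' w

/-- The decided promises are met. -/
def C2 (η : Row) (v : Dt) (a : K → Fam) (x : K) (p : Dt) : Prop :=
  (∃ u β, Dec η v u β a) → ∃ u β, Dec η v u β a ∧ β ≤ x ∧ ∀ j ∈ u, Forc η p (fam η j x)

/-- The open set named by the sparse promise. -/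
def OO (η : Row) (m x : K) (p : Dt) : Prop :=
  ∃ δ, δ < x ∧ Good M U pm η m δ p ∧
    (∀ n w e, η ∈ rows (M n) → w ⊆ U δ → e ⊆ U δ → Below η w → Val e → C1 (M n) η w e m x p) ∧
    ∀ v π, v ⊆ U δ → Atom.p η π ∈ U δ → C2 η v (π m) x p

variable {M U pm}

theorem Good.mono {ℓ m δ p q} (h : Good M U pm ℓ m δ p) (h' : Le q p) : Good M U pm ℓ m δ q :=
  ⟨h.1, h.2.1, fun β hβ η g1 g2 => let ⟨p', a, b⟩ := h.2.2.1 β hβ η g1 g2; ⟨p', h'.trans a, b⟩,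
    fun β hβ ρ g => (h.2.2.2 β hβ ρ g).imp (fun ⟨β', a, w, b, c⟩ => ⟨β', a, w, b, c.mono h'⟩)
      (fun a p' b => a p' (b.trans h'))⟩

theorem Good.res {ℓ m δ p} (h : Good M U pm ℓ m δ p) (hp : Val p) :
    Good M U pm ℓ m δ (res p ℓ) :=
  ⟨h.1, h.2.1, fun β hβ η g1 g2 => let ⟨_, a, b, c⟩ := h.2.2.1 β hβ η g1 g2
      ⟨_, a.res_res ℓ, ⟨b, g2⟩, fun x hx => c x hx.1⟩,
    fun β hβ ρ g => (h.2.2.2 β hβ ρ g).imp (fun ⟨β', a, w, b, c⟩ => ⟨β', a, w, b, c.res⟩)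
      (perp_res hp (fun _ _ a ⟨w, b⟩ => ⟨w, b.mono a⟩) (fun _ _ ⟨w, b⟩ => ⟨w, b.res⟩))⟩

theorem C2.mono {η v a x p q} (h : C2 η v a x p) (h' : Le q p) : C2 η v a x q := fun g =>
  let ⟨u, β, a, b, c⟩ := h g; ⟨u, β, a, b, fun j hj => (c j hj).mono h'⟩

theorem OO.mono {η m x p q} (h : OO M U pm η m x p) (h' : Le q p) : OO M U pm η m x q :=
  let ⟨δ, a, b, c, d⟩ := h
  ⟨δ, a, b.mono h', fun n w e g1 g2 g3 g4 g5 => (c n w e g1 g2 g3 g4 g5).mono h',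
    fun v π g1 g2 => (d v π g1 g2).mono h'⟩

theorem OO.res {η : Row} {m x p} (h : OO M U pm η m x p) (hp : Val p) :
    OO M U pm η m x (res p η) :=
  let ⟨δ, a, b, c, d⟩ := h
  ⟨δ, a, b.res hp, fun n w e g1 g2 g3 g4 g5 => (c n w e g1 g2 g3 g4 g5).res hp g4,
    fun v π g1 g2 g3 => let ⟨u, β, k1, k2, k3⟩ := d v π g1 g2 g3
      ⟨u, β, k1, k2, fun j hj => (k3 j hj).res le_rfl⟩⟩

theorem OO.congr {pm' : Row → Nm} {η : Row} {m x p} (hc : ∀ η', η' < η → pm η' = pm' η')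
    (h : OO M U pm η m x p) : OO M U pm' η m x p :=
  let ⟨δ, a, b, c⟩ := h
  ⟨δ, a, ⟨b.1, b.2.1, fun β hβ η' g1 g2 =>
    hc η' (WithTop.coe_lt_coe.mp g2) ▸ b.2.2.1 β hβ η' g1 g2, b.2.2.2⟩, c⟩

theorem good_dense {al} (hU : Filt M al U) {ℓ : Lv} (hℓ : ∀ η : Row, ℓ = η → ∃ γ, η ∈ rows (U γ))
    (hpm : ∀ (η : Row) β, η ∈ rows (U β) → (η : Lv) < ℓ → Prom η (pm η)) (m : K) {p : Dt}
    (hp : Val p) : ∃ q, Le q p ∧ ∃ δ, Good M U pm ℓ m δ q := by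
  have step : ∀ z : Dt × K, Val z.1 → ∃ z' : Dt × K, Le z'.1 z.1 ∧ z.2 + 1 < z'.2 ∧
      (∀ η ∈ rows (U z.2), (η : Lv) < ℓ → Atom.p η (pm η) ∈ z'.1) ∧
      (∀ η x, Atom.s η x ∈ z'.1 → x < z'.2) ∧
      ∀ ρ : Rq, ρ.In (U z.2) z.2 → (∃ w, w ⊆ U z'.2 ∧ Wit M ℓ ρ z'.1 w) ∨
        ∀ p', Le p' z'.1 → ¬ ∃ w, Wit M ℓ ρ p' w := by
    rintro ⟨p, β⟩ hp
    obtain ⟨q1, a1, a2⟩ := exists_inter (hU.sm β).rows
      (fun η q => (η : Lv) < ℓ → Atom.p η (pm η) ∈ q) (fun _ _ _ h g k => h.sub (g k)) hp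
      (fun η hη v hv => by
        by_cases h : (η : Lv) < ℓ
        · exact ⟨_, add_prom hv.left (hpm η β hη h), fun _ => Or.inr rfl⟩
        · exact ⟨v, hv.left, fun g => (h g).elim⟩)
    obtain ⟨q2, b1, b2⟩ := exists_inter (sm_In (hU.sm β) β)
      (fun ρ q => (∃ β' w, w ⊆ U β' ∧ Wit M ℓ ρ q w) ∨ ∀ p', Le p' q → ¬ ∃ w, Wit M ℓ ρ p' w)
      (fun _ _ _ h g => g.imp (fun ⟨β', w, a, b⟩ => ⟨β', w, a, b.mono h⟩)
        (fun a p' b => a p' (b.trans h))) a1.left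
      (fun ρ hρ v hv => by
        by_cases h : ∀ p', Le p' v → ¬ ∃ w, Wit M ℓ ρ p' w
        · exact ⟨v, hv.left, Or.inr h⟩
        · push Not at h
          obtain ⟨p', c1, w, c2⟩ := h
          obtain ⟨p'', c3, c4⟩ := hU.wit ℓ β ρ p' w hℓ hρ c1.left c2
          exact ⟨p'', c3.trans c1, Or.inl c4⟩)
    obtain ⟨γ1, c1⟩ := (sm_In (hU.sm β) β).bound
      (fun ρ γ => (∃ w, w ⊆ U γ ∧ Wit M ℓ ρ q2 w) ∨ ∀ p', Le p' q2 → ¬ ∃ w, Wit M ℓ ρ p' w)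
      (fun ρ hρ => (b2 ρ hρ).elim (fun ⟨β', h⟩ => ⟨β', Or.inl h⟩) (fun h => ⟨0, Or.inr h⟩))
      (fun _ _ _ h g => g.imp (fun ⟨w, a, b⟩ => ⟨w, a.trans (hU.mono h), b⟩) id)
    obtain ⟨γ2, c2⟩ := (b1.left.sm.image Atom.hgt).bdd
    refine ⟨(q2, max (max γ1 γ2) (β + 1 + 1)), b1.trans a1,
      (Order.lt_add_one_iff.mpr le_rfl).trans_le (le_max_right _ _),
      fun η g1 g2 => b1.sub (a2 η g1 g2), fun η x hx => (c2 x ⟨_, hx, rfl⟩).trans_le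
        ((le_max_right _ _).trans (le_max_left _ _)), fun ρ hρ => (c1 ρ hρ).imp
        (fun ⟨w, a, b⟩ => ⟨w, a.trans (hU.mono ((le_max_left _ _).trans (le_max_left _ _))), b⟩) id⟩
  choose! F hF using step
  let z : ℕ → Dt × K := fun i => F^[i] (p, m)
  have hz : ∀ i, z (i + 1) = F (z i) := fun i => Function.iterate_succ_apply' F i _
  have hv : ∀ i, Val (z i).1 := by
    intro i
    induction i with
    | zero => exact hp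
    | succ i ih => rw [hz]; exact (hF _ ih).1.left
  have hle : ∀ i j, j ≤ i → Le (z i).1 (z j).1 := by
    intro i j h
    induction h with
    | refl => exact hv j
    | step _ ih => rw [Nat.succ_eq_add_one, hz]; exact (hF _ (hv _)).1.trans ih
  have hN : Sm (univ : Set (ULift.{1} ℕ)) := small_univ
  obtain ⟨q, g1, g2⟩ := chain_lb (f := fun i : ULift.{1} ℕ => (z i.down).1) hN hp
    (fun i _ => hle i.down 0 (Nat.zero_le _)) (fun i _ j _ h => hle i.down j.down (le_of_lt h))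
  obtain ⟨δ, d1, d2⟩ := (hN.image (fun i => (z i.down).2)).lub
  have d3 : ∀ i, (z i).2 + 1 < δ := fun i =>
    (hF _ (hv i)).2.1.trans_le (hz i ▸ d1 _ ⟨⟨i + 1⟩, trivial, rfl⟩)
  have d4 : ∀ i, (z i).2 < δ := fun i => (Order.lt_add_one_iff.mpr le_rfl).trans (d3 i)
  refine ⟨q, g1, δ, d4 0, fun β hβ => ?_, fun β hβ η k1 k2 => ?_, fun β hβ ρ hρ => ?_⟩
  · obtain ⟨_, ⟨i, -, rfl⟩, hi⟩ := d2 β hβ
    exact (Order.add_one_le_of_lt hi).trans_lt (d4 _)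
  · obtain ⟨_, ⟨i, -, rfl⟩, hi⟩ := d2 β hβ
    have := hF _ (hv i.down)
    rw [← hz] at this
    exact ⟨_, g2 ⟨i.down + 1⟩ trivial, this.2.2.1 η (rows_mono (hU.mono hi.le) k1) k2,
      fun x hx => (this.2.2.2.1 η x hx).trans (d4 _)⟩
  · obtain ⟨_, ⟨i, -, rfl⟩, hi⟩ := d2 β hβ
    have := hF _ (hv i.down)
    rw [← hz] at this
    have k3 := g2 ⟨i.down + 1⟩ trivial
    exact (this.2.2.2.2 ρ (hρ.mono (hU.mono hi.le) hi.le)).imp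
      (fun ⟨w, a, b⟩ => ⟨_, d4 _, w, a, b.mono k3⟩) (fun a p' b => a p' (b.trans k3))

theorem exists_pm {al} (hM : ∀ n, Sub n (M n)) (hU : Filt M al U) :
    ∃ pm : Row → Nm, ∀ η β, η ∈ rows (U β) → Prom η (pm η) ∧ ∀ m x p, Val p →
      Forc η p (pm η m x) → ∃ q, Le q p ∧ OO M U pm η m x q := by
  refine exists_rec (fun η pm π => ∀ β, η ∈ rows (U β) → Prom η π ∧ ∀ m x p, Val p →
    Forc η p (π m x) → ∃ q, Le q p ∧ OO M U pm η m x q) ?_ ?_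
  · intro η f g π h H β hβ
    exact ⟨(H β hβ).1, fun m x p h1 h2 => let ⟨q, a, b⟩ := (H β hβ).2 m x p h1 h2
      ⟨q, a, b.congr h⟩⟩
  intro η pm ih
  choose π hπ using fun m x => exists_name η (OO M U pm η m x) (fun _ _ a b => b.mono a)
    (fun _ a b => b.res a)
  refine ⟨π, fun β hβ => ⟨prom_iff.mpr fun m p hp => ?_,
    fun m x p h1 h2 => (hπ m x p h1).mp h2 p h1⟩⟩
  obtain ⟨q, a1, δ, a2⟩ := good_dense (pm := pm) hU (ℓ := η)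
    (fun η' h => ⟨β, by cases h; exact hβ⟩)
    (fun η' β' g1 g2 => (ih η' (WithTop.coe_lt_coe.mp g2) β' g1).1) m hp
  have hN : Sm (univ : Set (ULift.{1} ℕ)) := small_univ
  have hs := (hN.prod ((hU.sm δ).pow.prod (hU.sm δ).pow)).prod
    ((hU.sm δ).pow.prod ((Sm.single (π : Nm)).union ((hU.sm δ).prom η)))
  obtain ⟨q', b1, u, γ, b2⟩ := decO_inter (η := η) hs
    (fun z x p => (η ∈ rows (M z.1.1.down) → Below η z.1.2.1 → Val z.1.2.2 →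
      C1 (M z.1.1.down) η z.1.2.1 z.1.2.2 m x p) ∧ C2 η z.2.1 (z.2.2 m) x p)
    (fun z x p q h g => ⟨fun k1 k2 k3 => (g.1 k1 k2 k3).mono h, g.2.mono h⟩) a1.left
    (by
      rintro ⟨⟨⟨n⟩, w, e⟩, v, π'⟩ - r hr
      have e1 : ∃ r', Le r' r ∧ ∃ u β, DecO η r' u β
          (fun x p => η ∈ rows (M n) → Below η w → Val e → C1 (M n) η w e m x p) := by
        by_cases h : η ∈ rows (M n) ∧ Below η w ∧ Val e
        · obtain ⟨r', k1, u, β, k2⟩ := (hM n).dec_C1 h.1 h.2.1 h.2.2 m hr.left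
          exact ⟨r', k1, u, β, k2.imp fun _ _ _ _ g _ _ _ => g⟩
        · exact ⟨r, hr.left, ∅, 0, Sm.empty, fun g => (g.ne_empty rfl).elim,
            fun x _ v hv _ => ⟨v, hv.left, fun k1 k2 k3 => (h ⟨k1, k2, k3⟩).elim⟩⟩
      have e2 : ∃ u β, ∀ r', DecO η r' u β (C2 η v (π' m)) := by
        by_cases h : ∃ u β, Dec η v u β (π' m)
        · obtain ⟨u, β, h⟩ := h
          exact ⟨u, β, fun r' => ⟨h.1, h.2.1, fun x hx z hz g => ⟨z, hz.left,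
            fun _ => ⟨u, β, h, hx, g⟩⟩⟩⟩
        · exact ⟨∅, 0, fun r' => ⟨Sm.empty, fun g => (g.ne_empty rfl).elim,
            fun x _ z hz _ => ⟨z, hz.left, fun g => (h g).elim⟩⟩⟩
      obtain ⟨r', k1, u1, β1, k2⟩ := e1
      obtain ⟨u2, β2, k3⟩ := e2
      refine ⟨r', k1, u1 ∪ u2, max β1 β2, k2.1.union (k3 r').1,
        fun h => (union_nonempty.mp h).elim k2.2.1 (k3 r').2.1, fun x hx z hz g => ?_⟩
      obtain ⟨z1, m1, m2⟩ := k2.2.2 x ((le_max_left _ _).trans hx) z hz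
        (fun j hj => g j (Or.inl hj))
      obtain ⟨z2, m3, m4⟩ := (k3 r').2.2 x ((le_max_right _ _).trans hx) z1 (m1.trans hz)
        (fun j hj => (g j (Or.inr hj)).mono m1)
      exact ⟨z2, m3.trans m1, fun k1 k2 k3 => (m2 k1 k2 k3).mono m3, m4⟩)
  refine ⟨q', b1.trans a1, u, max γ (δ + 1), (dec_iff b1.left).mpr ⟨b2.1, b2.2.1,
    fun x hx v hv g => (hπ m x v hv.left).mpr fun v' hv' => ?_⟩⟩
  obtain ⟨z, c1, c2⟩ := b2.2.2 x ((le_max_left _ _).trans hx) v' (hv'.trans hv)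
    (fun j hj => (g j hj).mono hv')
  refine ⟨z, c1, δ, Order.add_one_le_iff.mp ((le_max_right _ _).trans hx),
    a2.mono (((c1.trans hv').trans hv).trans b1), fun n w e g1 g2 g3 g4 g5 => ?_,
    fun v π' g1 g2 => ?_⟩
  · exact (c2 ⟨⟨⟨n⟩, w, e⟩, ∅, π⟩ ⟨⟨trivial, g2, g3⟩, empty_subset _, Or.inl rfl⟩).1 g1 g4 g5
  · exact (c2 ⟨⟨⟨0⟩, ∅, ∅⟩, v, π'⟩
      ⟨⟨trivial, empty_subset _, empty_subset _⟩, g1, Or.inr g2⟩).2

end good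

/-- The data of the framework. -/
structure FD : Type 1 where
  M : ℕ → Dt
  al : ℕ → Θ
  U : K → Dt
  pm : Row → Nm
  g : K → Dt

namespace FD

variable (F : FD)

def G (p : Dt) : Prop := ∃ i, Le (F.g i) p

structure Ok : Prop where
  hM : ∀ n, Sub n (F.M n)
  hal : ∀ n ξ b, Atom.c (F.al n) ξ b ∉ F.M n
  hU : Filt F.M F.al F.U
  gch : ∀ i j, j ≤ i → Le (F.g i) (F.g j)
  gpt : ∀ β, ∀ η ∈ rows (F.U β), ∀ γ, ∃ p, F.G p ∧ ∃ x, γ ≤ x ∧ Atom.s η x ∈ p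
  gcl : ∀ m, ∃ δ p, F.G p ∧ Good F.M F.U F.pm ⊤ m δ p
  gH : ∀ β, ∀ η ∈ rows (F.U β), ∀ m x p, F.G p → Forc η p (F.pm η m x) →
    ∃ q, F.G q ∧ OO F.M F.U F.pm η m x q

end FD

theorem exists_FD (M : ℕ → Dt) (al : ℕ → Θ) (hM : ∀ n, Sub n (M n))
    (hal : ∀ n ξ b, Atom.c (al n) ξ b ∉ M n) {p0 : Dt} (hp : Val p0) (E : K → Dt → Prop)
    (hE : ∀ β p, Le p p0 → ∃ q, Le q p ∧ E β q) :
    ∃ F : FD, F.Ok ∧ F.M = M ∧ F.al = al ∧ F.G p0 ∧ (∃ β, p0 ⊆ F.U β) ∧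
      ∀ β, ∃ p, F.G p ∧ E β p := by
  obtain ⟨U, hU, hp0⟩ := exists_filt M al p0 hp.sm
  obtain ⟨pm, hpm⟩ := exists_pm hM hU
  obtain ⟨g, h1, h2⟩ := exists_chain (I := K) Sm.iio
    (fun β p => (∃ δ, Good M U pm ⊤ β δ p) ∧ (∀ η ∈ rows (U β), ∃ x, β ≤ x ∧ Atom.s η x ∈ p) ∧
      (∀ z ∈ rows (U β) ×ˢ Iio β ×ˢ Iio β, OO M U pm z.1 z.2.1 z.2.2 p ∨
        ∀ p', Le p' p → ¬ OO M U pm z.1 z.2.1 z.2.2 p') ∧ E β p) hp (by
    intro β p hpp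
    obtain ⟨q1, a1, δ, a2⟩ := good_dense (pm := pm) hU (ℓ := ⊤)
      (fun η h => (WithTop.top_ne_coe h).elim) (fun η β' g _ => (hpm η β' g).1) β hpp.left
    obtain ⟨q2, b1, b2⟩ := add_points a1.left (hU.sm β).rows β
    obtain ⟨q3, c1, c2⟩ := exists_inter ((hU.sm β).rows.prod ((Sm.iio β).prod (Sm.iio β)))
      (fun z p => OO M U pm z.1 z.2.1 z.2.2 p ∨ ∀ p', Le p' p → ¬ OO M U pm z.1 z.2.1 z.2.2 p')
      (fun _ _ _ h g => g.imp (fun a => a.mono h) (fun a p' b => a p' (b.trans h))) b1.left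
      (fun z _ v hv => by
        by_cases h : ∀ p', Le p' v → ¬ OO M U pm z.1 z.2.1 z.2.2 p'
        · exact ⟨v, hv.left, Or.inr h⟩
        · push Not at h
          obtain ⟨p', k1, k2⟩ := h
          exact ⟨p', k1, Or.inl k2⟩)
    obtain ⟨q4, d1, d2⟩ := hE β q3 (((c1.trans b1).trans a1).trans hpp)
    exact ⟨q4, ((d1.trans c1).trans b1).trans a1, ⟨δ, a2.mono ((d1.trans c1).trans b1)⟩,
      fun η hη => let ⟨x, k1, k2⟩ := b2 η hη; ⟨x, k1, (d1.trans c1).sub k2⟩,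
      fun z hz => (c2 z hz).imp (fun a => a.mono d1) (fun a p' b => a p' (b.trans d1)), d2⟩)
  have gch : ∀ i j, j ≤ i → Le (g i) (g j) := fun i j h =>
    h.lt_or_eq.elim (h2 i j) (fun e => e ▸ (h1 j).1.left)
  have hG : ∀ i, FD.G ⟨M, al, U, pm, g⟩ (g i) := fun i => ⟨i, (h1 i).1.left⟩
  refine ⟨⟨M, al, U, pm, g⟩, ⟨hM, hal, hU, gch, fun β η hη γ => ?_,
    fun m => let ⟨δ, h⟩ := (h1 m).2.1; ⟨δ, _, hG m, h⟩, ?_⟩, rfl, rfl, ⟨0, (h1 0).1⟩, hp0,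
    fun β => ⟨_, hG β, (h1 β).2.2.2.2⟩⟩
  · obtain ⟨x, k1, k2⟩ := (h1 (max β γ)).2.2.1 η (rows_mono (hU.mono (le_max_left _ _)) hη)
    exact ⟨_, hG _, x, (le_max_right _ _).trans k1, k2⟩
  · rintro β η hη m x p ⟨i, hi⟩ hf
    let γ := max (max β i) (max m x + 1)
    have e0 : max m x < γ := (Order.lt_add_one_iff.mpr le_rfl).trans_le (le_max_right _ _)
    rcases (h1 γ).2.2.2.1 (η, m, x) ⟨rows_mono (hU.mono ((le_max_left _ _).trans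
      (le_max_left _ _))) hη, (le_max_left _ _).trans_lt e0, (le_max_right _ _).trans_lt e0⟩
      with h | h
    · exact ⟨_, hG γ, h⟩
    · obtain ⟨q, k1, k2⟩ := (hpm η β hη).2 m x (g γ) (h1 γ).1.left
        (hf.mono ((gch γ i ((le_max_right _ _).trans (le_max_left _ _))).trans hi))
      exact (h q k1 k2).elim

end Pool.Agent.P.MP_b10269_lc
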