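import Mathlib
import Pool.Agent.P.MP_b10269_lc.Frame

/-! Consequences of the framework: markers, closure points, the quotient. -/

namespace Pool.Agent.P.MP_b10269_lc

open Cardinal Set

theorem lt_add1 (a : K) : a < a + 1 := Order.lt_add_one_iff.mpr le_rfl

theorem mark_le (t : Set K) (x : K) : mark t x ≤ x := csInf_le' (fun _ _ h => h)

theorem lt_mark {t : Set K} {x y : K} (h1 : y ∈ t) (h2 : y < x) : y < mark t x :=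
  csInf_mem (s := {m | ∀ y ∈ t, y < x → y < m}) ⟨x, fun _ _ h => h⟩ y h1 h2

theorem exists_of_lt_mark {t : Set K} {x β : K} (h : β < mark t x) :
    ∃ y ∈ t, β ≤ y ∧ y < mark t x := by
  by_contra hc
  push Not at hc
  refine absurd (csInf_le' (s := {m | ∀ y ∈ t, y < x → y < m}) (a := β) ?_) (not_le.mpr h)
  exact fun y h1 h2 => lt_of_not_ge (fun g => absurd (lt_mark h1 h2) (not_lt.mpr (hc y h1 g)))

namespace FD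

variable (F : FD)

def A (η : Row) : Set K := {x | ∃ p, F.G p ∧ Atom.s η x ∈ p}

def InF (η : Row) (δ : K) : Prop :=
  ∃ p, F.G p ∧ Atom.p η (F.pm η) ∈ p ∧ ∀ x, Atom.s η x ∈ p → x < δ

def Poss (ℓ : Lv) (ρ : Rq) : Prop := ∀ p, F.G p → ∃ p', Le p' p ∧ ∃ w, Wit F.M ℓ ρ p' w

structure Cl (ℓ : Lv) (δ : K) : Prop where
  pos : 0 < δ
  lim : ∀ β, β < δ → β + 1 < δ
  inf : ∀ β, β < δ → ∀ η ∈ rows (F.U β), (η : Lv) < ℓ → F.InF η δ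
  req : ∀ β, β < δ → ∀ ρ : Rq, ρ.In (F.U β) β → F.Poss ℓ ρ →
    ∃ β', β' < δ ∧ ∃ w, w ⊆ F.U β' ∧ ∃ p, F.G p ∧ Wit F.M ℓ ρ p w

def Mk (η : Row) (m : K) : Prop := ∀ β, β < m → ∃ y ∈ F.A η, β ≤ y ∧ y < m

noncomputable def nxt (η : Row) (m : K) : K := sInf {x | x ∈ F.A η ∧ m ≤ x}

structure St (η : Row) (m : K) : Prop where
  row : η ∈ rows (F.U m)
  mkr : F.Mk η m
  inf : F.InF η m

structure HS (η : Row) (m δ : K) : Prop where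
  lt : m < δ
  lt' : δ < F.nxt η m
  cl : F.Cl η δ
  c1 : ∀ n w e, η ∈ rows (F.M n) → w ⊆ F.U δ → e ⊆ F.U δ → Below η w → Val e →
    ∃ p, F.G p ∧ C1 (F.M n) η w e m (F.nxt η m) p
  c2 : ∃ p, F.G p ∧ ∀ v π, v ⊆ F.U δ → Atom.p η π ∈ F.U δ → C2 η v (π m) (F.nxt η m) p

noncomputable def H (η : Row) (m : K) : K := Classical.epsilon (F.HS η m)

def Via (n : ℕ) (w : Dt) : Prop := ∃ r, F.G r ∧ r ⊆ F.M n ∧ Red (F.M n) r w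

def Cons (n : ℕ) (w : Dt) : Prop :=
  ∀ α ξ b, Atom.c α ξ b ∈ w → ∀ r, F.G r → r ⊆ F.M n → Atom.c α ξ (!b) ∉ r

def Init (η : Row) (w : Dt) : Prop :=
  ∀ y, Atom.s η y ∈ w → y ∈ F.A η ∧ ∀ x ∈ F.A η, x < y → Atom.s η x ∈ w

/-- The row `η` of `d` is settled at `σ`. -/
def Sd (η : Row) (σ : K) (d : Dt) : Prop := F.St η σ ∧ stem d η = F.A η ∩ Iio σ

variable {F}

theorem G.mono {p q : Dt} (h : F.G p) (h' : Le p q) : F.G q := let ⟨i, a⟩ := h; ⟨i, a.trans h'⟩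

theorem G.val {p : Dt} (h : F.G p) : Val p := let ⟨_, a⟩ := h; a.right

theorem G.res {p : Dt} (h : F.G p) (ℓ : Lv) : F.G (res p ℓ) := h.mono (h.val.le.res ℓ)

theorem InF.mono {η δ δ'} (h : F.InF η δ) (h' : δ ≤ δ') : F.InF η δ' :=
  let ⟨p, a, b, c⟩ := h; ⟨p, a, b, fun x hx => (c x hx).trans_le h'⟩

theorem Init.sUnion {η} {S : Set Dt} (h : ∀ w ∈ S, F.Init η w) : F.Init η (⋃₀ S) :=
  fun y ⟨w, a, b⟩ => ⟨(h w a y b).1, fun x c d => ⟨w, a, (h w a y b).2 x c d⟩⟩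

theorem Sd.init {η σ d} (h : F.Sd η σ d) : F.Init η d := by
  intro y hy
  have h1 : y ∈ F.A η ∩ Iio σ := h.2 ▸ hy
  refine ⟨h1.1, fun x hx hxy => ?_⟩
  have h2 : x ∈ F.A η ∩ Iio σ := ⟨hx, hxy.trans h1.2⟩
  rw [← h.2] at h2
  exact h2

theorem mk_mark (η : Row) (x : K) : F.Mk η (mark (F.A η) x) := fun _ => exists_of_lt_mark

theorem Mk.le_mark {η σ x} (h : F.Mk η σ) (hx : σ ≤ x) : σ ≤ mark (F.A η) x := by
  refine le_of_forall_lt fun β hβ => ?_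
  obtain ⟨y, a, b, c⟩ := h β hβ
  exact b.trans_lt (lt_mark a (c.trans_le hx))

theorem nxt_le {η m y} (h1 : y ∈ F.A η) (h2 : m ≤ y) : F.nxt η m ≤ y := csInf_le' ⟨h1, h2⟩

theorem mk_succ {η x} (h : x ∈ F.A η) : F.Mk η (x + 1) :=
  fun _ hβ => ⟨x, h, Order.lt_add_one_iff.mp hβ, lt_add1 x⟩

theorem Cl.of_lim {ℓ δ} (h0 : 0 < δ) (h : ∀ β, β < δ → ∃ δ', β < δ' ∧ δ' ≤ δ ∧ F.Cl ℓ δ') :
    F.Cl ℓ δ :=
  ⟨h0, fun β hβ => let ⟨_, a, b, c⟩ := h β hβ; (c.lim β a).trans_le b,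
    fun β hβ η g1 g2 => let ⟨_, a, b, c⟩ := h β hβ; (c.inf β a η g1 g2).mono b,
    fun β hβ ρ g1 g2 => let ⟨_, a, b, c⟩ := h β hβ; let ⟨β', d, e⟩ := c.req β a ρ g1 g2
      ⟨β', d.trans_le b, e⟩⟩

theorem cl_of_good {ℓ m δ p} (hp : F.G p) (h : Good F.M F.U F.pm ℓ m δ p) : F.Cl ℓ δ := by
  refine ⟨zero_le.trans_lt h.1, h.2.1, fun β hβ η g1 g2 => ?_, fun β hβ ρ g1 g2 => ?_⟩
  · obtain ⟨p', a, b, c⟩ := h.2.2.1 β hβ η g1 g2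
    exact ⟨p', hp.mono a, b, c⟩
  · rcases h.2.2.2 β hβ ρ g1 with ⟨β', a, w, b, c⟩ | a
    · exact ⟨β', a, w, b, p, hp, c⟩
    · obtain ⟨p', b, c⟩ := g2 p hp
      exact (a p' b c).elim

namespace Ok

variable (hF : F.Ok)
include hF

theorem G_small {ι : Type 1} {s : Set ι} (hs : Sm s) {f : ι → Dt} (h : ∀ i ∈ s, F.G (f i)) :
    ∃ r, F.G r ∧ ∀ i ∈ s, Le r (f i) := by
  obtain ⟨β, hβ⟩ := hs.bound (fun i β => Le (F.g β) (f i)) h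
    (fun _ _ _ a b => (hF.gch _ _ a).trans b)
  exact ⟨_, ⟨β, hF.gch β β le_rfl⟩, hβ⟩

theorem dir {p q : Dt} (hp : F.G p) (hq : F.G q) : ∃ r, F.G r ∧ Le r p ∧ Le r q := by
  obtain ⟨i, a⟩ := hp
  obtain ⟨j, b⟩ := hq
  exact ⟨_, ⟨max i j, hF.gch _ _ le_rfl⟩, (hF.gch _ _ (le_max_left _ _)).trans a,
    (hF.gch _ _ (le_max_right _ _)).trans b⟩

theorem G_empty : F.G ∅ := ⟨0, (hF.gch 0 0 le_rfl).left.le_empty⟩

theorem G_init {p : Dt} (hp : F.G p) (η : Row) : F.Init η p := by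
  refine fun y hy => ⟨⟨p, hp, hy⟩, ?_⟩
  rintro x ⟨q, hq, hx⟩ hxy
  obtain ⟨r, -, a, b⟩ := hF.dir hp hq
  exact a.endx (b.sub hx) hy hxy

theorem exists_cl (m : K) : ∃ δ, m < δ ∧ F.Cl ⊤ δ :=
  let ⟨δ, _, a, b⟩ := hF.gcl m; ⟨δ, b.1, cl_of_good a b⟩

theorem nxt_mem {η β} (h : η ∈ rows (F.U β)) (m : K) : F.nxt η m ∈ F.A η ∧ m ≤ F.nxt η m := by
  obtain ⟨p, a, x, b, c⟩ := hF.gpt β η h m
  exact csInf_mem (s := {x | x ∈ F.A η ∧ m ≤ x}) ⟨x, ⟨p, a, c⟩, b⟩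

theorem mark_nxt {η β m} (h : η ∈ rows (F.U β)) (hm : F.Mk η m) :
    mark (F.A η) (F.nxt η m) = m := by
  refine le_antisymm (csInf_le' fun y h1 h2 => ?_) (hm.le_mark (hF.nxt_mem h m).2)
  exact lt_of_not_ge (fun g => absurd (nxt_le h1 g) (not_le.mpr h2))

theorem nxt_mark {η β x} (h : η ∈ rows (F.U β)) (hx : x ∈ F.A η) :
    F.nxt η (mark (F.A η) x) = x := by
  refine le_antisymm (nxt_le hx (mark_le _ _)) (le_of_not_gt fun g => ?_)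
  have := hF.nxt_mem h (mark (F.A η) x)
  exact absurd (lt_mark this.1 g) (not_lt.mpr this.2)

theorem forc_new {p : Dt} (hp : F.G p) {η π x} (h1 : Atom.p η π ∈ p) (h2 : Atom.s η x ∉ p)
    (hx : x ∈ F.A η) : ∃ q, F.G q ∧ Forc η q (π (mark (F.A η) x) x) := by
  obtain ⟨q, hq, hx⟩ := hx
  obtain ⟨r, a, b, c⟩ := hF.dir hp hq
  refine ⟨r, a, ?_⟩
  rw [← mark_congr (t := stem r η) (t' := F.A η) (fun y hy => ⟨fun g => ⟨r, a, g⟩,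
    fun g => (hF.G_init a η x (c.sub hx)).2 y g hy⟩)]
  exact b.new (c.sub hx) h2 h1

theorem hs {η m} (h : F.St η m) : F.HS η m (F.H η m) := by
  refine Classical.epsilon_spec (p := F.HS η m) ?_
  obtain ⟨p, a, b, c⟩ := h.inf
  have hx := hF.nxt_mem h.row m
  obtain ⟨q, d, e⟩ := hF.forc_new a b (fun g => absurd (c _ g) (not_lt.mpr hx.2)) hx.1
  rw [hF.mark_nxt h.row h.mkr] at e
  obtain ⟨v, g1, δ, g2, g3, g4, g5⟩ := hF.gH m η h.row m _ q d e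
  exact ⟨δ, g3.1, g2, cl_of_good g1 g3,
    fun n w e k1 k2 k3 k4 k5 => ⟨v, g1, g4 n w e k1 k2 k3 k4 k5⟩, v, g1, g5⟩

theorem St_up {η σ m} (h : F.St η σ) (h1 : σ ≤ m) (h2 : F.Mk η m) : F.St η m :=
  ⟨rows_mono (hF.hU.mono h1) h.row, h2, h.inf.mono h1⟩

theorem cl_of_lim {η σ m} (h : F.St η σ) (h1 : σ < m)
    (h2 : ∀ β, β < m → ∃ y ∈ F.A η, β < y ∧ y < m) : F.Cl η m := by
  refine Cl.of_lim (zero_le.trans_lt h1) fun β hβ => ?_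
  obtain ⟨y, a, b, c⟩ := h2 (max β σ) (max_lt hβ h1)
  obtain ⟨z, d, e, f⟩ := h2 y c
  have k := hF.hs (hF.St_up h (((le_max_right _ _).trans b.le).trans (lt_add1 y).le) (mk_succ a))
  exact ⟨_, (((le_max_left _ _).trans_lt b).trans (lt_add1 y)).trans k.lt,
    (k.lt'.le.trans (nxt_le d (Order.add_one_le_of_lt e))).trans f.le, k.cl⟩

theorem req_G {ℓ δ β} (hc : F.Cl ℓ δ) (hβ : β < δ) {d1 d2 d3 d4 : Dt} {o1 o2 : K}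
    (h1 : d1 ⊆ F.U β) (h2 : d2 ⊆ F.U β) (h3 : d3 ⊆ F.U β) (h4 : d4 ⊆ F.U β) (h5 : o1 < β)
    (h6 : o2 < β) (g1 : F.G d1) (g2 : F.G d2) (b1 : Below ℓ d1) (b2 : Below ℓ d2)
    (g3 : ∃ p, F.G p ∧ ∀ (η : Row) π, ℓ = η → Atom.p η π ∈ d3 → Forc η p (π o1 o2)) :
    ∃ β', β' < δ ∧ ∃ w, w ⊆ F.U β' ∧ F.G w ∧ Below ℓ w ∧ Dm ℓ d1 d2 d3 d4 o1 o2 w := by
  obtain ⟨β', a, w, b, p, c, d⟩ := hc.req β hβ ⟨0, 0, d1, d2, d3, d4, o1, o2⟩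
    ⟨h1, h2, h3, h4, h5, h6⟩ (by
      intro p hp
      obtain ⟨p0, e1, e2⟩ := g3
      obtain ⟨q1, k1, k2, k3⟩ := hF.dir hp e1
      obtain ⟨q2, k4, k5, k6⟩ := hF.dir g1 g2
      obtain ⟨q, -, k7, k8⟩ := hF.dir k1 k4
      obtain ⟨v, m1, m2⟩ := add_points k7.left ((hF.hU.sm β).sub h4).rows o2
      refine ⟨v, (m1.trans k7).trans k2, res v ℓ, below_res _ _, (m1.left.le.res ℓ).right,
        fun h => (by cases h), fun _ => m1.left.le.res ℓ, fun _ => ⟨((m1.trans k8).trans k5).res_left b1,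
          ((m1.trans k8).trans k6).res_left b2, fun η π h g =>
            ((e2 η π h g).mono ((m1.trans k7).trans k3)).res h.ge, fun η h g => ?_⟩,
        fun h => (by cases h), fun h => (by cases h), fun h => (by cases h)⟩
      obtain ⟨x, m3, m4⟩ := m2 η h
      exact ⟨x, m3, m4, g⟩)
  exact ⟨β', a, w, b, c.mono (d.2.2.2.1 (by simp)), d.1, d.2.2.2.2.1 (by simp)⟩

theorem req_V {n ℓ δ β} (hc : F.Cl ℓ δ) (hβ : β < δ) {d1 d2 d3 d4 : Dt} {o1 o2 : K}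
    (h1 : d1 ⊆ F.U β) (h2 : d2 ⊆ F.U β) (h3 : d3 ⊆ F.U β) (h4 : d4 ⊆ F.U β) (h5 : o1 < β)
    (h6 : o2 < β) (b1 : Below ℓ d1) (b2 : Below ℓ d2) {w' p0 r : Dt} (g1 : F.Via n w')
    (g2 : F.G p0) (g3 : F.G r) (g4 : r ⊆ F.M n)
    (g5 : ∀ r1 v, r1 ⊆ F.M n → Red (F.M n) r1 p0 → Le r1 r → Le v r1 → Le v w' →
      Le v d1 ∧ Le v d2 ∧ ∀ (η : Row) π, ℓ = η → Atom.p η π ∈ d3 → Forc η v (π o1 o2)) :
    ∃ β', β' < δ ∧ ∃ w, w ⊆ F.U β' ∧ F.Via n w ∧ Below ℓ w ∧ Dm ℓ d1 d2 d3 d4 o1 o2 w := by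
  obtain ⟨β', a, w, b, p, c, d⟩ := hc.req β hβ ⟨1, n, d1, d2, d3, d4, o1, o2⟩
    ⟨h1, h2, h3, h4, h5, h6⟩ (by
      intro p hp
      obtain ⟨r0, e1, e2, e3⟩ := g1
      obtain ⟨q1, k1, k2, k3⟩ := hF.dir hp g2
      obtain ⟨q2, k4, k5, k6⟩ := hF.dir e1 g3
      obtain ⟨q, -, k7, k8⟩ := hF.dir k1 k4
      obtain ⟨r1, m1, m2, m3, m4⟩ := (hF.hM n).exists_red (k8.trans k5) (k8.trans k6) e2 g4
      obtain ⟨v, m5, m6⟩ := e3 r1 m2 m1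
      obtain ⟨v', m7, m8⟩ := add_points m5.left ((hF.hU.sm β).sub h4).rows o2
      obtain ⟨r2, m9, m10, m11⟩ := (hF.hM n).exists_red1 (m7.trans m5) m1
      obtain ⟨z, m12, m13⟩ := m4 r2 m10 m9
      obtain ⟨n1, n2, n3⟩ := g5 r1 v' m1 (m4.right (k7.trans k3)) m3 (m7.trans m5) (m7.trans m6)
      refine ⟨z, (m13.trans k7).trans k2, res v' ℓ, below_res _ _, (m7.left.le.res ℓ).right,
        fun _ => ⟨r2, m9, m11.right (m7.left.le.res ℓ), m12⟩, fun h => (h rfl).elim,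
        fun _ => ⟨n1.res_left b1, n2.res_left b2, fun η π h g => (n3 η π h g).res h.ge,
          fun η h g => ?_⟩,
        fun h => (by cases h), fun h => (by cases h), fun h => (by cases h)⟩
      obtain ⟨x, n4, n5⟩ := m8 η h
      exact ⟨x, n4, n5, g⟩)
  obtain ⟨r2, e1, e2, e3⟩ := d.2.2.1 rfl
  exact ⟨β', a, w, b, ⟨r2, c.mono e3, e1, e2⟩, d.1, d.2.2.2.2.1 le_rfl⟩

omit hF in
theorem req_dec {η : Row} {δ β} (hc : F.Cl η δ) (hβ : β < δ) {e : Dt} {m : K} (h1 : e ⊆ F.U β)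
    (h2 : m < β) (he : Val e) : ∃ β', β' < δ ∧ ∃ w, w ⊆ F.U β' ∧ F.G w ∧ Below η w ∧
      ∀ π, Atom.p η π ∈ e → ∃ u γ, Dec η w u γ (π m) := by
  obtain ⟨β', a, w, b, p, c, d⟩ := hc.req β hβ ⟨2, 0, e, e, e, e, m, m⟩
    ⟨h1, h1, h1, h1, h2, h2⟩ (by
      intro p hp
      obtain ⟨v, m1, m2⟩ := exists_inter (he.sm.prom η) (fun π q => ∃ u γ, Dec η q u γ (π m))
        (fun _ _ _ h ⟨u, γ, g⟩ => ⟨u, γ, g.mono h⟩) hp.val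
        (fun π hπ q hq => prom_iff.mp (he.prom hπ) m q hq.left)
      refine ⟨v, m1, res v η, below_res _ _, (m1.left.le.res η).right,
        fun h => (by cases h), fun _ => m1.left.le.res η, fun h => (by cases h; contradiction),
        fun _ η' π h g => ?_, fun h => (by cases h), fun h => (by cases h)⟩
      cases h
      obtain ⟨u, γ, k⟩ := m2 π g
      exact ⟨u, γ, k.congr (agree_res _ _)⟩)
  exact ⟨β', a, w, b, c.mono (d.2.2.2.1 (by simp)), d.1,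
    fun π g => d.2.2.2.2.2.1 rfl η π rfl g⟩

theorem points {ℓ δ β} (hc : F.Cl ℓ δ) (hβ : β < δ) :
    ∃ β', β' < δ ∧ ∀ η ∈ rows (F.U β), (η : Lv) < ℓ → ∃ x ∈ F.A η, β ≤ x ∧ x < β' := by
  obtain ⟨β', a, w, b, c, -, d⟩ := hF.req_G hc (hc.lim β hβ) (d1 := ∅) (d2 := ∅) (d3 := ∅)
    (d4 := F.U β) (empty_subset _) (empty_subset _) (empty_subset _)
    (hF.hU.mono (lt_add1 β).le) (lt_add1 β) (lt_add1 β) hF.G_empty hF.G_empty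
    (fun _ h => h.elim) (fun _ h => h.elim) ⟨∅, hF.G_empty, fun _ _ _ h => h.elim⟩
  refine ⟨β', a, fun η g1 g2 => ?_⟩
  obtain ⟨x, k1, k2⟩ := d.2.2.2 η g1 g2
  exact ⟨x, ⟨w, c, k2⟩, k1, hF.hU.hs (b k2)⟩

/-- The closure points of lower settled rows are uniformly bounded. -/
theorem H_bound {ℓ δ σ} (hc : F.Cl ℓ δ) (hσ : σ < δ) :
    ∃ β', β' < δ ∧ ∀ η : Row, (η : Lv) < ℓ → F.St η σ → F.H η σ < β' := by
  obtain ⟨β', a, b⟩ := hF.points hc hσ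
  refine ⟨β', a, fun η g1 g2 => ?_⟩
  obtain ⟨x, k1, k2, k3⟩ := b η g2.row g1
  exact ((hF.hs g2).lt'.trans_le (nxt_le k1 k2)).trans k3

theorem H_mono {η η' σ} (h : F.St η σ) (h' : F.St η' σ) (hlt : η ≤ η') : F.H η σ ≤ F.H η' σ := by
  rcases hlt.lt_or_eq with hlt | rfl
  · obtain ⟨β', a, b⟩ := hF.H_bound (hF.hs h').cl (hF.hs h').lt
    exact ((b η (WithTop.coe_lt_coe.mpr hlt) h).trans a).le
  · exact le_rfl

theorem cl_lim {ℓ δ β} (hc : F.Cl ℓ δ) (hβ : β < δ) {η : Row} (h1 : η ∈ rows (F.U β))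
    (h2 : (η : Lv) < ℓ) (γ : K) (hγ : γ < δ) : ∃ y ∈ F.A η, γ < y ∧ y < δ := by
  obtain ⟨β', a, b⟩ := hF.points hc (max_lt hβ (hc.lim γ hγ))
  obtain ⟨x, k1, k2, k3⟩ := b η (rows_mono (hF.hU.mono (le_max_left _ _)) h1) h2
  exact ⟨x, k1, (lt_add1 γ).trans_le ((le_max_right _ _).trans k2), k3.trans a⟩

theorem via_cp {n w r} (h : F.Via n w) (h1 : F.G r) (h2 : r ⊆ F.M n) : Cp r w := by
  obtain ⟨r0, a, b, c⟩ := h
  obtain ⟨q, -, d, e⟩ := hF.dir a h1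
  obtain ⟨r1, f1, f2, f3, -⟩ := (hF.hM n).exists_red d e b h2
  obtain ⟨v, g1, g2⟩ := c r1 f2 f1
  exact ⟨v, g1.trans f3, g2⟩

theorem via_of_cp {n w β} (hw : w ⊆ F.U β)
    (h : ∀ r γ, F.G r → r ⊆ F.M n → r ⊆ F.U γ → Cp r w) : F.Via n w := by
  obtain ⟨δ, h1, h2⟩ := hF.exists_cl β
  have h3 : w ⊆ F.U (β + 1) := hw.trans (hF.hU.mono (lt_add1 β).le)
  obtain ⟨β', -, r, b, p, c, d⟩ := h2.req (β + 1) (h2.lim β h1) ⟨3, n, w, w, w, w, β, β⟩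
    ⟨h3, h3, h3, h3, lt_add1 β, lt_add1 β⟩ (by
      intro p hp
      obtain ⟨r1, a1, a2, a3⟩ := (hF.hM n).exists_red1 hp.val.le_empty (empty_subset _)
      have : ∃ r2, Le r2 r1 ∧ r2 ⊆ F.M n ∧ (Red (F.M n) r2 w ∨ ¬ Cp r2 w) := by
        by_cases hc : Cp r1 w
        · obtain ⟨v, b1, b2⟩ := hc
          obtain ⟨r2, c1, c2, c3⟩ := (hF.hM n).exists_red1 b1 a1
          exact ⟨r2, c2, c1, Or.inl (c3.right b2)⟩
        · exact ⟨r1, a2.left, a1, Or.inr hc⟩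
      obtain ⟨r2, b1, b2, b3⟩ := this
      obtain ⟨z, c1, c2⟩ := a3 r2 b1 b2
      exact ⟨z, c2, r2, below_top _, b1.left, fun h => (by cases h), fun _ => c1,
        fun h => (by simp at h), fun h => (by cases h), fun _ => ⟨b2, b3⟩, fun h => (by cases h)⟩)
  have e1 := c.mono (d.2.2.2.1 (by simp))
  obtain ⟨e2, e3⟩ := d.2.2.2.2.2.2.1 rfl
  exact ⟨r, e1, e2, e3.resolve_right (not_not.mpr (h r β' e1 e2 b))⟩

theorem dirQ {n r1 r2 β} (g1 : F.G r1) (g2 : F.G r2) (m1 : r1 ⊆ F.M n) (m2 : r2 ⊆ F.M n)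
    (u1 : r1 ⊆ F.U β) (u2 : r2 ⊆ F.U β) : ∃ r, F.G r ∧ r ⊆ F.M n ∧ Le r r1 ∧ Le r r2 := by
  obtain ⟨δ, h1, h2⟩ := hF.exists_cl β
  have h3 := hF.hU.mono (lt_add1 β).le
  obtain ⟨β', -, r, b, p, c, d⟩ := h2.req (β + 1) (h2.lim β h1) ⟨4, n, r1, r2, r1, r1, β, β⟩
    ⟨u1.trans h3, u2.trans h3, u1.trans h3, u1.trans h3, lt_add1 β, lt_add1 β⟩ (by
      intro p hp
      obtain ⟨q1, k1, k2, k3⟩ := hF.dir g1 g2
      obtain ⟨q, -, k4, k5⟩ := hF.dir k1 hp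
      obtain ⟨r, a1, a2, a3, a4⟩ := (hF.hM n).exists_red (k4.trans k2) (k4.trans k3) m1 m2
      obtain ⟨z, c1, c2⟩ := a4 r a2.left a1
      exact ⟨z, c2.trans k5, r, below_top _, a2.left, fun h => (by cases h), fun _ => c1,
        fun h => (by simp at h), fun h => (by cases h), fun h => (by cases h),
        fun _ => ⟨a1, a2, a3⟩⟩)
  exact ⟨r, c.mono (d.2.2.2.1 (by simp)), d.2.2.2.2.2.2.2 rfl⟩

theorem G_stem (η : Row) {β} (h : η ∈ rows (F.U β)) (σ : K) :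
    F.G (Atom.s η '' (F.A η ∩ Iio σ)) := by
  obtain ⟨p, a, x, b, c⟩ := hF.gpt β η h σ
  refine a.mono (le_of a.val ?_ ?_ ?_)
  · rintro _ ⟨y, hy, rfl⟩
    exact (hF.G_init a η x c).2 y hy.1 (hy.2.trans_le b)
  · rintro η' x' y g1 ⟨y', hy, g2⟩ g3
    cases g2
    exact ⟨x', ⟨⟨p, a, g1⟩, g3.trans hy.2⟩, rfl⟩
  · rintro η' x' π - - ⟨y', -, g2⟩
    cases g2

theorem via_init {n w η β} (h : F.Via n w) (h1 : η ∈ rows (F.M n)) (h2 : η ∈ rows (F.U β)) :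
    F.Init η w := by
  intro y hy
  have hz := hF.nxt_mem h2 (y + 1)
  obtain ⟨v, a, b⟩ := hF.via_cp h (hF.G_stem η h2 (F.nxt η (y + 1) + 1))
    (by rintro _ ⟨x, -, rfl⟩; exact (hF.hM n).row η h1 x)
  have hy' := (lt_add1 y).trans_le hz.2
  obtain ⟨y', c, d⟩ := a.endx (b.sub hy) ⟨_, ⟨hz.1, lt_add1 _⟩, rfl⟩ hy'
  cases d
  exact ⟨c.1, fun x g1 g2 => b.endx (a.sub ⟨x, ⟨g1, g2.trans c.2⟩, rfl⟩) hy g2⟩

theorem via_cons {n w} (h : F.Via n w) : F.Cons n w := by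
  intro α ξ b g1 r g2 g3 g4
  obtain ⟨v, a1, a2⟩ := hF.via_cp h g2 g3
  cases b
  exacts [a1.left.func α ξ (a1.sub g4) (a2.sub g1), a1.left.func α ξ (a2.sub g1) (a1.sub g4)]

theorem via_base {n w β} (hw : Val w) (hU : w ⊆ F.U β) (hc : F.Cons n w)
    (hr : ∀ η ∈ rows w, η ∉ rows (F.M n)) : F.Via n w := by
  refine hF.via_of_cp hU fun r γ g1 g2 _ => cp_of_amalg g1.val hw ?_
    (fun η k1 k2 => (hr η k2 (rows_mono g2 k1)).elim)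
  rintro α ξ (k1 | k1) (k2 | k2)
  exacts [g1.val.func α ξ k1 k2, hc α ξ false k2 r g1 g2 k1, hc α ξ true k1 r g1 g2 k2,
    hw.func α ξ k1 k2]

theorem sd_of {η σ w} (h1 : F.Init η w) (h2 : w ⊆ F.U σ) (h3 : η ∈ rows w)
    (h4 : ∀ β, β < σ → ∃ y, β ≤ y ∧ Atom.s η y ∈ w) (h5 : F.InF η σ) : F.Sd η σ w := by
  refine ⟨⟨rows_mono h2 h3, fun β hβ => ?_, h5⟩, Set.ext fun x =>
    ⟨fun g => ⟨(h1 x g).1, hF.hU.hs (h2 g)⟩, fun g => ?_⟩⟩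
  · obtain ⟨y, a, b⟩ := h4 β hβ
    exact ⟨y, (h1 y b).1, a, hF.hU.hs (h2 b)⟩
  · obtain ⟨y, a, b⟩ := h4 x g.2
    rcases a.lt_or_eq with a | rfl
    exacts [(h1 y b).2 x g.1 a, b]

/-- The canonical state at a closure point. -/
theorem exists_gamma {L : Set Lv} (hL : L.Nonempty) {δ : K} (hc : ∀ ℓ ∈ L, F.Cl ℓ δ) :
    ∃ Γ, F.G Γ ∧ Γ ⊆ F.U δ ∧
      (∀ p β, F.G p → (∃ ℓ ∈ L, Below ℓ p) → β < δ → p ⊆ F.U β → Le Γ p) ∧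
      (∀ η ∈ rows Γ, (∃ ℓ ∈ L, (η : Lv) < ℓ) ∧ F.Sd η δ Γ) := by
  let S : Set Dt := {p | F.G p ∧ (∃ ℓ ∈ L, Below ℓ p) ∧ ∃ β, β < δ ∧ p ⊆ F.U β}
  have hU : ⋃₀ S ⊆ F.U δ := sUnion_subset fun p ⟨_, _, β, a, b⟩ => b.trans (hF.hU.mono a.le)
  have key : ∀ p ∈ S, ∀ q ∈ S, ∀ γ, γ < δ → ∃ r ∈ S, Le r p ∧ Le r q ∧
      ∀ η ∈ rows p, ∃ y, γ ≤ y ∧ Atom.s η y ∈ r := by
    rintro p ⟨a1, ⟨ℓ1, a2, a3⟩, β1, a4, a5⟩ q ⟨b1, ⟨ℓ2, b2, b3⟩, β2, b4, b5⟩ γ hγ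
    have hm : max ℓ1 ℓ2 ∈ L := by rcases max_choice ℓ1 ℓ2 with h | h <;> rw [h] <;> assumption
    have e1 : p ⊆ F.U (max (max β1 β2) (γ + 1)) :=
      a5.trans (hF.hU.mono ((le_max_left _ _).trans (le_max_left _ _)))
    have e2 : γ < max (max β1 β2) (γ + 1) := (lt_add1 γ).trans_le (le_max_right _ _)
    obtain ⟨β', c1, w, c2, c3, c4, c5⟩ := hF.req_G (hc _ hm)
      (max_lt (max_lt a4 b4) ((hc _ hm).lim γ hγ)) (d3 := ∅) (d4 := p) e1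
      (b5.trans (hF.hU.mono ((le_max_right _ _).trans (le_max_left _ _)))) (empty_subset _) e1
      e2 e2 a1 b1 (a3.mono (le_max_left _ _)) (b3.mono (le_max_right _ _))
      ⟨∅, hF.G_empty, fun _ _ _ h => h.elim⟩
    exact ⟨w, ⟨c3, ⟨_, hm, c4⟩, β', c1, c2⟩, c5.1, c5.2.1,
      fun η h => c5.2.2.2 η h ((a3.lt h).trans_le (le_max_left _ _))⟩
  obtain ⟨ℓ0, hℓ0⟩ := hL
  have h0 := (hc ℓ0 hℓ0).pos
  obtain ⟨r, a1, a2⟩ := hF.G_small (s := S) (f := id) ((hF.hU.sm δ).pow.sub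
    (fun p hp => (subset_sUnion_of_mem hp).trans hU)) (fun p hp => hp.1)
  have hG : F.G (⋃₀ S) := a1.mono (le_sUnion a1.val a2)
  refine ⟨⋃₀ S, hG, hU, fun p β g1 g2 g3 g4 => sUnion_le (fun p hp q hq => ?_)
    ((hF.hU.sm δ).sub hU) ⟨g1, g2, β, g3, g4⟩, fun η hη => ?_⟩
  · obtain ⟨r, k1, k2, k3, -⟩ := key p hp q hq 0 h0
    exact ⟨r, k1, k2, k3⟩
  · obtain ⟨p, hp, g⟩ := mem_rows_sUnion.mp hη
    obtain ⟨-, ⟨ℓ, b1, b2⟩, β, b3, b4⟩ := id hp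
    refine ⟨⟨ℓ, b1, b2.lt g⟩, hF.sd_of (hF.G_init hG η) hU hη (fun γ hγ => ?_)
      ((hc ℓ b1).inf β b3 η (rows_mono b4 g) (b2.lt g))⟩
    obtain ⟨r, k1, -, -, k2⟩ := key p hp p hp γ hγ
    obtain ⟨y, k3, k4⟩ := k2 η g
    exact ⟨y, k3, r, k1, k4⟩

end Ok

theorem Via.val {n w} (h : F.Via n w) : Val w :=
  let ⟨r, a, b, c⟩ := h; let ⟨_, _, d⟩ := c r a.val b; d.right

theorem Via.extras {n w ℓ} (h : F.Via n (res w ℓ)) (hw : Val w)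
    (hx : ∀ η ∈ rows w, η ∈ rows (F.M n) → (η : Lv) < ℓ) : F.Via n w :=
  let ⟨r, a, b, c⟩ := h; ⟨r, a, b, c.extras hw hx⟩

theorem Via.mono {n w w'} (h : F.Via n w) (h' : Le w w') : F.Via n w' :=
  let ⟨r, a, b, c⟩ := h; ⟨r, a, b, c.right h'⟩

end FD

end Pool.Agent.P.MP_b10269_lc
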