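import Mathlib
import Pool.Agent.P.MP_b10269_lc.Frame2

/-! Settled conditions lie in the quotient: the one-row step. -/

namespace Pool.Agent.P.MP_b10269_lc

open Cardinal Set

theorem exists_lub (a : Set Row) : ∃ ℓ : Lv, (∀ η ∈ a, (η : Lv) < ℓ) ∧
    ∀ η' : Row, (η' : Lv) < ℓ → ∃ η ∈ a, η' ≤ η := by
  obtain ⟨ℓ, h1, h2⟩ := (wellFounded_lt (α := Lv)).has_min {ℓ | ∀ η ∈ a, (η : Lv) < ℓ}
    ⟨⊤, fun η _ => WithTop.coe_lt_top η⟩
  refine ⟨ℓ, h1, fun η' h => ?_⟩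
  by_contra hc
  push Not at hc
  exact h2 η' (fun η hη => WithTop.coe_lt_coe.mpr (hc η hη)) h

theorem exists_lv0 : ∃ ℓ : Lv, ∀ η : Row, ℓ ≤ η := by
  obtain ⟨ℓ, -, h⟩ := exists_lub ∅
  exact ⟨ℓ, fun η => le_of_not_gt fun g => let ⟨_, a, _⟩ := h η g; a.elim⟩

theorem res_union_tail (d : Dt) (ℓ : Lv) : res d ℓ ∪ tail d ℓ = d :=
  Set.ext fun a => ⟨fun h => h.elim (·.1) (·.1),
    fun h => (em (a.below ℓ)).imp (fun g => ⟨h, g⟩) (fun g => ⟨h, g⟩)⟩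

theorem res_res (d : Dt) {ℓ ℓ' : Lv} (h : ℓ ≤ ℓ') : res (res d ℓ') ℓ = res d ℓ :=
  ((agree_res ℓ' d).mono h).res_eq.symm

theorem le_res_lub {w d : Dt} {b : Set Row} {ℓ : Lv} (hb : b.Nonempty)
    (h : ∀ η ∈ b, Le w (res d η)) (hl : ∀ η' ∈ rows d, (η' : Lv) < ℓ → ∃ η ∈ b, η' < η) :
    Le w (res d ℓ) := by
  obtain ⟨η0, h0⟩ := hb
  have h1 := (le_sUnion (S := (fun η : Row => res d η) '' b) (h η0 h0).left
    (by rintro _ ⟨η, g, rfl⟩; exact h η g)).res ℓ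
  have h2 : res (⋃₀ ((fun η : Row => res d η) '' b)) ℓ = res d ℓ := by
    refine Set.ext fun a => and_congr_left fun ha => ⟨?_, fun g => ?_⟩
    · rintro ⟨_, ⟨η, -, rfl⟩, g⟩
      exact g.1
    · cases a with
      | c => exact ⟨_, ⟨η0, h0, rfl⟩, g, trivial⟩
      | s η x =>
        obtain ⟨η', k1, k2⟩ := hl η (Or.inl ⟨x, g⟩) ha
        exact ⟨_, ⟨η', k1, rfl⟩, g, WithTop.coe_lt_coe.mpr k2⟩
      | p η x =>
        obtain ⟨η', k1, k2⟩ := hl η (Or.inr ⟨x, g⟩) ha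
        exact ⟨_, ⟨η', k1, rfl⟩, g, WithTop.coe_lt_coe.mpr k2⟩
  rwa [h2] at h1

theorem chain_union {I : Type 1} [LinearOrder I] {f : I → Dt} {J : Set I} (hv : ∀ i ∈ J, Val (f i))
    (h : ∀ i ∈ J, ∀ j ∈ J, j < i → Le (f i) (f j)) (hs : Sm (⋃₀ (f '' J))) {i : I} (hi : i ∈ J) :
    Le (⋃₀ (f '' J)) (f i) := by
  refine sUnion_le ?_ hs ⟨i, hi, rfl⟩
  rintro _ ⟨i, hi, rfl⟩ _ ⟨j, hj, rfl⟩
  rcases lt_trichotomy i j with hij | rfl | hij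
  · exact ⟨_, ⟨j, hj, rfl⟩, h j hj i hi hij, hv j hj⟩
  · exact ⟨_, ⟨i, hi, rfl⟩, hv i hi, hv i hi⟩
  · exact ⟨_, ⟨i, hi, rfl⟩, hv i hi, h i hi j hj hij⟩

namespace FD

variable (F : FD)

/-- The statement proved by induction on the level. -/
def TT (n : ℕ) (ℓ : Lv) : Prop :=
  ∀ (η0 : Lv) σ ρ q, Below ℓ ρ → Val ρ → ρ ⊆ F.U σ →
    (∀ η ∈ rows ρ, η0 ≤ η → η ∈ rows (F.M n) → F.Sd η σ ρ ∧ ∃ β, β < F.H η σ ∧ q ⊆ F.U β) →
    F.Via n q → Below η0 q → Le q (res ρ η0) → F.Via n (q ∪ tail ρ η0)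

variable {F}

theorem Cons.sUnion {n} {S : Set Dt} (h : ∀ w ∈ S, F.Cons n w) : F.Cons n (⋃₀ S) :=
  fun α ξ b ⟨w, a, c⟩ => h w a α ξ b c

namespace Ok

variable (hF : F.Ok)
include hF

theorem T0 {n ℓ σ w} (hT : F.TT n ℓ) (h1 : Below ℓ w) (h2 : Val w) (h3 : w ⊆ F.U σ)
    (h4 : ∀ η ∈ rows w, η ∈ rows (F.M n) → F.Sd η σ w) (h5 : F.Cons n w) : F.Via n w := by
  obtain ⟨ℓ0, h0⟩ := exists_lv0
  have h6 := (h2.le.res ℓ0).right
  have h7 := (res_sub w ℓ0).trans h3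
  have := hT ℓ0 σ w (res w ℓ0) h1 h2 h3
    (fun η a _ b => ⟨h4 η a b, σ, (hF.hs (h4 η a b).1).lt, h7⟩)
    (hF.via_base h6 h7 (fun α ξ b g => h5 α ξ b g.1)
      (fun η g => absurd (mem_rows_res.mp g).2 (not_lt.mpr (h0 η)) )) (below_res _ _) h6
  rwa [res_union_tail] at this

theorem one_chain {n} {η1 : Row} {σ β0 w0 e} (hT : F.TT n η1) (hM : η1 ∈ rows (F.M n))
    (hσ : F.St η1 σ) (h1 : F.Via n w0) (h2 : Below η1 w0) (h3 : β0 < F.H η1 σ)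
    (h4 : w0 ⊆ F.U β0) (h5 : Val e) (h6 : e ⊆ F.U σ) {m} (hm : σ ≤ m) (hm' : F.Mk η1 m) :
    ∃ w, F.Via n w ∧ Le w w0 ∧ ∀ x ∈ F.A η1, σ ≤ x → x < m → ∀ π, Atom.p η1 π ∈ e →
      Forc η1 w (π (mark (F.A η1) x) x) := by
  obtain ⟨f, hf, -⟩ := exists_rec' (I := K)
    (fun m w => σ ≤ m → F.Mk η1 m → F.Via n w ∧ Below η1 w ∧ Le w w0 ∧
      (∃ β, β < F.H η1 m ∧ w ⊆ F.U β) ∧ ∀ x ∈ F.A η1, σ ≤ x → x < m → ∀ π, Atom.p η1 π ∈ e →
        Forc η1 w (π (mark (F.A η1) x) x))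
    (fun j wj m w => σ ≤ j → F.Mk η1 j → F.Mk η1 m → Le w wj ∧
      ∀ η ∈ rows wj, ∃ y, j ≤ y ∧ Atom.s η y ∈ w) (by
    intro m f hP hR
    by_cases hc : σ ≤ m ∧ F.Mk η1 m
    swap
    · exact ⟨∅, fun a b => (hc ⟨a, b⟩).elim, fun j hj a _ b => (hc ⟨a.trans hj.le, b⟩).elim⟩
    obtain ⟨hm, hm'⟩ := hc
    rcases hm.eq_or_lt with rfl | hm
    · exact ⟨w0, fun _ _ => ⟨h1, h2, h1.val, ⟨β0, h3, h4⟩,
        fun x _ a b => absurd b (not_lt.mpr a)⟩, fun j hj a => absurd hj (not_lt.mpr a)⟩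
    have hst := hF.hs (hF.St_up hσ hm.le hm')
    by_cases hx : ∃ x ∈ F.A η1, x < m ∧ ∀ y ∈ F.A η1, y < m → y ≤ x
    · obtain ⟨x, a1, a2, a3⟩ := hx
      have a4 : σ ≤ x := let ⟨y, b1, b2, b3⟩ := hm' σ hm; b2.trans (a3 y b1 b3)
      have a5 := hσ.mkr.le_mark a4
      have a6 : mark (F.A η1) x < m := (mark_le _ _).trans_lt a2
      have hj := hF.hs (hF.St_up hσ a5 (mk_mark η1 x))
      obtain ⟨b1, b2, b3, ⟨β, b4, b5⟩, b6⟩ := hP _ a6 a5 (mk_mark η1 x)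
      have hn := hF.nxt_mark hσ.row a1
      obtain ⟨p, c1, c2⟩ := hj.c1 n _ e hM (b5.trans (hF.hU.mono b4.le))
        (h6.trans (hF.hU.mono (a5.trans hj.lt.le))) b2 h5
      rw [hn] at c2
      have c3 : β < m := (b4.trans (hj.lt'.trans_eq hn)).trans a2
      rcases c2 with c2 | ⟨w', d1, -, d3, r, d4, d5, d6⟩
      · obtain ⟨r, d1, d2, d3⟩ := b1
        obtain ⟨z, -, d4, d5⟩ := hF.dir c1 d1
        exact (c2 z d4 ⟨r, d2, d3, d5⟩).elim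
      have e1 := b5.trans (hF.hU.mono c3.le)
      obtain ⟨β', k1, w, k2, k3, k4, k5, -, k6, k7⟩ := hF.req_V hst.cl hst.lt (d2 := ∅) (d3 := e)
        e1 (empty_subset _) (h6.trans (hF.hU.mono hm.le)) e1 a6 a2 b2 (fun _ h => h.elim)
        ⟨r, c1.mono d6, d4, d5⟩ hF.G_empty hF.G_empty (empty_subset _)
        (fun r1 v _ _ _ _ g => ⟨g.trans d1, g.left.le_empty, fun η π h k => by
          cases h; exact (d3 π k).mono g⟩)
      refine ⟨w, fun _ _ => ⟨k3, k4, k5.trans b3, ⟨β', k1, k2⟩, fun y g1 g2 g3 π g4 => ?_⟩,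
        fun j g1 g2 g3 _ => ?_⟩
      · rcases (a3 y g1 g3).lt_or_eq with h | rfl
        exacts [(b6 y g1 g2 (lt_mark g1 h) π g4).mono k5, k6 η1 π rfl g4]
      · have g4 : j ≤ x := let ⟨y, b1, b2, b3⟩ := hm' j g1; b2.trans (a3 y b1 b3)
        have g5 : Le (f (mark (F.A η1) x)) (f j) := by
          rcases (g3.le_mark g4).lt_or_eq with h | h
          exacts [(hR _ a6 j h g2 g3 (mk_mark η1 x)).1, h ▸ b1.val]
        refine ⟨k5.trans g5, fun η g => ?_⟩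
        obtain ⟨y, m1, m2⟩ := k7 η (rows_mono g5.sub g) (b2.lt (rows_mono g5.sub g))
        exact ⟨y, g4.trans m1, m2⟩
    · push Not at hx
      have hl : ∀ β, β < m → ∃ y ∈ F.A η1, β < y ∧ y < m := by
        intro β hβ
        obtain ⟨y, b1, b2, b3⟩ := hm' β hβ
        obtain ⟨z, c1, c2, c3⟩ := hx y b1 b3
        exact ⟨z, c1, b2.trans_lt c3, c2⟩
      have hcl := hF.cl_of_lim hσ hm hl
      let J : Set K := {j | j < m ∧ σ ≤ j ∧ F.Mk η1 j}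
      have hJ : ∀ β, β < m → ∃ j ∈ J, β < j := by
        intro β hβ
        obtain ⟨y, b1, b2, b3⟩ := hl _ (max_lt hβ hm)
        exact ⟨y + 1, ⟨hcl.lim y b3, ((le_max_right _ _).trans b2.le).trans (lt_add1 y).le,
          mk_succ b1⟩, ((le_max_left _ _).trans_lt b2).trans (lt_add1 y)⟩
      have hP' := fun j (hj : j ∈ J) => hP j hj.1 hj.2.1 hj.2.2
      have hR' := fun i (hi : i ∈ J) j (hj : j ∈ J) (h : j < i) =>
        hR i hi.1 j h hj.2.1 hj.2.2 hi.2.2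
      have hU : ∀ j ∈ J, ∃ β, β < m ∧ f j ⊆ F.U β := by
        intro j hj
        obtain ⟨β, b1, b2⟩ := (hP' j hj).2.2.2.1
        obtain ⟨y, c1, c2, c3⟩ := hm' j hj.1
        exact ⟨β, (b1.trans (hF.hs (hF.St_up hσ hj.2.1 hj.2.2)).lt').trans
          ((nxt_le c1 c2).trans_lt c3), b2⟩
      have hU' : ⋃₀ (f '' J) ⊆ F.U m := sUnion_subset (by
        rintro _ ⟨j, hj, rfl⟩
        obtain ⟨β, b1, b2⟩ := hU j hj
        exact b2.trans (hF.hU.mono b1.le))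
      have hle := fun j (hj : j ∈ J) => chain_union (fun i hi => (hP' i hi).1.val)
        (fun i hi j hj h => (hR' i hi j hj h).1) ((hF.hU.sm m).sub hU') hj
      have hσJ : σ ∈ J := ⟨hm, le_rfl, hσ.mkr⟩
      have hb : Below η1 (⋃₀ (f '' J)) := by
        rintro a ⟨_, ⟨j, hj, rfl⟩, ha⟩
        exact (hP' j hj).2.1 a ha
      have hpt : ∀ j ∈ J, ∀ η ∈ rows (f j), ∀ β, β < m → ∃ y, β ≤ y ∧ Atom.s η y ∈ ⋃₀ (f '' J) := by
        intro j hj η hη β hβ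
        obtain ⟨j', b1, b2⟩ := hJ _ (max_lt hβ hj.1)
        obtain ⟨j'', b3, b4⟩ := hJ _ b1.1
        obtain ⟨y, c1, c2⟩ := (hR' j'' b3 j' b1 b4).2 η
          (rows_mono (hR' j' b1 j hj ((le_max_right _ _).trans_lt b2)).1.sub hη)
        exact ⟨y, ((le_max_left _ _).trans b2.le).trans c1, _, ⟨j'', b3, rfl⟩, c2⟩
      refine ⟨⋃₀ (f '' J), fun _ _ => ⟨hF.T0 hT hb (hle σ hσJ).left hU' (fun η g1 g2 => ?_)
        (Cons.sUnion ?_), hb, (hle σ hσJ).trans (hP' σ hσJ).2.2.1, ⟨m, hst.lt, hU'⟩,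
        fun x g1 g2 g3 π g4 => ?_⟩, fun j g1 g2 g3 _ => ⟨hle j ⟨g1, g2, g3⟩,
          fun η g => hpt j ⟨g1, g2, g3⟩ η g j g1⟩⟩
      · obtain ⟨_, ⟨j, hj, rfl⟩, g3⟩ := mem_rows_sUnion.mp g1
        obtain ⟨β, b1, b2⟩ := hU j hj
        refine hF.sd_of (Init.sUnion ?_) hU' g1 (hpt j hj η g3)
          (hcl.inf β b1 η (rows_mono b2 g3) (hb.lt g1))
        rintro _ ⟨i, hi, rfl⟩
        exact hF.via_init (hP' i hi).1 g2 (rows_mono hU' g1)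
      · rintro _ ⟨i, hi, rfl⟩
        exact hF.via_cons (hP' i hi).1
      · obtain ⟨j, b1, b2⟩ := hJ x g3
        exact ((hP' j b1).2.2.2.2 x g1 g2 b2 π g4).mono (hle j b1))
  obtain ⟨a, -, b, -, c⟩ := hf m hm hm'
  exact ⟨_, a, b, c⟩

theorem one_step {n} {η1 : Row} {σ β0 W} (hT : F.TT n η1) (hM : η1 ∈ rows (F.M n))
    (hσ : F.Sd η1 σ W) (hW : Val W) (h1 : F.Via n (res W η1)) (h3 : β0 < F.H η1 σ)
    (h4 : res W η1 ⊆ F.U β0) (h6 : tail W η1 ⊆ F.U σ)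
    (h7 : ∀ η ∈ rows W, η ∈ rows (F.M n) → η ≤ η1) : F.Via n W := by
  have hWU : W ⊆ F.U (max β0 σ) := by
    rw [← res_union_tail W η1]
    exact union_subset (h4.trans (hF.hU.mono (le_max_left _ _)))
      (h6.trans (hF.hU.mono (le_max_right _ _)))
  refine hF.via_of_cp hWU fun r γ g1 g2 g3 => ?_
  have hs : ∀ {x}, Atom.s η1 x ∈ W ↔ x ∈ F.A η1 ∩ Iio σ := fun {x} => Set.ext_iff.mp hσ.2 x
  obtain ⟨r', a1, a2, a3, a4⟩ := hF.dirQ (β := max γ (max β0 σ)) g1 (hF.G_stem η1 hσ.1.row σ) g2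
    (by rintro _ ⟨x, -, rfl⟩; exact (hF.hM n).row η1 hM x)
    (g3.trans (hF.hU.mono (le_max_left _ _)))
    (by rintro _ ⟨x, hx, rfl⟩; exact hF.hU.mono (le_max_right _ _) (hWU (hs.mpr hx)))
  obtain ⟨γ', hγ'⟩ := (a1.val.sm.stem η1).bdd
  have hz := hF.nxt_mem hσ.1.row (max γ' σ)
  obtain ⟨w, b1, b2, b3⟩ := hF.one_chain hT hM hσ.1 h1 (below_res _ _) h3 h4
    (hW.le.tail η1).right h6 (((le_max_right _ _).trans hz.2).trans (lt_add1 _).le) (mk_succ hz.1)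
  obtain ⟨v, c1, c2⟩ := hF.via_cp b1 (a1.res η1) ((res_sub _ _).trans a2)
  have d1 := splice (below_res v η1) (c1.res_left (below_res _ _)) a1.val
  have d2 := splice (below_res v η1) ((c2.trans b2).res_left (below_res _ _)) hW
  have hin := hF.G_init a1 η1
  have e0 : ∀ (d : Dt) x, Atom.s η1 x ∈ res v η1 ∪ tail d η1 ↔ Atom.s η1 x ∈ d := fun d x =>
    ⟨fun g => g.elim (fun g => (lt_irrefl _ g.2).elim) (·.1), fun g => Or.inr ⟨g, lt_irrefl _⟩⟩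
  have d3 := ext_row d2.1.left (η := η1) (a1.val.sm.stem η1)
    (fun x hx y hy hxy => (e0 _ _).mpr (hs.mpr ⟨(hin x hx).1, hxy.trans (hs.mp ((e0 _ _).mp hy)).2⟩))
    (fun x hx hn π hπ => by
      have k1 : σ ≤ x := le_of_not_gt fun g => hn ((e0 _ _).mpr (hs.mpr ⟨(hin x hx).1, g⟩))
      have k2 := b3 x (hin x hx).1 k1 (((hγ' x hx).trans_le
        ((le_max_left _ _).trans hz.2)).trans (lt_add1 _)) π
        (hπ.elim (fun g => (lt_irrefl _ g.2).elim) id)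
      rw [mark_congr (t := stem (res v η1 ∪ tail W η1) η1 ∪ stem r' η1) (t' := F.A η1) (fun y hy => ⟨fun g => g.elim
        (fun g => (hs.mp ((e0 _ _).mp g)).1) (fun g => (hin y g).1),
          fun g => Or.inr ((hin x hx).2 y g hy)⟩)]
      exact (k2.mono c2).congr (agree_splice v W η1).symm)
  have hag : Agree η1 (res v η1 ∪ tail W η1 ∪ Atom.s η1 '' stem r' η1) v := by
    refine fun a ha => ⟨?_, fun g => Or.inl (Or.inl ⟨g, ha⟩)⟩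
    rintro (g | ⟨x, -, rfl⟩)
    exacts [(agree_splice v W η1 a ha).mp g, (lt_irrefl _ ha).elim]
  refine (cp_of_amalg d1.1.left d3.left ?_ ?_).mono (d1.1.trans a3) (d3.trans d2.1)
  · rintro α ξ k1 k2
    exact c1.left.func α ξ (k1.elim (agree_splice v r' η1).c.mp hag.c.mp)
      (k2.elim (agree_splice v r' η1).c.mp hag.c.mp)
  · intro η k1 k2
    rcases lt_trichotomy η η1 with h | rfl | h
    · rw [(agree_splice v r' η1).stem_eq (WithTop.coe_lt_coe.mpr h),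
        hag.stem_eq (WithTop.coe_lt_coe.mpr h)]
    · refine Set.ext fun x => ⟨fun g => Or.inr ⟨x, (e0 _ _).mp g, rfl⟩, ?_⟩
      rintro (g | ⟨y, g, k⟩)
      · exact (e0 _ _).mpr (a4.sub ⟨x, hs.mp ((e0 _ _).mp g), rfl⟩)
      · cases k; exact (e0 _ _).mpr g
    · have h' : ¬ (η : Lv) < η1 := not_lt.mpr (WithTop.coe_le_coe.mpr h.le)
      have m1 : η ∈ rows r' := (mem_rows_union.mp k1).elim
        (fun g => (h' (mem_rows_res.mp g).2).elim) (fun g => (mem_rows_tail.mp g).1)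
      have m2 : η ∈ rows W := by
        rcases mem_rows_union.mp k2 with g | ⟨x, y, -, g⟩ | ⟨x, y, -, g⟩
        · exact (mem_rows_union.mp g).elim
            (fun g => (h' (mem_rows_res.mp g).2).elim) (fun g => (mem_rows_tail.mp g).1)
        · cases g; exact (lt_irrefl _ h).elim
        · cases g
      exact absurd (h7 η m2 (rows_mono a2 m1)) (not_le.mpr h)

end Ok

end FD

end Pool.Agent.P.MP_b10269_lc
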