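import Mathlib
import Pool.Agent.P.MP_b10269_lc.T1

/-! Settled conditions lie in the quotient: rounds along a limit set of rows. -/

namespace Pool.Agent.P.MP_b10269_lc

open Cardinal Set

theorem stem_res {d : Dt} {ℓ : Lv} {η : Row} (h : (η : Lv) < ℓ) : stem (res d ℓ) η = stem d η :=
  ((agree_res ℓ d).stem_eq h).symm

namespace FD

variable (F : FD)

/-- A completely settled state. -/
structure State (n : ℕ) (σ : K) (w : Dt) : Prop where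
  val : Val w
  sub : w ⊆ F.U σ
  sd : ∀ η ∈ rows w, η ∈ rows (F.M n) → F.Sd η σ w
  cons : F.Cons n w

variable {F}

namespace Ok

variable (hF : F.Ok)
include hF

theorem round_lim {n σ} {f : Row → Dt} {b : Set Row} (hb : b.Nonempty)
    (hn : ∀ η ∈ b, ∃ η' ∈ b, η < η') (hst : ∀ η ∈ b, F.St η σ)
    (hP : ∀ η ∈ b, F.Via n (f η) ∧ Below η (f η) ∧ ∃ β, β < F.H η σ ∧ f η ⊆ F.U β)
    (hR : ∀ η ∈ b, ∀ η' ∈ b, η' < η → Le (f η) (f η') ∧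
      ∀ η'' ∈ rows (f η'), ∃ y, F.H η' σ ≤ y ∧ Atom.s η'' y ∈ f η) :
    ∃ σ' w, σ < σ' ∧ F.State n σ' w ∧ (∀ η ∈ b, Le w (f η)) ∧
      (∀ β, (∀ η ∈ b, F.H η σ < β) → σ' ≤ β) ∧ ∀ η' ∈ rows w, ∃ η ∈ b, η' < η := by
  obtain ⟨σ', h1, h2⟩ := (((hF.hU.sm σ).rows.sub (fun η hη => (hst η hη).row)).image
    (fun η => F.H η σ)).lub
  have h1' : ∀ η ∈ b, F.H η σ ≤ σ' := fun η hη => h1 _ ⟨η, hη, rfl⟩
  have hU : ⋃₀ (f '' b) ⊆ F.U σ' := sUnion_subset (by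
    rintro _ ⟨η, hη, rfl⟩
    obtain ⟨β, b1, b2⟩ := (hP η hη).2.2
    exact b2.trans (hF.hU.mono (b1.le.trans (h1' η hη))))
  have hle := fun η (hη : η ∈ b) => chain_union (fun i hi => (hP i hi).1.val)
    (fun i hi j hj h => (hR i hi j hj h).1) ((hF.hU.sm σ').sub hU) hη
  obtain ⟨η0, h0⟩ := hb
  refine ⟨σ', ⋃₀ (f '' b), (hF.hs (hst η0 h0)).lt.trans_le (h1' η0 h0),
    ⟨(hle η0 h0).left, hU, fun η g1 g2 => ?_, Cons.sUnion ?_⟩, hle, fun β hβ => ?_, fun η g => ?_⟩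
  · obtain ⟨_, ⟨η', k1, rfl⟩, k2⟩ := mem_rows_sUnion.mp g1
    refine hF.sd_of (Init.sUnion ?_) hU g1 (fun β hβ => ?_) ?_
    · rintro _ ⟨i, hi, rfl⟩
      exact hF.via_init (hP i hi).1 g2 (rows_mono hU g1)
    · obtain ⟨_, ⟨η1, a1, rfl⟩, a2⟩ := h2 β hβ
      have hm : max η1 η' ∈ b := by rcases max_choice η1 η' with h | h <;> rw [h] <;> assumption
      obtain ⟨η3, a3, a4⟩ := hn _ hm
      have a5 : η ∈ rows (f (max η1 η')) := by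
        rcases (le_max_right η1 η').lt_or_eq with h | h
        exacts [rows_mono (hR _ hm _ k1 h).1.sub k2, h ▸ k2]
      obtain ⟨y, a6, a7⟩ := (hR η3 a3 _ hm a4).2 η a5
      exact ⟨y, (a2.le.trans (hF.H_mono (hst _ a1) (hst _ hm) (le_max_left _ _))).trans a6,
        _, ⟨η3, a3, rfl⟩, a7⟩
    · obtain ⟨β, a1, a2⟩ := (hP η' k1).2.2
      exact ((hF.hs (hst η' k1)).cl.inf β a1 η (rows_mono a2 k2) ((hP η' k1).2.1.lt k2)).mono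
        (h1' η' k1)
  · rintro _ ⟨i, hi, rfl⟩
    exact hF.via_cons (hP i hi).1
  · refine le_of_not_gt fun g => ?_
    obtain ⟨_, ⟨η, a1, rfl⟩, a2⟩ := h2 β g
    exact absurd (hβ η a1) (not_lt.mpr a2.le)
  · obtain ⟨_, ⟨η', k1, rfl⟩, k2⟩ := mem_rows_sUnion.mp g
    exact ⟨η', k1, WithTop.coe_lt_coe.mp ((hP η' k1).2.1.lt k2)⟩

theorem round {n} {η0 : Lv} {σ ρ q r} {a : Set Row}
    (ha : ∀ η, η ∈ a ↔ η ∈ rows ρ ∧ η0 ≤ η ∧ η ∈ rows (F.M n)) (hne : a.Nonempty)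
    (hn : ∀ η ∈ a, ∃ η' ∈ a, η < η') (hT : ∀ η ∈ a, F.TT n η) (h1 : Val ρ) (h2 : ρ ⊆ F.U σ)
    (h3 : ∀ η ∈ a, F.Sd η σ ρ ∧ ∃ β, β < F.H η σ ∧ q ⊆ F.U β) (h4 : F.Via n q) (h5 : Below η0 q)
    (h6 : Le q (res ρ η0)) (r1 : F.G r) (r2 : r ⊆ F.M n) (r3 : r ⊆ F.U σ) :
    ∃ σ' w, σ < σ' ∧ F.State n σ' w ∧ Le w q ∧ (∀ η ∈ a, Le w (res ρ η) ∧ Le w (res r η)) ∧
      ∀ η' ∈ rows w, ∃ η ∈ a, η' < η := by
  obtain ⟨f, hP, hR⟩ := exists_rec' (I := Row)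
    (fun η v => η ∈ a → (F.Via n v ∧ Below η v ∧ ∃ β, β < F.H η σ ∧ v ⊆ F.U β) ∧
      Le v q ∧ Le v (res ρ η) ∧ Le v (res r η))
    (fun η' v' η v => η' ∈ a → η ∈ a → Le v v' ∧
      ∀ η'' ∈ rows v', ∃ y, F.H η' σ ≤ y ∧ Atom.s η'' y ∈ v) (by
    intro η f hP hR
    by_cases hη : η ∈ a
    swap
    · exact ⟨∅, fun g => (hη g).elim, fun _ _ _ g => (hη g).elim⟩
    have hs := hF.hs (h3 η hη).1.1
    obtain ⟨β1, b1, b2⟩ := hF.H_bound hs.cl hs.lt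
    have key : ∃ (ℓ0 : Lv) (q0 : Dt), F.Via n q0 ∧ Below ℓ0 q0 ∧ ℓ0 ≤ η ∧ Le q0 (res ρ ℓ0) ∧
        Le q0 q ∧ (∀ η' ∈ a, η' < η → Le q0 (f η')) ∧ (∃ β, β < F.H η σ ∧ q0 ⊆ F.U β) ∧
        ∀ η' ∈ rows ρ, η' < η → ℓ0 ≤ η' → η' ∈ rows (F.M n) →
          η' ∈ a ∧ ∃ β, β < F.H η' σ ∧ q0 ⊆ F.U β := by
      by_cases e1 : ∃ η' ∈ a, η' < η
      swap
      · exact ⟨η0, q, h4, h5, ((ha η).mp hη).2.1, h6, h4.val, fun η' g1 g2 => (e1 ⟨η', g1, g2⟩).elim,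
          (h3 η hη).2, fun η' g1 g2 g3 g4 => (e1 ⟨η', (ha η').mpr ⟨g1, g3, g4⟩, g2⟩).elim⟩
      by_cases e2 : ∃ η' ∈ a, η' < η ∧ ∀ η'' ∈ a, η'' < η → η'' ≤ η'
      · obtain ⟨η', c1, c2, c3⟩ := e2
        obtain ⟨⟨d1, d2, β, d3, d4⟩, d5, d6, -⟩ := hP η' c2 c1
        refine ⟨η', f η', d1, d2, WithTop.coe_le_coe.mpr c2.le, d6, d5, fun η'' g1 g2 => ?_,
          ⟨β, d3.trans_le (hF.H_mono (h3 η' c1).1.1 (h3 η hη).1.1 c2.le), d4⟩,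
          fun η'' g1 g2 g3 g4 => ?_⟩
        · rcases (c3 η'' g1 g2).lt_or_eq with h | rfl
          exacts [(hR η' c2 η'' h g1 c1).1, d1.val]
        · have g5 : η'' ∈ a := (ha η'').mpr ⟨g1, ((ha η').mp c1).2.1.trans g3, g4⟩
          obtain rfl : η'' = η' := le_antisymm (c3 η'' g5 g2) (WithTop.coe_le_coe.mp g3)
          exact ⟨c1, β, d3, d4⟩
      · push Not at e2
        obtain ⟨η1, c1, c2⟩ := e1
        have hn' : ∀ η' ∈ a ∩ Iio η, ∃ η'' ∈ a ∩ Iio η, η' < η'' := fun η' g =>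
          let ⟨η'', k1, k2, k3⟩ := e2 η' g.1 g.2; ⟨η'', ⟨k1, k2⟩, k3⟩
        obtain ⟨σ', w, -, d2, d3, d4, d5⟩ := hF.round_lim (n := n) (σ := σ) (f := f)
          (b := a ∩ Iio η) ⟨η1, c1, c2⟩ hn' (fun η' g => (h3 η' g.1).1.1)
          (fun η' g => (hP η' g.2 g.1).1) (fun η' g η'' g' h => hR η' g.2 η'' h g'.1 g.1)
        obtain ⟨ℓ, m1, m2⟩ := exists_lub (a ∩ Iio η)
        refine ⟨ℓ, w, hF.T0 (hT η hη) (below_of_rows fun η' g => ?_) d2.val d2.sub d2.sd d2.cons,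
          below_of_rows fun η' g => ?_, le_of_not_gt fun g => ?_,
          le_res_lub (b := a ∩ Iio η) ⟨η1, c1, c2⟩ (fun η' g => (d3 η' g).trans (hP η' g.2 g.1).2.2.1)
            (fun η' _ g => ?_), (d3 η1 ⟨c1, c2⟩).trans (hP η1 c2 c1).2.1,
          fun η' g1 g2 => d3 η' ⟨g1, g2⟩, ⟨σ', (d4 β1 fun η' g =>
            b2 η' (WithTop.coe_lt_coe.mpr g.2) (h3 η' g.1).1.1).trans_lt b1, d2.sub⟩,
          fun η' g1 g2 g3 g4 => ?_⟩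
        · obtain ⟨η'', k1, k2⟩ := d5 η' g
          exact WithTop.coe_lt_coe.mpr (k2.trans k1.2)
        · obtain ⟨η'', k1, k2⟩ := d5 η' g
          exact (WithTop.coe_lt_coe.mpr k2).trans (m1 η'' k1)
        · obtain ⟨η'', k1, k2⟩ := m2 η g
          exact absurd k1.2 (not_lt.mpr k2)
        · obtain ⟨η'', k1, k2⟩ := m2 η' g
          obtain ⟨η3, k3, k4⟩ := hn' η'' k1
          exact ⟨η3, k3, k2.trans_lt k4⟩
        · have := (ha η').mpr ⟨g1, (((ha η1).mp c1).2.1.trans (m1 η1 ⟨c1, c2⟩).le).trans g3, g4⟩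
          exact absurd (m1 η' ⟨this, g2⟩) (not_lt.mpr g3)
    obtain ⟨ℓ0, q0, c1, c2, c3, c4, c5, c6, ⟨β2, c7, c8⟩, c9⟩ := key
    have hv := (h1.le.res η).right
    rw [← res_res ρ c3] at c4
    have d1 := hT η hη ℓ0 σ (res ρ η) q0 (below_res _ _) hv ((res_sub _ _).trans h2)
      (fun η' g1 g2 g3 => by
        obtain ⟨g4, g5⟩ := mem_rows_res.mp g1
        obtain ⟨g6, g7⟩ := c9 η' g4 (WithTop.coe_lt_coe.mp g5) g2 g3
        exact ⟨⟨(h3 η' g6).1.1, (stem_res g5).trans (h3 η' g6).1.2⟩, g7⟩) c1 c2 c4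
    have d2 := splice c2 c4 hv
    have d3 : Below η (q0 ∪ tail (res ρ η) ℓ0) := by
      rintro x (g | g)
      exacts [(c2 x g).mono c3, g.1.2]
    have e0 : max (max β1 β2) σ < F.H η σ := max_lt (max_lt b1 c7) hs.lt
    have e1 : ∀ {d}, d ⊆ F.U σ → d ⊆ F.U (max (max β1 β2) σ + 1) := fun h =>
      h.trans (hF.hU.mono ((le_max_right _ _).trans (lt_add1 _).le))
    have e2 : q0 ∪ tail (res ρ η) ℓ0 ⊆ F.U (max (max β1 β2) σ + 1) := union_subset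
      (c8.trans (hF.hU.mono (((le_max_right _ _).trans (le_max_left _ _)).trans (lt_add1 _).le)))
      (e1 (((tail_sub _ _).trans (res_sub _ _)).trans h2))
    obtain ⟨β', k1, w, k2, k3, k4, k5, k6, -, k7⟩ := hF.req_V hs.cl (hs.cl.lim _ e0)
      (d2 := res r η) (d3 := ∅) e2 (e1 ((res_sub _ _).trans r3)) (empty_subset _) e2
      (lt_add1 _) (lt_add1 _) d3 (below_res _ _) d1 hF.G_empty (r1.res η) ((res_sub _ _).trans r2)
      (fun r1 v _ _ g1 g2 g3 => ⟨g3, g2.trans g1, fun _ _ _ h => h.elim⟩)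
    refine ⟨w, fun _ => ⟨⟨k3, k4, β', k1, k2⟩, (k5.trans d2.2).trans c5, k5.trans d2.1, k6⟩,
      fun η' g1 g2 _ => ⟨(k5.trans d2.2).trans (c6 η' g2 g1), fun η'' g3 => ?_⟩⟩
    have g4 := rows_mono (d2.2.trans (c6 η' g2 g1)).sub g3
    obtain ⟨y, m1, m2⟩ := k7 η'' g4 (d3.lt g4)
    exact ⟨y, ((b2 η' (WithTop.coe_lt_coe.mpr g1) (h3 η' g2).1.1).le.trans
      ((le_max_left _ _).trans (le_max_left _ _))).trans m1, m2⟩)
  obtain ⟨σ', w, d1, d2, d3, -, d5⟩ := hF.round_lim (n := n) (σ := σ) (f := f) hne hn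
    (fun η g => (h3 η g).1.1) (fun η g => (hP η g).1) (fun η g η' g' h => hR η η' h g' g)
  obtain ⟨η1, c1⟩ := hne
  exact ⟨σ', w, d1, d2, (d3 η1 c1).trans (hP η1 c1).2.1,
    fun η g => ⟨(d3 η g).trans (hP η g).2.2.1, (d3 η g).trans (hP η g).2.2.2⟩, d5⟩

theorem round_state {n σ w r} {a : Set Row} (hne : a.Nonempty) (hs : F.State n σ w)
    (ha : ∀ η ∈ a, η ∈ rows w ∧ η ∈ rows (F.M n)) (hr : ∀ η' ∈ rows w, ∃ η ∈ a, η' < η)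
    (hT : ∀ η ∈ a, ∀ η', η' ≤ η → F.TT n η') (r1 : F.G r) (r2 : r ⊆ F.M n) (r3 : r ⊆ F.U σ) :
    ∃ σ' w', σ < σ' ∧ F.State n σ' w' ∧ Le w' w ∧ (∀ η ∈ a, Le w' (res r η)) ∧
      ∀ η' ∈ rows w', ∃ η ∈ a, η' < η := by
  obtain ⟨ℓ0, h0⟩ := exists_lv0
  have h6 := (hs.val.le.res ℓ0).right
  have h7 := (res_sub w ℓ0).trans hs.sub
  have ha' : ∀ η ∈ a, η ∈ {η | η ∈ rows w ∧ ℓ0 ≤ η ∧ η ∈ rows (F.M n)} :=
    fun η g => ⟨(ha η g).1, h0 η, (ha η g).2⟩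
  obtain ⟨η1, c1⟩ := hne
  obtain ⟨σ', w', d1, d2, -, d4, d5⟩ := hF.round (η0 := ℓ0) (q := res w ℓ0)
    (a := {η | η ∈ rows w ∧ ℓ0 ≤ η ∧ η ∈ rows (F.M n)}) (fun _ => Iff.rfl) ⟨η1, ha' η1 c1⟩
    (fun η g => let ⟨η', k1, k2⟩ := hr η g.1; ⟨η', ha' η' k1, k2⟩)
    (fun η g => let ⟨η', k1, k2⟩ := hr η g.1; hT η' k1 η k2.le)
    hs.val hs.sub (fun η g => ⟨hs.sd η g.1 g.2.2, σ, (hF.hs (hs.sd η g.1 g.2.2).1).lt, h7⟩)
    (hF.via_base h6 h7 (fun α ξ b g => hs.cons α ξ b g.1)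
      (fun η g => absurd (mem_rows_res.mp g).2 (not_lt.mpr (h0 η)))) (below_res _ _) h6 r1 r2 r3
  refine ⟨σ', w', d1, d2, ?_, fun η g => (d4 η (ha' η g)).2, fun η' g => ?_⟩
  · have := le_res_lub (ℓ := ⊤) ⟨η1, c1⟩ (fun η g => (d4 η (ha' η g)).1) (fun η' g _ => hr η' g)
    rwa [res_top] at this
  · obtain ⟨η, k1, k2⟩ := d5 η' g
    obtain ⟨η'', k3, k4⟩ := hr η k1.1
    exact ⟨η'', k3, k2.trans k4⟩

theorem far_state {n σ w} {a : Set Row} (hne : a.Nonempty) (hs : F.State n σ w)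
    (ha : ∀ η ∈ a, η ∈ rows w ∧ η ∈ rows (F.M n)) (hr : ∀ η' ∈ rows w, ∃ η ∈ a, η' < η)
    (hT : ∀ η ∈ a, ∀ η', η' ≤ η → F.TT n η') (γ : K) :
    ∃ σ' w', γ ≤ σ' ∧ F.State n σ' w' ∧ Le w' w ∧ ∀ η' ∈ rows w', ∃ η ∈ a, η' < η := by
  obtain ⟨f, hP, -⟩ := exists_rec' (I := K) (X := K × Dt)
    (fun i z => i ≤ z.1 ∧ F.State n z.1 z.2 ∧ Le z.2 w ∧ ∀ η' ∈ rows z.2, ∃ η ∈ a, η' < η)
    (fun _ z' _ z => Le z.2 z'.2 ∧ z'.1 < z.1) (by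
    intro i f hP hR
    rcases eq_zero_or_pos i with rfl | hi
    · exact ⟨(σ, w), ⟨zero_le, hs, hs.val, hr⟩, fun j hj => absurd hj (not_lt.mpr zero_le)⟩
    obtain ⟨σ1, a1, a2⟩ := ((Sm.iio i).image (fun j => (f j).1)).lub
    have a1' : ∀ j, j < i → (f j).1 ≤ σ1 := fun j hj => a1 _ ⟨j, hj, rfl⟩
    have hU : ⋃₀ ((fun j => (f j).2) '' Iio i) ⊆ F.U σ1 := sUnion_subset (by
      rintro _ ⟨j, hj, rfl⟩
      exact (hP j hj).2.1.sub.trans (hF.hU.mono (a1' j hj)))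
    have hle := fun j (hj : j ∈ Iio i) => chain_union (f := fun j => (f j).2)
      (fun i hi => (hP i hi).2.1.val) (fun j hj k _ h => (hR j hj k h).1)
      ((hF.hU.sm σ1).sub hU) hj
    have hw := (hle 0 hi).trans (hP 0 hi).2.2.1
    have hst : F.State n σ1 (⋃₀ ((fun j => (f j).2) '' Iio i)) := by
      refine ⟨hw.left, hU, fun η g1 g2 => ?_, Cons.sUnion ?_⟩
      · obtain ⟨_, ⟨j, hj, rfl⟩, g3⟩ := mem_rows_sUnion.mp g1
        refine hF.sd_of (Init.sUnion ?_) hU g1 (fun β hβ => ?_)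
          (((hP j hj).2.1.sd η g3 g2).1.inf.mono (a1' j hj))
        · rintro _ ⟨k, hk, rfl⟩ y hy
          exact ((hP k hk).2.1.sd η (Or.inl ⟨y, hy⟩) g2).init y hy
        · obtain ⟨_, ⟨j', b1, rfl⟩, b2⟩ := a2 β hβ
          have hm : max j j' < i := max_lt hj b1
          have b3 : η ∈ rows (f (max j j')).2 := by
            rcases (le_max_left j j').lt_or_eq with h | h
            exacts [rows_mono (hR _ hm _ h).1.sub g3, h ▸ g3]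
          have b4 : β < (f (max j j')).1 := by
            rcases (le_max_right j j').lt_or_eq with h | h
            exacts [b2.trans (hR _ hm _ h).2, h ▸ b2]
          have b5 := (hP _ hm).2.1.sd η b3 g2
          obtain ⟨y, c1, c2, c3⟩ := b5.1.mkr β b4
          exact ⟨y, c2, _, ⟨_, hm, rfl⟩, (Set.ext_iff.mp b5.2 y).mpr ⟨c1, c3⟩⟩
      · rintro _ ⟨k, hk, rfl⟩
        exact (hP k hk).2.1.cons
    obtain ⟨σ', w', d1, d2, d3, -, d5⟩ := hF.round_state hne hst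
      (fun η g => ⟨rows_mono hw.sub (ha η g).1, (ha η g).2⟩)
      (fun η' g => by
        obtain ⟨_, ⟨j, hj, rfl⟩, g3⟩ := mem_rows_sUnion.mp g
        exact (hP j hj).2.2.2 η' g3) hT hF.G_empty (empty_subset _) (empty_subset _)
    refine ⟨(σ', w'), ⟨le_of_forall_lt fun j hj => ((hP j hj).1.trans (a1' j hj)).trans_lt d1,
      d2, d3.trans hw, d5⟩, fun j hj => ⟨d3.trans (hle j hj), (a1' j hj).trans_lt d1⟩⟩)
  exact ⟨_, _, hP γ⟩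

theorem TT_all (n : ℕ) (ℓ : Lv) : F.TT n ℓ := by
  induction ℓ using (wellFounded_lt (α := Lv)).induction with
  | _ ℓ ih =>
  intro η0 σ ρ q h1 h2 h3 h4 h5 h6 h7
  have hW := splice h6 h7 h2
  have hrow : ∀ η ∈ rows (q ∪ tail ρ η0), (η : Lv) < η0 ∨ (η ∈ rows ρ ∧ η0 ≤ η) := fun η g =>
    (mem_rows_union.mp g).imp h6.lt mem_rows_tail.mp
  have hres : ∀ ℓ', η0 ≤ ℓ' → res (q ∪ tail ρ η0) ℓ' = q ∪ tail (res ρ ℓ') η0 := by
    intro ℓ' h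
    refine Set.ext fun a => ⟨fun g => g.1.imp id (fun k => ⟨⟨k.1, g.2⟩, k.2⟩), ?_⟩
    rintro (g | g)
    exacts [⟨Or.inl g, (h6 a g).mono h⟩, ⟨Or.inr ⟨g.1.1, g.2⟩, g.1.2⟩]
  let a : Set Row := {η | η ∈ rows ρ ∧ η0 ≤ η ∧ η ∈ rows (F.M n)}
  rcases a.eq_empty_or_nonempty with ha | ha
  · refine Via.extras (ℓ := η0) ?_ hW.1.left (fun η g1 g2 => (hrow η g1).elim id (fun g => ?_))
    · have : res (q ∪ tail ρ η0) η0 = q := by
        have := (agree_splice q ρ η0).res_eq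
        rwa [h6.res_eq] at this
      rwa [this]
    · have : η ∈ a := ⟨g.1, g.2, g2⟩
      rw [ha] at this
      exact this.elim
  by_cases hm : ∃ η1 ∈ a, ∀ η ∈ a, η ≤ η1
  · obtain ⟨η1, ⟨a1, a2, a3⟩, a4⟩ := hm
    obtain ⟨b1, β, b2, b3⟩ := h4 η1 a1 a2 a3
    have hv := (h2.le.res η1).right
    refine hF.one_step (β0 := max β σ) (ih η1 (h1.lt a1)) a3 ⟨b1.1, ?_⟩ hW.1.left ?_
      (max_lt b2 (hF.hs b1.1).lt) ?_ ?_ (fun η g1 g2 => ?_)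
    · rw [← b1.2]
      exact Set.ext fun x => ⟨fun g => g.elim (fun g => absurd (h6 _ g) (not_lt.mpr a2)) (·.1),
        fun g => Or.inr ⟨g, not_lt.mpr a2⟩⟩
    · rw [hres η1 a2]
      refine ih η1 (h1.lt a1) η0 σ _ q (below_res _ _) hv ((res_sub _ _).trans h3)
        (fun η g1 g2 g3 => ?_) h5 h6 (by rwa [res_res ρ a2])
      obtain ⟨g4, g5⟩ := mem_rows_res.mp g1
      obtain ⟨g6, g7⟩ := h4 η g4 g2 g3
      exact ⟨⟨g6.1, (stem_res g5).trans g6.2⟩, g7⟩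
    · exact (res_sub _ _).trans (union_subset (b3.trans (hF.hU.mono (le_max_left _ _)))
        ((tail_sub _ _).trans (h3.trans (hF.hU.mono (le_max_right _ _)))))
    · rintro x ⟨g | g, g'⟩
      exacts [(g' ((h6 x g).mono a2)).elim, h3 g.1]
    · exact (hrow η g1).elim (fun g => WithTop.coe_le_coe.mp (g.le.trans a2))
        (fun g => a4 η ⟨g.1, g.2, g2⟩)
  push Not at hm
  have hT : ∀ η ∈ a, ∀ η', η' ≤ η → F.TT n η' := fun η g η' h =>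
    ih η' ((WithTop.coe_le_coe.mpr h).trans_lt (h1.lt g.1))
  obtain ⟨σ1, w1, -, c2, c3, c4, c5⟩ := hF.round (a := a) (fun _ => Iff.rfl) ha hm
    (fun η g => hT η g η le_rfl) h2 h3 (fun η g => h4 η g.1 g.2.1 g.2.2) h5 h6 h7 hF.G_empty
    (empty_subset _) (empty_subset _)
  have hA : ∀ η ∈ a, η ∈ rows w1 ∧ η ∈ rows (F.M n) := fun η g =>
    let ⟨η', k1, k2⟩ := hm η g
    ⟨rows_mono (c4 η' k1).1.sub (mem_rows_res.mpr ⟨g.1, WithTop.coe_lt_coe.mpr k2⟩), g.2.2⟩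
  obtain ⟨η1, e1⟩ := id ha
  obtain ⟨β, -, e2⟩ := (h4 η1 e1.1 e1.2.1 e1.2.2).2
  refine hF.via_of_cp (β := max β σ) (union_subset (e2.trans (hF.hU.mono (le_max_left _ _)))
    ((tail_sub _ _).trans (h3.trans (hF.hU.mono (le_max_right _ _))))) fun r γ g1 g2 g3 => ?_
  obtain ⟨σ2, w2, d1, d2, d3, d4⟩ := hF.far_state ha c2 hA c5 hT γ
  obtain ⟨σ3, w3, -, -, k3, k4, -⟩ := hF.round_state ha d2
    (fun η g => ⟨rows_mono d3.sub (hA η g).1, g.2.2⟩) d4 hT g1 g2 (g3.trans (hF.hU.mono d1))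
  obtain ⟨ℓ', m1, m2⟩ := exists_lub a
  have m3 : ∀ η' : Row, (η' : Lv) < ℓ' → ∃ η ∈ a, η' < η := fun η' g =>
    let ⟨η, k1, k2⟩ := m2 η' g; let ⟨η'', k3, k4⟩ := hm η k1; ⟨η'', k3, k2.trans_lt k4⟩
  refine cp_of_res (ℓ := ℓ') g1.val hW.1.left ⟨w3, le_res_lub ha k4 (fun η' _ => m3 η'),
    le_res_lub ha (fun η g => ?_) (fun η' _ => m3 η')⟩ (fun η n1 n2 => ?_)
  · rw [hres η g.2.1]
    exact le_union ((k3.trans d3).trans c3) (((k3.trans d3).trans (c4 η g).1).tail η0)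
  · exact (hrow η n2).elim (fun g => (g.trans_le e1.2.1).trans (m1 η1 e1))
      (fun g => m1 η ⟨g.1, g.2, rows_mono g2 n1⟩)

end Ok

end FD

end Pool.Agent.P.MP_b10269_lc
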