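import Mathlib
import Pool.Agent.P.MP_b10269_lc.T2

/-! Flipping a Cohen bit inside the quotient. -/

namespace Pool.Agent.P.MP_b10269_lc

open Cardinal Set

theorem le_cohen {v : Dt} (hv : Val v) {α ξ b} (h : Atom.c α ξ b ∈ v) : Le v {Atom.c α ξ b} :=
  le_of hv (singleton_subset_iff.mpr h) (fun _ _ _ _ g => by cases g) (fun _ _ _ _ _ g => by cases g)

namespace FD

variable (F : FD)

def Deep (ξ : K) (η : Row) (m : K) : Prop :=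
  F.St η m ∧ F.H η m ≤ ξ ∧ ξ < F.H η (F.nxt η m + 1)

/-- The statement proved by induction on the level. -/
def FF (n : ℕ) (ξ : K) (ℓ : Lv) : Prop :=
  ∀ σ ρ, σ ≤ ξ → F.G ρ → Below ℓ ρ → ρ ⊆ F.U σ → (∀ η ∈ rows ρ, η ∈ rows (F.M n) → F.Sd η σ ρ) →
    ∃ q, Below ℓ q ∧ Le q ρ ∧ Atom.c (F.al n) ξ false ∈ q ∧ F.Via n q

variable {F}

namespace Ok

variable (hF : F.Ok)
include hF

theorem deep_lt {ξ η η' m m'} (h : F.Deep ξ η m) (h' : F.Deep ξ η' m') (hlt : η < η') :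
    m' < m := by
  refine lt_of_not_ge fun hm => ?_
  have hs := hF.hs h'.1
  have h1 := rows_mono (hF.hU.mono hm) h.1.row
  have h2 := WithTop.coe_lt_coe.mpr hlt
  obtain ⟨y0, a1, a2, a3⟩ := hF.cl_lim hs.cl hs.lt h1 h2 m (hm.trans_lt hs.lt)
  obtain ⟨y, b1, b2, b3⟩ := hF.cl_lim hs.cl hs.lt h1 h2 _ ((nxt_le a1 a2.le).trans_lt a3)
  have hx := hF.nxt_mem h.1.row m
  have h3 := (hF.hs (hF.St_up h.1 (hx.2.trans (lt_add1 _).le) (mk_succ hx.1))).lt'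
  exact absurd (((h3.trans_le (nxt_le b1 (Order.add_one_le_of_lt b2))).trans b3).trans_le h'.2.1)
    (not_lt.mpr h.2.2.le)

theorem deep_bound (ξ : K) : ∃ n, ∀ η m, F.Deep ξ η m → lev η ≤ n := by
  have key : ∀ μ, ∃ n, ∀ η m, m < μ → F.Deep ξ η m → lev η ≤ n := by
    intro μ
    induction μ using (wellFounded_lt (α := K)).induction with
    | _ μ ih =>
      by_cases h : {η | ∃ m, m < μ ∧ F.Deep ξ η m}.Nonempty
      · obtain ⟨η1, ⟨m1, a1, a2⟩, a3⟩ := (wellFounded_lt (α := Row)).has_min _ h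
        obtain ⟨n, hn⟩ := ih m1 a1
        refine ⟨max n (lev η1), fun η m g1 g2 => ?_⟩
        rcases (not_lt.mp (a3 η ⟨m, g1, g2⟩)).lt_or_eq with g | rfl
        exacts [(hn η m (hF.deep_lt a2 g2 g) g2).trans (le_max_left _ _), le_max_right _ _]
      · exact ⟨0, fun η m g1 g2 => (h ⟨η, m, g1, g2⟩).elim⟩
  obtain ⟨n, hn⟩ := key ξ
  exact ⟨n, fun η m h => hn η m ((hF.hs h.1).lt.trans_le h.2.1) h⟩

theorem flip_req {n ξ ℓ δ β d q'} (hc : F.Cl ℓ δ) (h1 : ξ < δ) (h2 : β < δ) (h3 : d ⊆ F.U β)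
    (h4 : Below ℓ d) (g1 : F.Via n q') (g2 : Le q' d) (g3 : Atom.c (F.al n) ξ false ∈ q') :
    ∃ β', β' < δ ∧ ∃ q, q ⊆ F.U β' ∧ F.Via n q ∧ Below ℓ q ∧ Le q d ∧
      Atom.c (F.al n) ξ false ∈ q := by
  have e : ξ < max β (ξ + 1) := (lt_add1 ξ).trans_le (le_max_right _ _)
  obtain ⟨β', k1, w, k2, k3, k4, k5, k6, -⟩ := hF.req_V hc (max_lt h2 (hc.lim ξ h1))
    (d2 := {Atom.c (F.al n) ξ false}) (d3 := ∅) (d4 := ∅)
    (h3.trans (hF.hU.mono (le_max_left _ _))) (singleton_subset_iff.mpr (hF.hU.fl n e))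
    (empty_subset _) (empty_subset _) e e h4 (by rintro _ rfl; trivial) g1 hF.G_empty hF.G_empty
    (empty_subset _) (fun _ v _ _ _ _ g => ⟨g.trans g2, le_cohen g.left (g.sub g3),
      fun _ _ _ h => h.elim⟩)
  exact ⟨β', k1, w, k2, k3, k4, k5, k6.sub rfl⟩

theorem gamma_flip {n ξ σ δ ρ} {η1 : Row} (ih : F.FF n ξ η1) (hc : F.Cl η1 δ) (h1 : σ < δ)
    (h2 : δ ≤ ξ) (h3 : F.G ρ) (h4 : ρ ⊆ F.U σ) :
    ∃ Γ q', Γ ⊆ F.U δ ∧ Below η1 Γ ∧ Le Γ (res ρ η1) ∧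
      (∀ y ∈ F.A η1, σ ≤ y → y < δ → ∀ π, Atom.p η1 π ∈ ρ →
        Forc η1 Γ (π (mark (F.A η1) y) y)) ∧
      (∀ p β, F.G p → Below η1 p → β < δ → p ⊆ F.U β → Le Γ p) ∧
      F.Via n q' ∧ Le q' Γ ∧ Atom.c (F.al n) ξ false ∈ q' := by
  obtain ⟨Γ, a1, a2, a3, a4⟩ := hF.exists_gamma (L := {(η1 : Lv)}) ⟨_, rfl⟩ (δ := δ)
    (by rintro _ rfl; exact hc)
  have a5 : Below η1 Γ := below_of_rows fun η g => by
    obtain ⟨_, rfl, k⟩ := (a4 η g).1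
    exact k
  have a6 : ∀ p β, F.G p → Below η1 p → β < δ → p ⊆ F.U β → Le Γ p :=
    fun p β g1 g2 => a3 p β g1 ⟨_, rfl, g2⟩
  obtain ⟨q', -, b1, b2, b3⟩ := ih δ Γ h2 a1 a5 a2 (fun η g _ => (a4 η g).2)
  refine ⟨Γ, q', a2, a5, a6 _ σ (h3.res η1) (below_res _ _) h1 ((res_sub _ _).trans h4),
    fun y g1 g2 g3 π g4 => ?_, a6, b3, b1, b2⟩
  obtain ⟨p, c1, c2⟩ := hF.forc_new h3 g4 (fun g => absurd (hF.hU.hs (h4 g)) (not_lt.mpr g2)) g1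
  obtain ⟨β', k1, w, k2, k3, k4, -, -, k5, -⟩ := hF.req_G hc (hc.lim y g3) (d1 := ∅) (d2 := ∅)
    (d3 := {Atom.p η1 π}) (d4 := ∅) (empty_subset _) (empty_subset _)
    (singleton_subset_iff.mpr (hF.hU.mono (g2.trans (lt_add1 y).le) (h4 g4))) (empty_subset _)
    ((mark_le (F.A η1) y).trans_lt (lt_add1 y)) (lt_add1 y) hF.G_empty hF.G_empty
    (fun _ h => h.elim) (fun _ h => h.elim) ⟨p, c1, fun η π' _ h => by cases h; exact c2⟩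
  exact (k5 η1 π rfl rfl).mono (a6 w β' k3 k4 k1 k2)

theorem flip_max {n ξ σ ρ} {η1 : Row} (hn : ∀ η m, F.Deep ξ η m → lev η ≤ n) (ih : F.FF n ξ η1)
    (hM : η1 ∈ rows (F.M n)) (hσ : F.St η1 σ) (h2 : σ ≤ ξ) (h3 : F.G ρ) (h4 : ρ ⊆ F.U σ)
    (h5 : ∀ η ∈ rows ρ, η ∈ rows (F.M n) → F.Sd η σ ρ) :
    ∃ σ' q, σ ≤ σ' ∧ F.Mk η1 σ' ∧ (∃ β, β < F.H η1 σ' ∧ q ⊆ F.U β) ∧ F.Via n q ∧ Below η1 q ∧
      Le q (res ρ η1) ∧ Atom.c (F.al n) ξ false ∈ q ∧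
      ∀ y ∈ F.A η1, σ ≤ y → y < σ' → ∀ π, Atom.p η1 π ∈ ρ →
        Forc η1 q (π (mark (F.A η1) y) y) := by
  have hz := hF.nxt_mem hσ.row ξ
  have hz' := (h2.trans hz.2).trans (lt_add1 _).le
  obtain ⟨m, ⟨a1, a2, a3⟩, a4⟩ := (wellFounded_lt (α := K)).has_min
    {m | σ ≤ m ∧ F.Mk η1 m ∧ ξ < F.H η1 m} ⟨_, hz', mk_succ hz.1,
      (hz.2.trans_lt (lt_add1 _)).trans (hF.hs (hF.St_up hσ hz' (mk_succ hz.1))).lt⟩
  have hs := hF.hs (hF.St_up hσ a1 a2)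
  rcases a1.eq_or_lt with rfl | a1'
  · obtain ⟨q', -, b1, b2, b3⟩ := ih σ _ h2 (h3.res η1) (below_res _ _) ((res_sub _ _).trans h4)
      (fun η g1 g2 => let ⟨g3, g4⟩ := mem_rows_res.mp g1
        ⟨(h5 η g3 g2).1, (stem_res g4).trans (h5 η g3 g2).2⟩)
    obtain ⟨β', k1, q, k2, k3, k4, k5, k6⟩ := hF.flip_req hs.cl a3 hs.lt
      ((res_sub _ _).trans h4) (below_res _ _) b3 b1 b2
    exact ⟨σ, q, le_rfl, a2, ⟨β', k1, k2⟩, k3, k4, k5, k6, fun y _ g1 g2 => absurd g2 (not_lt.mpr g1)⟩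
  by_cases hx : ∃ x ∈ F.A η1, x < m ∧ ∀ y ∈ F.A η1, y < m → y ≤ x
  · obtain ⟨x, b1, b2, b3⟩ := hx
    obtain rfl : m = x + 1 := le_antisymm (le_of_not_gt fun g =>
      let ⟨y, c1, c2, c3⟩ := a2 _ g
      absurd ((lt_add1 x).trans_le c2) (not_lt.mpr (b3 y c1 c3))) (Order.add_one_le_of_lt b2)
    have b4 : σ ≤ x := Order.lt_add_one_iff.mp a1'
    have b5 := hσ.mkr.le_mark b4
    have b6 : mark (F.A η1) x < x + 1 := (mark_le _ _).trans_lt b2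
    have hj' := hF.St_up hσ b5 (mk_mark η1 x)
    have hj := hF.hs hj'
    have hnx := hF.nxt_mark hσ.row b1
    have b7 : F.H η1 (mark (F.A η1) x) ≤ ξ :=
      le_of_not_gt fun g => a4 _ ⟨b5, mk_mark η1 x, g⟩ b6
    have hlev := hn η1 _ ⟨hj', b7, by rw [hnx]; exact a3⟩
    obtain ⟨Γ, q', c1, c2, c3, c4, c5, c6, c7, c8⟩ := hF.gamma_flip ih hj.cl (b5.trans_lt hj.lt)
      b7 h3 h4
    obtain ⟨β1, d1, w, d2, d3, d4, d5⟩ := req_dec hj.cl (hj.cl.lim _ hj.lt)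
      (h4.trans (hF.hU.mono (b5.trans (lt_add1 _).le))) (lt_add1 _) h3.val
    obtain ⟨p, e1, e2⟩ := hj.c2
    rw [hnx] at e2
    have e3 : F.H η1 (mark (F.A η1) x) < x := hj.lt'.trans_eq hnx
    have e4 : x < max (x + 1) (ξ + 1) := (lt_add1 x).trans_le (le_max_left _ _)
    obtain ⟨β', k1, q, k2, k3, k4, k5, k6, k7, -⟩ := hF.req_V hs.cl
      (max_lt hs.lt (hs.cl.lim ξ a3)) (d2 := {Atom.c (F.al n) ξ false}) (d3 := ρ) (d4 := ∅)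
      (c1.trans (hF.hU.mono (e3.trans e4).le))
      (singleton_subset_iff.mpr (hF.hU.fl n ((lt_add1 ξ).trans_le (le_max_right _ _))))
      (h4.trans (hF.hU.mono (b4.trans e4.le))) (empty_subset _) ((mark_le (F.A η1) x).trans_lt e4)
      e4 c2 (by rintro _ rfl; trivial) c6 e1 hF.G_empty (empty_subset _)
      (fun r1 v g1 g2 g3 g4 g5 => ⟨g5.trans c7, le_cohen g5.left (g5.sub c8), fun η π h g => by
        cases h
        obtain ⟨u, γ, m1, m2, m3⟩ := e2 w π (d2.trans (hF.hU.mono d1.le))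
          (hF.hU.mono (b5.trans hj.lt.le) (h4 g)) (d5 π g)
        refine ((dec_iff d3.val).mp m1).2.2 x m2 v ((g5.trans c7).trans (c5 w β1 d3 d4 d1 d2))
          (fun j hj => Forc.mono ?_ g4)
        exact (hF.hM n).red_forc g3.left g1 g2 e1.val (m3 j hj) ((hF.hM n).fam η1 hM hlev j x)⟩)
    refine ⟨x + 1, q, a1, a2, ⟨β', k1, k2⟩, k3, k4, k5.trans c3, k6.sub rfl,
      fun y g1 g2 g3 π g4 => ?_⟩
    rcases (b3 y g1 g3).lt_or_eq with h | rfl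
    exacts [(c4 y g1 g2 ((lt_mark g1 h).trans hj.lt) π g4).mono k5, k7 η1 π rfl g4]
  · push Not at hx
    have hl : ∀ β, β < m → ∃ y ∈ F.A η1, β < y ∧ y < m := by
      intro β hβ
      obtain ⟨y, b1, b2, b3⟩ := a2 β hβ
      obtain ⟨z, c1, c2, c3⟩ := hx y b1 b3
      exact ⟨z, c1, b2.trans_lt c3, c2⟩
    have hcl := hF.cl_of_lim hσ a1' hl
    have hm : m ≤ ξ := le_of_not_gt fun g => by
      obtain ⟨y, b1, b2, b3⟩ := hl ξ g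
      have b4 := (h2.trans b2.le).trans (lt_add1 y).le
      exact a4 (y + 1) ⟨b4, mk_succ b1, (b2.trans (lt_add1 y)).trans
        (hF.hs (hF.St_up hσ b4 (mk_succ b1))).lt⟩ (hcl.lim y b3)
    obtain ⟨Γ, q', c1, c2, c3, c4, -, c6, c7, c8⟩ := hF.gamma_flip ih hcl a1' hm h3 h4
    obtain ⟨β', k1, q, k2, k3, k4, k5, k6⟩ := hF.flip_req hs.cl a3 hs.lt c1 c2 c6 c7 c8
    exact ⟨m, q, a1, a2, ⟨β', k1, k2⟩, k3, k4, k5.trans c3, k6,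
      fun y g1 g2 g3 π g4 => (c4 y g1 g2 g3 π g4).mono k5⟩

theorem flip_lim {ξ σ} {a : Set Row} (hne : a.Nonempty) (hn : ∀ η ∈ a, ∃ η' ∈ a, η < η')
    (hst : ∀ η ∈ a, F.St η σ) (h2 : σ ≤ ξ) :
    ∃ τ, τ ≤ ξ ∧ (τ = σ ∨ (σ < τ ∧ ∀ η ∈ a, ∀ β, β < τ → ∃ y ∈ F.A η, β < y ∧ y < τ)) ∧
      (∀ η ∈ a, F.St η τ) ∧ ∃ η ∈ a, ξ < F.H η τ := by
  let Z : Set K := {τ | τ ≤ ξ ∧
    (τ = σ ∨ (σ < τ ∧ ∀ η ∈ a, ∀ β, β < τ → ∃ y ∈ F.A η, β < y ∧ y < τ))}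
  obtain ⟨τ, a1, a2⟩ := ((Sm.iic ξ).sub (t := Z) (fun _ h => h.1)).lub
  have a3 : σ ≤ τ := a1 σ ⟨h2, Or.inl rfl⟩
  have a4 : τ ∈ Z := by
    refine ⟨le_of_forall_lt fun β hβ => let ⟨_, b1, b2⟩ := a2 β hβ; b2.trans_le b1.1, ?_⟩
    rcases a3.eq_or_lt with h | h
    · exact Or.inl h.symm
    · refine Or.inr ⟨h, fun η hη β hβ => ?_⟩
      obtain ⟨τ', b1, b2⟩ := a2 _ (max_lt hβ h)
      rcases b1.2 with b3 | b3
      · exact absurd ((le_max_right _ _).trans_lt b2) (by rw [b3]; exact lt_irrefl _)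
      · obtain ⟨y, c1, c2, c3⟩ := b3.2 η hη β ((le_max_left _ _).trans_lt b2)
        exact ⟨y, c1, c2, c3.trans_le (a1 τ' b1)⟩
  have a5 : ∀ η ∈ a, F.St η τ := fun η hη => a4.2.elim (fun h => h ▸ hst η hη)
    (fun h => hF.St_up (hst η hη) a3 fun β hβ =>
      let ⟨y, c1, c2, c3⟩ := h.2 η hη β hβ; ⟨y, c1, c2.le, c3⟩)
  refine ⟨τ, a4.1, a4.2, a5, ?_⟩
  by_contra hc
  push Not at hc
  obtain ⟨τ', b1, b2⟩ := (((hF.hU.sm τ).rows.sub (fun η hη => (a5 η hη).row)).image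
    (fun η => F.H η τ)).lub
  obtain ⟨η0, h0⟩ := hne
  have b3 : τ < τ' := (hF.hs (a5 η0 h0)).lt.trans_le (b1 _ ⟨η0, h0, rfl⟩)
  refine absurd (a1 τ' ⟨le_of_forall_lt fun β hβ => ?_, Or.inr ⟨a3.trans_lt b3,
    fun η hη β hβ => ?_⟩⟩) (not_le.mpr b3)
  · obtain ⟨_, ⟨η, c1, rfl⟩, c2⟩ := b2 β hβ
    exact c2.trans_le (hc η c1)
  · obtain ⟨_, ⟨η', c1, rfl⟩, c2⟩ := b2 β hβ
    have hm : max η η' ∈ a := by rcases max_choice η η' with h | h <;> rw [h] <;> assumption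
    obtain ⟨η'', c3, c4⟩ := hn _ hm
    have hs := hF.hs (a5 η'' c3)
    obtain ⟨y, d1, d2, d3⟩ := hF.cl_lim hs.cl hs.lt (a5 η hη).row
      (WithTop.coe_lt_coe.mpr ((le_max_left _ _).trans_lt c4)) β
      (c2.trans_le (hF.H_mono (a5 η' c1) (a5 η'' c3) ((le_max_right _ _).trans c4.le)))
    exact ⟨y, d1, d2, d3.trans_le (b1 _ ⟨η'', c3, rfl⟩)⟩

theorem FF_all {n ξ} (hn : ∀ η m, F.Deep ξ η m → lev η ≤ n) (ℓ : Lv) : F.FF n ξ ℓ := by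
  induction ℓ using (wellFounded_lt (α := Lv)).induction with
  | _ ℓ ih =>
  intro σ ρ h1 h2 h3 h4 h5
  let a : Set Row := {η | η ∈ rows ρ ∧ η ∈ rows (F.M n)}
  rcases a.eq_empty_or_nonempty with ha | ha
  · have hr : ∀ η, η ∉ rows {Atom.c (F.al n) ξ false} := by
      rintro η (⟨_, g⟩ | ⟨_, g⟩) <;> cases g
    have b1 : Le (ρ ∪ {Atom.c (F.al n) ξ false}) ρ := by
      refine amalg h2.val (val_of (Sm.single _) (fun _ _ g => by cases g)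
        (fun _ _ g => by cases g)) ?_ (fun η _ g => (hr η g).elim)
      rintro α ξ' (g1 | g1) (g2 | g2)
      · exact h2.val.func α ξ' g1 g2
      · cases g2; exact absurd (hF.hU.hc (h4 g1)) (not_lt.mpr h1)
      · cases g1
      · cases g1
    refine ⟨_, ?_, b1, Or.inr rfl, hF.via_base (β := ξ + 1) b1.left (union_subset
      (h4.trans (hF.hU.mono (h1.trans (lt_add1 ξ).le)))
      (singleton_subset_iff.mpr (hF.hU.fl n (lt_add1 ξ)))) ?_ (fun η g1 g2 => ?_)⟩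
    · rintro x (g | rfl)
      exacts [h3 x g, trivial]
    · rintro α ξ' b (g | g) r g1 g2 g3
      · obtain ⟨v, -, c1, c2⟩ := hF.dir h2 g1
        cases b
        exacts [c1.left.func α ξ' (c2.sub g3) (c1.sub g), c1.left.func α ξ' (c1.sub g) (c2.sub g3)]
      · cases g; exact hF.hal n _ _ (g2 g3)
    · have : η ∈ a := ⟨(mem_rows_union.mp g1).resolve_right (hr η), g2⟩
      rw [ha] at this
      exact this
  by_cases hm : ∃ η1 ∈ a, ∀ η ∈ a, η ≤ η1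
  · obtain ⟨η1, ⟨a1, a2⟩, a3⟩ := hm
    have hσ := h5 η1 a1 a2
    obtain ⟨σ', q, b1, b2, ⟨β, b3, b4⟩, b5, b6, b7, b8, b9⟩ := hF.flip_max hn
      (ih η1 (h3.lt a1)) a2 hσ.1 h1 h2 h4 h5
    have c1 := splice b6 b7 h2.val
    have e0 : ∀ x, Atom.s η1 x ∈ q ∪ tail ρ η1 ↔ x ∈ F.A η1 ∩ Iio σ := fun x => by
      rw [← hσ.2]
      exact ⟨fun g => g.elim (fun g => (lt_irrefl _ (b6 _ g)).elim) (·.1),
        fun g => Or.inr ⟨g, lt_irrefl _⟩⟩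
    have hag : Agree η1 (q ∪ tail ρ η1) q := by
      have := agree_splice q ρ η1
      rwa [b6.res_eq] at this
    have c2 := ext_row c1.1.left (η := η1) (T := F.A η1 ∩ Iio σ')
      ((Sm.iio σ').sub inter_subset_right)
      (fun x hx y hy hxy => (e0 x).mpr ⟨hx.1, hxy.trans ((e0 y).mp hy).2⟩)
      (fun x hx hn π hπ => by
        rw [mark_congr (t := stem (q ∪ tail ρ η1) η1 ∪ F.A η1 ∩ Iio σ') (t' := F.A η1)
          (fun y hy => ⟨fun g => g.elim (fun g => ((e0 y).mp g).1) (·.1),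
            fun g => Or.inr ⟨g, hy.trans hx.2⟩⟩)]
        exact (b9 x hx.1 (le_of_not_gt fun g => hn ((e0 x).mpr ⟨hx.1, g⟩)) hx.2 π
          (hπ.elim (fun g => (lt_irrefl _ (b6 _ g)).elim) (·.1))).congr hag.symm)
    have c3 : res (q ∪ tail ρ η1 ∪ Atom.s η1 '' (F.A η1 ∩ Iio σ')) η1 = q := by
      refine Set.ext fun x => ⟨?_, fun g => ⟨Or.inl (Or.inl g), b6 x g⟩⟩
      rintro ⟨g | ⟨y, -, rfl⟩, g'⟩
      exacts [(hag x g').mp g, (lt_irrefl _ g').elim]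
    refine ⟨_, ?_, c2.trans c1.1, Or.inl (Or.inl b8), hF.one_step (β0 := β) (hF.TT_all n η1) a2
      ⟨hF.St_up hσ.1 b1 b2, Set.ext fun x => ⟨?_, fun g => Or.inr ⟨x, g, rfl⟩⟩⟩ c2.left
      (c3.symm ▸ b5) b3 (c3.symm ▸ b4) ?_ (fun η g1 g2 => ?_)⟩
    · rintro x ((g | g) | ⟨y, -, rfl⟩)
      exacts [(b6 x g).mono (h3.lt a1).le, h3 x g.1, h3.lt a1]
    · rintro (g | ⟨y, g, k⟩)
      · exact ⟨((e0 x).mp g).1, ((e0 x).mp g).2.trans_le b1⟩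
      · cases k; exact g
    · rintro x ⟨(g | g) | ⟨y, g, rfl⟩, g'⟩
      · exact (g' (b6 x g)).elim
      · exact hF.hU.mono b1 (h4 g.1)
      · rcases b1.eq_or_lt with rfl | h
        exacts [h4 ((Set.ext_iff.mp hσ.2 y).mpr g), hF.hU.row hσ.1.row h g.2]
    · rcases mem_rows_union.mp g1 with g | ⟨x, y, -, g⟩ | ⟨x, y, -, g⟩
      · exact (mem_rows_union.mp g).elim (fun g => (WithTop.coe_lt_coe.mp (b6.lt g)).le)
          (fun g => a3 η ⟨(mem_rows_tail.mp g).1, g2⟩)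
      · cases g; exact le_rfl
      · cases g
  push Not at hm
  obtain ⟨τ, a1, a2, a3, ηf, a4, a5⟩ := hF.flip_lim ha hm (fun η g => (h5 η g.1 g.2).1) h1
  have key : ∃ ρ', Le ρ' ρ ∧ ρ' ⊆ F.U τ ∧ Below ℓ ρ' ∧
      (∀ η ∈ rows ρ', η ∈ rows (F.M n) → F.Sd η τ ρ') ∧ F.G (res ρ' ηf) := by
    rcases a2 with rfl | ⟨a6, a7⟩
    · exact ⟨ρ, h2.val, h4, h3, h5, h2.res _⟩
    obtain ⟨Γ, b1, b2, b3, b4⟩ := hF.exists_gamma (L := (fun η : Row => (η : Lv)) '' a)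
      (ha.image _) (δ := τ) (by
        rintro _ ⟨η, g, rfl⟩
        exact hF.cl_of_lim (h5 η g.1 g.2).1 a6 (a7 η g))
    obtain ⟨ℓ', m1, m2⟩ := exists_lub a
    have m3 : Below ℓ' Γ := below_of_rows fun η g => by
      obtain ⟨_, ⟨η', k1, rfl⟩, k2⟩ := (b4 η g).1
      exact k2.trans (m1 η' k1)
    have m4 := splice m3 (le_res_lub ha (fun η g => b3 _ σ (h2.res η) ⟨_, ⟨η, g, rfl⟩,
      below_res _ _⟩ a6 ((res_sub _ _).trans h4)) (fun η' _ g =>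
        let ⟨η, k1, k2⟩ := m2 η' g; let ⟨η'', k3, k4⟩ := hm η k1; ⟨η'', k3, k2.trans_lt k4⟩)) h2.val
    have hag : Agree ℓ' (Γ ∪ tail ρ ℓ') Γ := by
      have := agree_splice Γ ρ ℓ'
      rwa [m3.res_eq] at this
    refine ⟨_, m4.1, union_subset b2 ((tail_sub _ _).trans (h4.trans (hF.hU.mono a6.le))),
      below_of_rows fun η g => ?_, fun η g1 g2 => ?_, ?_⟩
    · rcases mem_rows_union.mp g with g | g
      · obtain ⟨_, ⟨η', k1, rfl⟩, k2⟩ := (b4 η g).1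
        exact k2.trans (h3.lt k1.1)
      · exact h3.lt (mem_rows_tail.mp g).1
    · rcases mem_rows_union.mp g1 with g | g
      · exact ⟨(b4 η g).2.1, (hag.stem_eq (m3.lt g)).trans (b4 η g).2.2⟩
      · exact absurd (m1 η ⟨(mem_rows_tail.mp g).1, g2⟩) (not_lt.mpr (mem_rows_tail.mp g).2)
    · rw [(hag.mono (m1 ηf a4).le).res_eq]
      exact b1.res _
  obtain ⟨ρ', b1, b2, b3, b4, b5⟩ := key
  obtain ⟨q', -, c1, c2, c3⟩ := ih ηf (h3.lt a4.1) τ _ a1 b5 (below_res _ _)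
    ((res_sub _ _).trans b2) (fun η g1 g2 => let ⟨g3, g4⟩ := mem_rows_res.mp g1
      ⟨(b4 η g3 g2).1, (stem_res g4).trans (b4 η g3 g2).2⟩)
  have hs := hF.hs (a3 ηf a4)
  obtain ⟨β', k1, q, k2, k3, k4, k5, k6⟩ := hF.flip_req hs.cl a5 hs.lt
    ((res_sub _ _).trans b2) (below_res _ _) c3 c1 c2
  refine ⟨q ∪ tail ρ' ηf, ?_, (splice k4 k5 b1.left).1.trans b1, Or.inl k6,
    hF.TT_all n ℓ ηf τ ρ' q b3 b1.left b2 (fun η g1 g2 g3 => ⟨b4 η g1 g3, β',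
      k1.trans_le (hF.H_mono (a3 ηf a4) (b4 η g1 g3).1 (WithTop.coe_le_coe.mp g2)), k2⟩) k3 k4 k5⟩
  rintro x (g | g)
  exacts [(k4 x g).mono (h3.lt a4.1).le, b3 x g.1]

end Ok

end FD

end Pool.Agent.P.MP_b10269_lc
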