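import Mathlib
import Pool.Agent.P.MP_b10269_lc.Card
import Pool.Agent.P.MP_b10269_lc.Iface

/-! Names for ordinals and subsets of `κ`; covers and cardinal comparison. -/

namespace Pool.Agent.P.MP_b10269_lc

universe u

open Name

section ordinals

variable {B : Type u} [CompleteBooleanAlgebra B] {W : Type u} [LinearOrder W] [WellFoundedLT W]

/-- The name of the von Neumann ordinal of an element of a well-order. -/
noncomputable def ordN : W → Name B :=
  (wellFounded_lt (α := W)).fix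
    (fun w ih => Name.mk (Set.Iio w) (fun v => ih v.1 v.2) (fun _ => ⊤))

theorem ordN_eq (w : W) :
    (ordN w : Name B) = Name.mk (Set.Iio w) (fun v => ordN v.1) (fun _ => ⊤) := by
  unfold ordN
  rw [WellFounded.fix_eq]

theorem mem_ordN (U : Ultra B) {x y : W} (h : x < y) :
    mem U (mk U (ordN x)) (mk U (ordN y)) := by
  rw [ordN_eq y]
  exact mem_mk_of (ι := Set.Iio y) (A := fun v => ordN v.1) ⟨x, h⟩ U.top

theorem ordN_inj (U : Ultra B) {x y : W} (h : mk U (ordN x) = mk U (ordN y)) : x = y := by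
  rcases lt_trichotomy x y with h1 | h1 | h1
  · have := mem_ordN U h1
    rw [h] at this
    exact absurd this (mod_irrefl U _)
  · exact h1
  · have := mem_ordN U h1
    rw [h] at this
    exact absurd this (mod_irrefl U _)

theorem lt_of_mem_ordN (U : Ultra B) {x y : W} (h : mem U (mk U (ordN x)) (mk U (ordN y))) :
    x < y := by
  by_contra hc
  rw [ordN_eq y] at h
  refine of_mem_mk (P := fun V z => ¬ z = mk V (ordN x)) (fun z => (Rep.eq z _).not) ?_ U _ h rfl
  intro v V _ h1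
  apply hc
  rw [← ordN_inj V h1]
  exact v.2

/-- The name of the order type of a well-order. -/
noncomputable def allN (B : Type u) [CompleteBooleanAlgebra B] (W : Type u) [LinearOrder W]
    [WellFoundedLT W] : Name B := Name.mk W ordN (fun _ => ⊤)

theorem ordN_mem_allN (U : Ultra B) (x : W) : mem U (mk U (ordN x)) (mk U (allN B W)) :=
  mem_mk_of (A := fun x : W => ordN x) x U.top

theorem covered_allN (p : B) : Covered p (allN B W) (fun x : W => ordN x) :=
  covered_mk p _ _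

theorem of_mem_allN {P : ∀ U : Ultra B, Mod U → Prop} (hP : ∀ x, Rep (fun U => P U (mk U x)))
    (H : ∀ (i : W) U, P U (mk U (ordN i))) (U : Ultra B) (y : Mod U)
    (hy : mem U y (mk U (allN B W))) : P U y :=
  of_mem_mk hP (fun i V _ => H i V) U y hy

theorem isOrd_allN (U : Ultra B) : IsOrd (mem U) (mk U (allN B W)) := by
  constructor
  · intro x y hx hy
    refine of_mem_allN (P := fun V x => ∀ y, mem V y x → mem V y (mk V (allN B W)))
      (fun x => Rep.all (fun y => (Rep.mem y x).imp (Rep.mem y _))) ?_ U x hx y hy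
    intro i V y hy
    rw [ordN_eq i] at hy
    exact of_mem_mk (P := fun V y => mem V y (mk V (allN B W))) (fun y => Rep.mem y _)
      (fun v V _ => ordN_mem_allN V v.1) V y hy
  · intro x y hx hy
    refine of_mem_allN
      (P := fun V x => ∀ y, mem V y (mk V (allN B W)) → mem V x y ∨ x = y ∨ mem V y x)
      (fun x => Rep.all (fun y => (Rep.mem y _).imp
        ((Rep.mem x y).or ((Rep.eq x y).or (Rep.mem y x))))) ?_ U x hx y hy
    intro i V y hy
    refine of_mem_allN
      (P := fun V y => mem V (mk V (ordN i)) y ∨ mk V (ordN i) = y ∨ mem V y (mk V (ordN i)))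
      (fun y => (Rep.mem _ y).or ((Rep.eq _ y).or (Rep.mem y _))) ?_ V y hy
    intro j V'
    rcases lt_trichotomy i j with h | h | h
    · exact Or.inl (mem_ordN V' h)
    · exact Or.inr (Or.inl (by rw [h]))
    · exact Or.inr (Or.inr (mem_ordN V' h))

/-- The comparison lemma: a set covered along a well-order `W` injects into `Y`, unless `Y` is
covered along a proper initial segment of `W`. -/
theorem cmp_cover {q : B} {X : Name B} {x : W → Name B} (hX : Covered q X x) (Y : Name B) :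
    Forces q (fun U => CardLE (mem U) (mk U X) (mk U Y)) ∨
      ∃ (r : B) (w : W) (y : Set.Iio w → Name B), r ≠ ⊥ ∧ r ≤ q ∧ Covered r Y y := by
  have hw : ∀ Z : Name B, ∃ u : Name B, ∀ U : Ultra B,
      (∃ z, mem U z (mk U Y) ∧ ¬ mem U z (mk U Z)) →
        mem U (mk U u) (mk U Y) ∧ ¬ mem U (mk U u) (mk U Z) := fun Z =>
    Rep.witness (P := fun U z => mem U z (mk U Y) ∧ ¬ mem U z (mk U Z))
      (fun z => (Rep.mem z Y).and (Rep.mem z Z).not)
  choose nxt hnxt using hw
  let y : W → Name B := (wellFounded_lt (α := W)).fix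
    (fun w ih => nxt (Name.mk (Set.Iio w) (fun v => ih v.1 v.2) (fun _ => ⊤)))
  let prev : W → Name B := fun w => Name.mk (Set.Iio w) (fun v => y v.1) (fun _ => ⊤)
  have hy : ∀ w, y w = nxt (prev w) := fun w => by
    simp only [y, prev]
    rw [WellFounded.fix_eq]
  by_cases hall : ∀ w, Forces q (fun U => ∃ z, mem U z (mk U Y) ∧ ¬ mem U z (mk U (prev w)))
  · left
    have h1 : ∀ w U, U.s q → mem U (mk U (y w)) (mk U Y) ∧ ¬ mem U (mk U (y w)) (mk U (prev w)) :=
      fun w U hU => by rw [hy w]; exact hnxt _ U (hall w U hU)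
    have key : ∀ v w U, U.s q → v < w → mk U (y v) = mk U (y w) → False := by
      intro v w U hU hvw he
      apply (h1 w U hU).2
      rw [← he]
      exact mem_mk_of (ι := Set.Iio w) (A := fun v => y v.1) ⟨v, hvw⟩ U.top
    refine forces_cardLE hX (z := y) (fun w U hU => (h1 w U hU).1) (fun v w U hU he => ?_)
    rcases lt_trichotomy v w with h | h | h
    · exact (key v w U hU h he).elim
    · exact h
    · exact (key w v U hU h he.symm).elim
  · right
    push Not at hall
    obtain ⟨w, hw⟩ := hall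
    simp only [Forces, not_forall] at hw
    obtain ⟨U, hU, hn⟩ := hw
    obtain ⟨r, h1, h2, h3⟩ := (Rep.ex (P := fun U z => mem U z (mk U Y) ∧
      ¬ mem U z (mk U (prev w))) (fun z => (Rep.mem z Y).and (Rep.mem z _).not)).not.localize hn hU
    refine ⟨r, w, fun v => y v.1, h1, h2, (covered_mk r _ (fun _ => ⊤)).subset ?_⟩
    intro V hV z hz
    by_contra hc
    exact h3 V hV ⟨z, hz, hc⟩

end ordinals

section covers

variable {B : Type u} [CompleteBooleanAlgebra B]

/-- A set that injects into a covered set is covered by a family with the same index set. -/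
theorem inv_cover {J : Type u} {p : B} {Y Z : Name B} {z : J → Name B} (hZ : Covered p Z z)
    (h : Forces p (fun U => CardLE (mem U) (mk U Y) (mk U Z))) :
    ∃ y : J → Name B, Covered p Y y := by
  obtain ⟨f, hf⟩ := Forces.ex (P := fun U f => IsInjection (mem U) f (mk U Y) (mk U Z))
    (fun f => rep_inj f Y Z) h
  choose y hy using fun j : J => Rep.witness
    (P := fun U a => Rel (mem U) (mk U f) a (mk U (z j))) (fun a => rep_rel f a _)
  refine ⟨y, fun u q hq hqp hu => ?_⟩
  obtain ⟨b, hb⟩ := Forces.ex (P := fun U b => Rel (mem U) (mk U f) (mk U u) b)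
    (fun b => rep_rel f _ b) (p := q) (fun V hV => (hf V (V.mono hqp hV)).2.1 _ (hu V hV))
  obtain ⟨j, r, g1, g2, g3⟩ := hZ b q hq hqp
    (fun V hV => (hf V (V.mono hqp hV)).mem_right (hb V hV))
  refine ⟨j, r, g1, g2, fun V hV => ?_⟩
  have k1 := hb V (V.mono g2 hV)
  beta_reduce at k1
  rw [g3 V hV] at k1
  exact (hf V (V.mono (g2.trans hqp) hV)).2.2.2 _ _ _ k1 (hy j V ⟨_, k1⟩)

theorem Covered.reindex {I J : Type u} {p : B} {Y : Name B} {y : I → Name B} {y' : J → Name B}
    (h : Covered p Y y) (e : ∀ i, ∃ j, y' j = y i) : Covered p Y y' := by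
  intro u q hq hqp hu
  obtain ⟨i, r, h1, h2, h3⟩ := h u q hq hqp hu
  obtain ⟨j, hj⟩ := e i
  exact ⟨j, r, h1, h2, by rw [hj]; exact h3⟩

/-- Elimination rule for membership in a covered set. -/
theorem Covered.elim {I : Type u} {p : B} {Y : Name B} {y : I → Name B} (h : Covered p Y y)
    {P : ∀ U : Ultra B, Mod U → Prop} (hP : ∀ x, Rep (fun U => P U (mk U x)))
    (H : ∀ i U, U.s p → mem U (mk U (y i)) (mk U Y) → P U (mk U (y i))) (U : Ultra B)
    (hU : U.s p) (x : Mod U) (hx : mem U x (mk U Y)) : P U x := by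
  obtain ⟨x, rfl⟩ := mk_surj x
  refine Rep.imp_of_dense (P := fun V => V.s p ∧ mem V (mk V x) (mk V Y))
    ((Rep.of_s p).and (Rep.mem x Y)) (hP x) (fun q hq hF => ?_) U ⟨hU, hx⟩
  obtain ⟨i, r, g1, g2, g3⟩ := h x q hq (le_of_ultra (fun V hV => (hF V hV).1))
    (fun V hV => (hF V hV).2)
  refine ⟨r, g1, g2, fun V hV => ?_⟩
  have k := hF V (V.mono g2 hV)
  beta_reduce at k
  show P V (mk V x)
  rw [g3 V hV] at k ⊢
  exact H i V k.1 k.2

end covers

section small

variable {B : Type 1} [CompleteBooleanAlgebra B]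

/-- Deciding a small cover against a family of names. -/
theorem decide_cover (hd : Distrib B) {ι J : Type 1} [Small.{0} ι] {p : B} (hp : p ≠ ⊥)
    {G : Name B} {y : ι → Name B} (h : Covered p G y) (z : J → Name B) :
    ∃ (s : B) (u : Set J), s ≠ ⊥ ∧ s ≤ p ∧ Small.{0} u ∧ ∀ j t, t ≠ ⊥ → t ≤ s →
      Forces t (fun U => mem U (mk U (z j)) (mk U G)) →
        ∃ j' ∈ u, ∃ t', t' ≠ ⊥ ∧ t' ≤ t ∧ Forces t' (fun U => mk U (z j) = mk U (z j')) := by
  obtain ⟨s, hs, hsp, hΦ⟩ := hd ι
    (fun i a => (∃ j, Forces a (fun U => mk U (y i) = mk U (z j))) ∨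
      ∀ j, Forces a (fun U => ¬ mk U (y i) = mk U (z j)))
    (fun i a b hab hb => hb.imp (fun ⟨j, hj⟩ => ⟨j, hj.mono hab⟩) (fun H j => (H j).mono hab))
    (fun i a ha => by
      by_cases hc : ∀ j, Forces a (fun U => ¬ mk U (y i) = mk U (z j))
      · exact ⟨a, ha, le_rfl, Or.inr hc⟩
      · simp only [Forces, not_forall, not_not] at hc
        obtain ⟨j, U, hU, he⟩ := hc
        obtain ⟨r, h1, h2, h3⟩ := (Rep.eq (y i) (z j)).localize he hU
        exact ⟨r, h1, h2, Or.inl ⟨j, h3⟩⟩) p hp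
  let ι' := {i : ι // ∃ j, Forces s (fun U => mk U (y i) = mk U (z j))}
  choose g hg using fun i : ι' => i.2
  refine ⟨s, Set.range g, hs, hsp, inferInstance, fun j t ht hts hm => ?_⟩
  obtain ⟨i, r, g1, g2, g3⟩ := h (z j) t ht (hts.trans hsp) hm
  rcases hΦ i with hi | hi
  · refine ⟨g ⟨i, hi⟩, ⟨_, rfl⟩, r, g1, g2, fun V hV => ?_⟩
    exact (g3 V hV).trans (hg ⟨i, hi⟩ V (V.mono (g2.trans hts) hV))
  · obtain ⟨V, hV⟩ := exists_ultra g1
    exact absurd (g3 V hV).symm (hi j V (V.mono (g2.trans hts) hV))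

/-- The name of `κ`. -/
noncomputable abbrev kN (B : Type 1) [CompleteBooleanAlgebra B] : Name B := allN B K

/-- The trace of a name on `κ`. -/
noncomputable def tr (Y : Name B) (x : K) : B := bmem (ordN x) Y

theorem tr_iff {U : Ultra B} {Y : Name B} {x : K} :
    U.s (tr Y x) ↔ mem U (mk U (ordN x)) (mk U Y) := Iff.rfl

/-- Below `p`, the set `Y` is covered by a small family of names. -/
def SmallCov (p : B) (Y : Name B) : Prop :=
  ∃ (ι : Type 1) (_ : Small.{0} ι) (y : ι → Name B), Covered p Y y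

theorem SmallCov.bdd (hd : Distrib B) {p : B} (hp : p ≠ ⊥) {Y : Name B} (h : SmallCov p Y) :
    ∃ (r : B) (β : K), r ≠ ⊥ ∧ r ≤ p ∧ ∀ x, β ≤ x → r ≤ (tr Y x)ᶜ := by
  obtain ⟨ι, _, y, hy⟩ := h
  obtain ⟨s, u, hs, hsp, hu, H⟩ := decide_cover hd hp hy (fun x : K => (ordN x : Name B))
  obtain ⟨β, hβ⟩ := Ordinal.bddAbove_of_small (s := u)
  refine ⟨s, β + 1, hs, hsp, fun x hx => le_compl_of (fun t ht hts htr => ?_)⟩
  obtain ⟨j, hj, t', g1, -, g3⟩ := H x t ht hts (fun U hU => U.mono htr hU)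
  obtain ⟨V, hV⟩ := exists_ultra g1
  have e := ordN_inj V (g3 V hV)
  have h1 : j ≤ β := hβ hj
  rw [← e] at h1
  exact absurd (hx.trans h1) (by simp)

theorem tr_kN (x : K) : tr (kN B) x = ⊤ :=
  top_le_iff.mp (le_of_ultra (fun U _ => ordN_mem_allN U x))

theorem SmallCov.lt (hd : Distrib B) {p : B} {Y : Name B} (h : SmallCov p Y) :
    Forces p (fun U => CardLT (mem U) (mk U Y) (mk U (kN B))) := by
  obtain ⟨ι, hι, y, hy⟩ := h
  have h1 : Forces p (fun U => CardLE (mem U) (mk U Y) (mk U (kN B))) := by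
    let e : ι → K := fun i =>
      Ordinal.typein (WellOrderingRel (α := Shrink.{0} ι)) (equivShrink ι i)
    have he : Function.Injective e := fun i j hij =>
      (equivShrink ι).injective ((Ordinal.typein (WellOrderingRel (α := Shrink.{0} ι))).injective
        hij)
    exact forces_cardLE hy (z := fun i => ordN (e i)) (fun i U _ => ordN_mem_allN U _)
      (fun i j U _ hij => he (ordN_inj U hij))
  have h2 : Forces p (fun U => ¬ CardLE (mem U) (mk U (kN B)) (mk U Y)) := by
    refine (rep_cardLE _ _).not.of_contra (fun q hq hqp hF => ?_)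
    obtain ⟨y', hy'⟩ := inv_cover (hy.mono hqp) (Y := kN B) (fun U hU => not_not.mp (hF U hU))
    obtain ⟨r, β, g1, -, g3⟩ := SmallCov.bdd hd hq ⟨ι, hι, y', hy'⟩
    have := g3 β le_rfl
    rw [tr_kN, compl_top] at this
    exact g1 (le_bot_iff.mp this)
  exact fun U hU => ⟨h1 U hU, h2 U hU⟩

theorem exists_smallCov {p : B} (hp : p ≠ ⊥) {Y : Name B}
    (h : Forces p (fun U => ¬ CardLE (mem U) (mk U (kN B)) (mk U Y))) :
    ∃ r, r ≠ ⊥ ∧ r ≤ p ∧ SmallCov r Y := by
  rcases cmp_cover (covered_allN (W := K) p) Y with h1 | ⟨r, w, y, h1, h2, h3⟩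
  · obtain ⟨U, hU⟩ := exists_ultra hp
    exact absurd (h1 U hU) (h U hU)
  · exact ⟨r, h1, h2, _, inferInstance, y, h3⟩

/-- A subset of `κ` that is forced to be bounded is covered by a small family. -/
theorem smallCov_of_bdd {p : B} {Y : Name B} {β : K}
    (hY : Forces p (fun U => ∀ x, mem U x (mk U Y) → mem U x (mk U (kN B))))
    (h : ∀ x, β ≤ x → p ≤ (tr Y x)ᶜ) : SmallCov p Y := by
  refine ⟨Set.Iio β, inferInstance, fun v => ordN v.1, fun u q hq hqp hu => ?_⟩
  obtain ⟨x, r, g1, g2, g3⟩ := covered_allN (W := K) q u q hq le_rfl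
    (fun V hV => hY V (V.mono hqp hV) _ (hu V hV))
  have hx : x < β := by
    by_contra hc
    obtain ⟨V, hV⟩ := exists_ultra g1
    have k1 := hu V (V.mono g2 hV)
    beta_reduce at k1
    rw [g3 V hV] at k1
    exact V.compl_iff.mp (V.mono ((g2.trans hqp).trans (h x (not_lt.mp hc))) hV) k1
  exact ⟨⟨x, hx⟩, r, g1, g2, g3⟩

theorem Unb.mono {p q : B} {a : K → B} (h : Unb p a) (hq : q ≤ p) : Unb q a :=
  fun β => hq.trans (h β)

theorem Unb.exists {p : B} {a : K → B} (h : Unb p a) (hp : p ≠ ⊥) (β : K) :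
    ∃ x r, β ≤ x ∧ r ≠ ⊥ ∧ r ≤ p ∧ r ≤ a x := by
  obtain ⟨x, r, g1, g2, g3⟩ := exists_of_le_iSup hp (h β)
  obtain ⟨hx, r', k1, k2, k3⟩ := exists_of_le_iSup g1 g3
  exact ⟨x, r', hx, k1, k2.trans g2, k3⟩

theorem unb_of_dense {p : B} {a : K → B}
    (H : ∀ β q, q ≠ ⊥ → q ≤ p → ∃ x r, β ≤ x ∧ r ≠ ⊥ ∧ r ≤ q ∧ r ≤ a x) : Unb p a := by
  intro β
  refine le_of_dense (fun q hq hqp => ?_)
  obtain ⟨x, r, g1, g2, g3, g4⟩ := H β q hq hqp
  exact ⟨r, g2, g3, le_iSup_of_le x (le_iSup_of_le g1 g4)⟩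

theorem cardLE_of_unb (hd : Distrib B) {p : B} {Y : Name B} (h : Unb p (tr Y)) :
    Forces p (fun U => CardLE (mem U) (mk U (kN B)) (mk U Y)) := by
  refine (rep_cardLE _ _).of_contra (fun q hq hqp hF => ?_)
  obtain ⟨r, g1, g2, g3⟩ := exists_smallCov hq hF
  obtain ⟨s, β, k1, k2, k3⟩ := g3.bdd hd g1
  obtain ⟨x, t, m1, m2, m3, m4⟩ := (h.mono (k2.trans (g2.trans hqp))).exists k1 β
  exact false_of_le_compl m2 m4 (m3.trans (k3 x m1))

theorem unb_of_cardLE (hd : Distrib B) {p : B} {Y : Name B}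
    (hY : Forces p (fun U => ∀ x, mem U x (mk U Y) → mem U x (mk U (kN B))))
    (h : Forces p (fun U => CardLE (mem U) (mk U (kN B)) (mk U Y))) : Unb p (tr Y) := by
  refine unb_of_dense (fun β q hq hqp => ?_)
  by_contra hc
  push Not at hc
  have h1 : SmallCov q Y := smallCov_of_bdd (β := β) (hY.mono hqp)
    (fun x hx => le_compl_of (fun t ht h1 h2 => hc x t hx ht h1 h2))
  obtain ⟨U, hU⟩ := exists_ultra hq
  exact (h1.lt hd U hU).2 (h U (U.mono hqp hU))

end small

end Pool.Agent.P.MP_b10269_lc
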