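import Mathlib
import Pool.Agent.P.MP_b10269_lc.Layer1

/-! Almost inclusion, regularity of `κ`, families of subsets of `κ` in the quotient models. -/

namespace Pool.Agent.P.MP_b10269_lc

universe u

open Name

section rep

variable {B : Type u} [CompleteBooleanAlgebra B]

theorem rep_sub (A C : Name B) :
    Rep (fun U => ∀ x, mem U x (mk U A) → mem U x (mk U C)) :=
  Rep.all (fun x => (Rep.mem x A).imp (Rep.mem x C))

theorem rep_big (k A : Name B) : Rep (fun U => Big (mem U) (mk U k) (mk U A)) :=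
  (rep_sub A k).and (rep_cardLE k A)

theorem rep_almostSub (k A C : Name B) :
    Rep (fun U => AlmostSub (mem U) (mk U k) (mk U A) (mk U C)) :=
  Rep.ex (fun D => (Rep.all (fun x => (Rep.mem x D).iff ((Rep.mem x A).and (Rep.mem x C).not))).and
    (rep_cardLT D k))

theorem rep_inter (k G : Name B) : Rep (fun U => ∃ I,
    (∀ x, mem U x I ↔ mem U x (mk U k) ∧ ∀ A, mem U A (mk U G) → mem U x A) ∧
      CardLE (mem U) (mk U k) I) :=
  Rep.ex (fun I => (Rep.all (fun x => (Rep.mem x I).iff ((Rep.mem x k).and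
    (Rep.all (fun A => (Rep.mem A G).imp (Rep.mem x A)))))).and (rep_cardLE k I))

theorem rep_sip (k F : Name B) : Rep (fun U => SIP (mem U) (mk U k) (mk U F)) :=
  Rep.all (fun G => (rep_sub G F).imp ((rep_cardLT G k).imp (rep_inter k G)))

theorem rep_pi (k F : Name B) : Rep (fun U => ∃ P, Big (mem U) (mk U k) P ∧
    ∀ A, mem U A (mk U F) → AlmostSub (mem U) (mk U k) P A) :=
  Rep.ex (fun P => (rep_big k P).and
    (Rep.all (fun A => (Rep.mem A F).imp (rep_almostSub k P A))))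

theorem rep_pfam (k F : Name B) : Rep (fun U => PFam (mem U) (mk U k) (mk U F)) :=
  (Rep.all (fun A => (Rep.mem A F).imp (rep_big k A))).and ((rep_sip k F).and (rep_pi k F).not)

theorem rep_isOrd (d : Name B) : Rep (fun U => IsOrd (mem U) (mk U d)) :=
  (Rep.all (fun x => Rep.all (fun y => (Rep.mem x d).imp ((Rep.mem y x).imp (Rep.mem y d))))).and
    (Rep.all (fun x => Rep.all (fun y => (Rep.mem x d).imp ((Rep.mem y d).imp
      ((Rep.mem x y).or ((Rep.eq x y).or (Rep.mem y x)))))))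

theorem rep_tower (k T : Name B) : Rep (fun U => Tower (mem U) (mk U k) (mk U T)) :=
  (rep_pfam k T).and (Rep.ex (fun d => Rep.ex (fun f => (rep_isOrd d).and
    ((Rep.all (fun a => (Rep.mem a d).imp (Rep.ex (fun A => (Rep.mem A T).and
      (rep_rel f a A))))).and
    ((Rep.all (fun a => Rep.all (fun A => Rep.all (fun A' => (rep_rel f a A).imp
      ((rep_rel f a A').imp (Rep.eq A A')))))).and
    ((Rep.all (fun A => (Rep.mem A T).imp (Rep.ex (fun a => (Rep.mem a d).and
      (rep_rel f a A))))).and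
    (Rep.all (fun a => Rep.all (fun b => Rep.all (fun A => Rep.all (fun A' => (Rep.mem a b).imp
      ((Rep.mem b d).imp ((rep_rel f a A).imp ((rep_rel f b A').imp
        (rep_almostSub k A' A)))))))))))))))

end rep

variable {B : Type 1} [CompleteBooleanAlgebra B]

theorem ASub.mono {p q : B} {a b : K → B} (h : ASub p a b) (hq : q ≤ p) : ASub q a b :=
  fun r hr hrq => h r hr (hrq.trans hq)

theorem ASub.trans {p : B} {a b c : K → B} (h1 : ASub p a b) (h2 : ASub p b c) : ASub p a c := by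
  intro q hq hqp
  obtain ⟨r, β, g1, g2, g3⟩ := h1 q hq hqp
  obtain ⟨s, γ, k1, k2, k3⟩ := h2 r g1 (g2.trans hqp)
  refine ⟨s, max β γ, k1, k2.trans g2, fun x hx => ?_⟩
  exact (le_inf inf_le_left ((inf_le_inf_right _ k2).trans (g3 x (le_of_max_le_left hx)))).trans
    (k3 x (le_of_max_le_right hx))

theorem asub_of_almostSub (hd : Distrib B) {p : B} {A C : Name B}
    (h : Forces p (fun U => AlmostSub (mem U) (mk U (kN B)) (mk U A) (mk U C))) :
    ASub p (tr A) (tr C) := by
  intro q hq hqp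
  obtain ⟨D, hD⟩ := Forces.ex (P := fun U D =>
    (∀ x, mem U x D ↔ mem U x (mk U A) ∧ ¬ mem U x (mk U C)) ∧ CardLT (mem U) D (mk U (kN B)))
    (fun D => (Rep.all (fun x => (Rep.mem x D).iff ((Rep.mem x A).and (Rep.mem x C).not))).and
      (rep_cardLT D _)) (h.mono hqp)
  obtain ⟨r, g1, g2, g3⟩ := exists_smallCov hq (Y := D) (fun U hU => (hD U hU).2.2)
  obtain ⟨s, β, k1, k2, k3⟩ := g3.bdd hd g1
  refine ⟨s, β, k1, k2.trans g2, fun x hx => le_of_ultra (fun U hU => ?_)⟩
  rw [U.inf_iff] at hU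
  by_contra hc
  exact U.compl_iff.mp (U.mono (k3 x hx) hU.1)
    (tr_iff.mpr (((hD U (U.mono (k2.trans g2) hU.1)).1 _).mpr ⟨tr_iff.mp hU.2, hc⟩))

theorem almostSub_of_asub (hd : Distrib B) {p : B} {A C : Name B}
    (hA : Forces p (fun U => ∀ x, mem U x (mk U A) → mem U x (mk U (kN B))))
    (h : ASub p (tr A) (tr C)) :
    Forces p (fun U => AlmostSub (mem U) (mk U (kN B)) (mk U A) (mk U C)) := by
  refine (rep_almostSub _ A C).of_dense (fun q hq hqp => ?_)
  obtain ⟨r, β, g1, g2, g3⟩ := h q hq hqp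
  obtain ⟨D, hD⟩ := exists_sep A (P := fun U x => ¬ mem U x (mk U C)) (fun x => (Rep.mem x C).not)
  have h1 : SmallCov r D := by
    refine smallCov_of_bdd (β := β)
      (fun U hU x hx => hA U (U.mono (g2.trans hqp) hU) x ((hD U x).mp hx).1)
      (fun x hx => le_of_ultra (fun U hU => U.compl_iff.mpr (fun hx' => ?_)))
    have k := (hD U _).mp (tr_iff.mp hx')
    exact k.2 (tr_iff.mp (U.mono (g3 x hx) (U.inf hU k.1)))
  exact ⟨r, g1, g2, fun U hU => ⟨_, hD U, h1.lt hd U hU⟩⟩

theorem almostSub_trans (hd : Distrib B) (U : Ultra B) {A C D : Mod U}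
    (hA : ∀ x, mem U x A → mem U x (mk U (kN B)))
    (h1 : AlmostSub (mem U) (mk U (kN B)) A C) (h2 : AlmostSub (mem U) (mk U (kN B)) C D) :
    AlmostSub (mem U) (mk U (kN B)) A D := by
  obtain ⟨A, rfl⟩ := mk_surj A
  obtain ⟨C, rfl⟩ := mk_surj C
  obtain ⟨D, rfl⟩ := mk_surj D
  obtain ⟨b, hb⟩ := (rep_sub A (kN B)).and ((rep_almostSub (kN B) A C).and
    (rep_almostSub (kN B) C D))
  exact almostSub_of_asub hd (p := b) (fun V hV => ((hb V).mp hV).1)
    ((asub_of_almostSub hd (fun V hV => ((hb V).mp hV).2.1)).trans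
      (asub_of_almostSub hd (fun V hV => ((hb V).mp hV).2.2))) U ((hb U).mpr ⟨hA, h1, h2⟩)

theorem almostSub_of_sub (hd : Distrib B) (U : Ultra B) {A C : Mod U}
    (hA : ∀ x, mem U x A → mem U x (mk U (kN B))) (h : ∀ x, mem U x A → mem U x C) :
    AlmostSub (mem U) (mk U (kN B)) A C := by
  obtain ⟨A, rfl⟩ := mk_surj A
  obtain ⟨C, rfl⟩ := mk_surj C
  obtain ⟨b, hb⟩ := (rep_sub A (kN B)).and (rep_sub A C)
  refine almostSub_of_asub hd (p := b) (fun V hV => ((hb V).mp hV).1) ?_ U ((hb U).mpr ⟨hA, h⟩)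
  intro q hq hqb
  refine ⟨q, 0, hq, le_rfl, fun x _ => le_of_ultra (fun V hV => ?_)⟩
  rw [V.inf_iff] at hV
  exact tr_iff.mpr (((hb V).mp (V.mono hqb hV.1)).2 _ (tr_iff.mp hV.2))

theorem isRegUnc_kN (hd : Distrib B) (U : Ultra B) : IsRegUnc (mem U) (mk U (kN B)) := by
  refine ⟨isOrd_allN U, fun hc => ?_, ?_, ?_⟩
  · obtain ⟨q, hq, -, h3⟩ := (rep_countable (kN B)).localize hc U.top
    obtain ⟨y, hy⟩ := exists_cover_of_countable h3
    obtain ⟨r, β, g1, -, g3⟩ := SmallCov.bdd hd hq ⟨_, inferInstance, y, hy⟩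
    have := g3 β le_rfl
    rw [tr_kN, compl_top] at this
    exact g1 (le_bot_iff.mp this)
  · refine of_mem_allN (P := fun V a => CardLT (mem V) a (mk V (kN B)))
      (fun a => rep_cardLT a _) (fun i V => ?_) U
    have h1 : SmallCov (⊤ : B) (ordN i) := by
      rw [ordN_eq i]
      exact ⟨_, inferInstance, _, covered_mk _ _ _⟩
    exact h1.lt hd V V.top
  · intro X h1 h2
    obtain ⟨X, rfl⟩ := mk_surj X
    obtain ⟨b, hb⟩ := (rep_sub X (kN B)).and (Rep.all (P := fun V a => mem V a (mk V (kN B)) →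
      ∃ x, mem V x (mk V X) ∧ (mem V a x ∨ a = x)) (fun a => (Rep.mem a _).imp
        (Rep.ex (fun x => (Rep.mem x X).and ((Rep.mem a x).or (Rep.eq a x))))))
    refine cardLE_of_unb hd (p := b) (unb_of_dense (fun β q hq hqb => ?_)) U
      ((hb U).mpr ⟨h1, h2⟩)
    obtain ⟨u, hu⟩ := Forces.ex (P := fun V x => mem V x (mk V X) ∧
      (mem V (mk V (ordN β)) x ∨ mk V (ordN β) = x))
      (fun x => (Rep.mem x X).and ((Rep.mem _ x).or (Rep.eq _ x))) (p := q)
      (fun V hV => ((hb V).mp (V.mono hqb hV)).2 _ (ordN_mem_allN V β))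
    obtain ⟨x, r, g1, g2, g3⟩ := covered_allN (W := K) q u q hq le_rfl
      (fun V hV => ((hb V).mp (V.mono hqb hV)).1 _ (hu V hV).1)
    have k : ∀ V : Ultra B, V.s r → mem V (mk V (ordN x)) (mk V X) ∧
        (mem V (mk V (ordN β)) (mk V (ordN x)) ∨ mk V (ordN β) = mk V (ordN x)) := by
      intro V hV
      have := hu V (V.mono g2 hV)
      beta_reduce at this
      rwa [g3 V hV] at this
    refine ⟨x, r, ?_, g1, g2, le_of_ultra (fun V hV => (k V hV).1)⟩
    obtain ⟨V, hV⟩ := exists_ultra g1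
    rcases (k V hV).2 with h | h
    · exact (lt_of_mem_ordN V h).le
    · exact (ordN_inj V h).le

/-- The name of the subset of `κ` with Boolean characteristic function `a`. -/
noncomputable def setN (a : K → B) : Name B := Name.mk K ordN a

theorem tr_setN (a : K → B) : tr (setN a) = a := by
  funext x
  apply le_antisymm
  · refine le_of_ultra (fun U hU => ?_)
    refine of_mem_mk (P := fun V z => z = mk V (ordN x) → V.s (a x))
      (fun z => (Rep.eq z _).imp (Rep.of_s _)) ?_ U _ (tr_iff.mp hU) rfl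
    intro i V h1 h2
    rwa [← ordN_inj V h2]
  · exact le_of_ultra (fun U hU => mem_mk_of (A := fun x : K => ordN x) x hU)

theorem setN_sub (a : K → B) (U : Ultra B) (x : Mod U) (hx : mem U x (mk U (setN a))) :
    mem U x (mk U (kN B)) :=
  of_mem_mk (P := fun V x => mem V x (mk V (kN B))) (fun x => Rep.mem x _)
    (fun i V _ => ordN_mem_allN V i) U x hx

theorem big_setN (hd : Distrib B) {a : K → B} (h : Unb ⊤ a) (U : Ultra B) :
    Big (mem U) (mk U (kN B)) (mk U (setN a)) :=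
  ⟨setN_sub a U, cardLE_of_unb hd (p := ⊤) (by rwa [tr_setN]) U U.top⟩

/-- The name of the family of the subsets of `κ` given by `A`. -/
noncomputable def famN {J : Type 1} (A : J → K → B) : Name B :=
  Name.mk J (fun j => setN (A j)) (fun _ => ⊤)

theorem setN_mem_famN {J : Type 1} (A : J → K → B) (U : Ultra B) (j : J) :
    mem U (mk U (setN (A j))) (mk U (famN A)) :=
  mem_mk_of (A := fun j => setN (A j)) j U.top

theorem sip_famN (hd : Distrib B) {J : Type 1} {A : J → K → B} (h : BSIP A) (U : Ultra B) :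
    SIP (mem U) (mk U (kN B)) (mk U (famN A)) := by
  intro G h1 h2
  obtain ⟨G, rfl⟩ := mk_surj G
  refine Rep.imp_of_dense ((rep_sub G (famN A)).and (rep_cardLT G (kN B))) (rep_inter (kN B) G)
    (fun q hq hF => ?_) U ⟨h1, h2⟩
  obtain ⟨r, g1, g2, ι, hι, y, hy⟩ := exists_smallCov hq (Y := G) (fun V hV => (hF V hV).2.2)
  obtain ⟨s, u, k1, k2, k3, k4⟩ := decide_cover hd g1 hy (fun j => setN (A j))
  have hcov : Covered s G (fun j : u => setN (A j.1)) := by
    intro C t ht hts hC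
    obtain ⟨j, t', m1, m2, m3⟩ := covered_mk t (fun j => setN (A j)) (fun _ => ⊤) C t ht le_rfl
      (fun V hV => (hF V (V.mono (hts.trans (k2.trans g2)) hV)).1 _ (hC V hV))
    obtain ⟨j', hj', t'', n1, n2, n3⟩ := k4 j t' m1 (m2.trans hts) (fun V hV => by
      have := hC V (V.mono m2 hV)
      beta_reduce at this
      rwa [m3 V hV] at this)
    exact ⟨⟨j', hj'⟩, t'', n1, n2.trans m2, fun V hV => (m3 V (V.mono n2 hV)).trans (n3 V hV)⟩
  obtain ⟨I, hI⟩ := exists_sep (kN B) (P := fun V x => ∀ C, mem V C (mk V G) → mem V x C)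
    (fun x => Rep.all (fun C => (Rep.mem C G).imp (Rep.mem x C)))
  have hunb : Unb s (tr I) := by
    refine unb_of_dense (fun β t ht hts => ?_)
    obtain ⟨x, t', m1, m2, m3, m4⟩ := ((h u k3).mono (le_top (a := t))).exists ht β
    refine ⟨x, t', m1, m2, m3, le_of_ultra (fun V hV => tr_iff.mpr ((hI V _).mpr
      ⟨ordN_mem_allN V x, ?_⟩))⟩
    refine (hcov.mono (m3.trans hts)).elim (P := fun V C => mem V (mk V (ordN x)) C)
      (fun C => Rep.mem _ C) (fun j W hW _ => ?_) V hV
    rw [← tr_iff, tr_setN]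
    exact W.mono (m4.trans (iInf₂_le (f := fun j (_ : j ∈ u) => A j x) j.1 j.2)) hW
  exact ⟨s, k1, k2.trans g2, fun V hV => ⟨_, hI V, cardLE_of_unb hd hunb V hV⟩⟩

theorem pfam_famN (hd : Distrib B) {J : Type 1} {A : J → K → B} (h : BSIP A) {p : B}
    (hn : ∀ q a, q ≠ ⊥ → q ≤ p → Unb q a → (∀ j, ASub q a (A j)) → False) :
    Forces p (fun U => PFam (mem U) (mk U (kN B)) (mk U (famN A))) := by
  intro U hU
  refine ⟨?_, sip_famN hd h U, ?_⟩
  · refine of_mem_mk (P := fun V C => Big (mem V) (mk V (kN B)) C) (fun C => rep_big _ C)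
      (fun j V _ => big_setN hd ?_ V) U
    simpa using h {j} inferInstance
  · rintro ⟨P, hP⟩
    obtain ⟨P, rfl⟩ := mk_surj P
    obtain ⟨q, g1, g2, g3⟩ := ((rep_big (kN B) P).and (Rep.all (P := fun V C =>
      mem V C (mk V (famN A)) → AlmostSub (mem V) (mk V (kN B)) (mk V P) C)
      (fun C => (Rep.mem C _).imp (rep_almostSub _ P C)))).localize hP hU
    refine hn q (tr P) g1 g2 (unb_of_cardLE hd (fun V hV => (g3 V hV).1.1)
      (fun V hV => (g3 V hV).1.2)) (fun j => ?_)
    have := asub_of_almostSub hd (p := q) (A := P) (C := setN (A j))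
      (fun V hV => (g3 V hV).2 _ (setN_mem_famN A V j))
    rwa [tr_setN] at this

/-- Families with the strong intersection property covered by few names have
pseudo-intersections. -/
theorem kill_model {c : Θ → K → B} (h : Iface B c) {n : ℕ} {q : B} {G : Name B}
    {y : Th n → Name B} (hy : Covered q G y)
    (hs : Forces q (fun U => SIP (mem U) (mk U (kN B)) (mk U G))) :
    Forces q (fun U => ∃ P, Big (mem U) (mk U (kN B)) P ∧
      ∀ A, mem U A (mk U G) → AlmostSub (mem U) (mk U (kN B)) P A) := by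
  have hd := h.distrib
  let A : Th n → K → B := fun j x => (q ⊓ bmem (y j) G) ⇨ tr (y j) x
  have hA : BSIP A := by
    intro u hu
    refine unb_of_dense (fun β r hr _ => ?_)
    by_cases hrq : r ⊓ q = ⊥
    · refine ⟨β, r, le_rfl, hr, le_rfl, le_iInf₂ (fun j _ => le_himp_iff.mpr ?_)⟩
      exact ((inf_le_inf_left _ inf_le_left).trans hrq.le).trans bot_le
    · let G' : Name B := Name.mk u (fun j => y j.1) (fun j => bmem (y j.1) G)
      have h1 : ∀ V x, mem V x (mk V G') → mem V x (mk V G) :=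
        of_mem_mk (P := fun V x => mem V x (mk V G)) (fun x => Rep.mem x G) (fun j V hV => hV)
      have h2 : SmallCov (r ⊓ q) G' := ⟨_, hu, _, covered_mk _ _ _⟩
      obtain ⟨I, hI⟩ := Forces.ex (P := fun U I =>
        (∀ x, mem U x I ↔ mem U x (mk U (kN B)) ∧ ∀ A, mem U A (mk U G') → mem U x A) ∧
          CardLE (mem U) (mk U (kN B)) I)
        (fun I => (Rep.all (fun x => (Rep.mem x I).iff ((Rep.mem x _).and
          (Rep.all (fun A => (Rep.mem A G').imp (Rep.mem x A)))))).and (rep_cardLE _ I))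
        (p := r ⊓ q) (fun V hV => hs V (V.mono inf_le_right hV) _ (h1 V) (h2.lt hd V hV))
      have h3 : Unb (r ⊓ q) (tr I) := unb_of_cardLE hd
        (fun V hV x hx => (((hI V hV).1 x).mp hx).1) (fun V hV => (hI V hV).2)
      obtain ⟨x, s, g1, g2, g3, g4⟩ := h3.exists hrq β
      refine ⟨x, s, g1, g2, g3.trans inf_le_left, le_iInf₂ (fun j hj => le_himp_iff.mpr
        (le_of_ultra (fun V hV => ?_)))⟩
      rw [V.inf_iff, V.inf_iff] at hV
      exact tr_iff.mpr ((((hI V (V.mono g3 hV.1)).1 _).mp (tr_iff.mp (V.mono g4 hV.1))).2 _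
        (mem_mk_of (ι := u) (A := fun j => y j.1) ⟨j, hj⟩ hV.2.2))
  obtain ⟨a, ha, ha'⟩ := h.kill n A hA
  intro U hU
  refine ⟨mk U (setN a), big_setN hd ha U, ?_⟩
  refine hy.elim (P := fun V C => AlmostSub (mem V) (mk V (kN B)) (mk V (setN a)) C)
    (fun C => rep_almostSub _ _ C) (fun j V g1 g2 => ?_) U hU
  refine almostSub_of_asub hd (p := q ⊓ bmem (y j) G) (fun W _ => setN_sub a W) ?_ V
    (V.inf g1 g2)
  rw [tr_setN]
  intro t ht htq
  obtain ⟨r, β, k1, k2, k3⟩ := ha' j t ht le_top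
  exact ⟨r, β, k1, k2, fun x hx => imp_elim (k3 x hx) (inf_le_left.trans (k2.trans htq))⟩

end Pool.Agent.P.MP_b10269_lc
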