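import Mathlib
import Pool.Agent.P.MP_b10269_lc.Layer2

/-! From the Boolean-algebra level interface to a model of ZFC with `p(κ) < t(κ)`. -/

namespace Pool.Agent.P.MP_b10269_lc

open Name Cardinal

theorem infinite_Th (n : ℕ) : Infinite (Th n) := by
  induction n with
  | zero => exact inferInstanceAs (Infinite (Set K))
  | succ n ih => exact inferInstanceAs (Infinite (Set (Th n)))

theorem exists_le_Th {X : Type 1} (hX : #X < #Θ) : ∃ n, Nonempty (X ↪ Th n) := by
  by_contra hc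
  push Not at hc
  have h1 : ∀ n, Nonempty (Th n ↪ X) := fun n => by
    rcases Function.Embedding.total (Th n) X with h | h
    · exact h
    · exact absurd h (by simpa using hc n)
  let e : ∀ n, Th n ↪ X := fun n => Classical.choice (h1 n)
  have := infinite_Th 0
  have : Infinite X := Infinite.of_injective _ (e 0).injective
  have h2 : #Θ ≤ #(ULift.{1} ℕ × X) := by
    refine mk_le_of_injective (f := fun s : Θ => (ULift.up s.1, e s.1 s.2)) ?_
    rintro ⟨n, x⟩ ⟨m, y⟩ hxy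
    simp only [Prod.mk.injEq, ULift.up_inj] at hxy
    obtain ⟨rfl, h⟩ := hxy
    rw [(e n).injective h]
  have h3 : #(ULift.{1} ℕ × X) = #X := by
    simp only [mk_prod, lift_id, mk_uLift, mk_nat, lift_aleph0]
    exact aleph0_mul_eq (aleph0_le_mk X)
  exact absurd (h2.trans h3.le) (not_le.mpr hX)

variable {B : Type 1} [CompleteBooleanAlgebra B]

theorem famN_minimal {c : Θ → K → B} (h : Iface B c) (U : Ultra B) (G : Mod U)
    (hG : PFam (mem U) (mk U (kN B)) G) : CardLE (mem U) (mk U (famN c)) G := by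
  classical
  obtain ⟨G, rfl⟩ := mk_surj G
  refine Rep.imp_of_dense (rep_pfam (kN B) G) (rep_cardLE (famN c) G) (fun q hq hF => ?_) U hG
  obtain ⟨lo, wf, hord⟩ := exists_ord_eq_type_lt Θ
  rcases @cmp_cover B _ Θ lo wf q (famN c) _ (covered_mk q _ _) G with h1 | ⟨r, w, y, h1, h2, h3⟩
  · exact ⟨q, hq, le_rfl, h1⟩
  · obtain ⟨n, ⟨e⟩⟩ := exists_le_Th (@mk_Iio_lt Θ lo wf w hord)
    have h4 : Covered r G (Function.extend e y (fun _ => G)) :=
      h3.reindex (fun i => ⟨e i, e.injective.extend_apply _ _ i⟩)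
    obtain ⟨V, hV⟩ := exists_ultra h1
    exact absurd (kill_model h h4 (fun W hW => (hF W (W.mono h2 hW)).2.1) V hV)
      (hF V (V.mono h2 hV)).2.2

theorem tower_famN (hd : Distrib B) {p : B} {I : Type 1} [LinearOrder I] [WellFoundedLT I]
    {T : I → K → B} (hT : BTower p T) :
    Forces p (fun U => Tower (mem U) (mk U (kN B)) (mk U (famN T))) := by
  intro U hU
  let f : Name B := Name.mk I (fun i => opair (ordN i) (setN (T i))) (fun _ => ⊤)
  have hf : ∀ i (V : Ultra B), Rel (mem V) (mk V f) (mk V (ordN i)) (mk V (setN (T i))) :=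
    fun i V => rel_mk_of (y := fun i : I => ordN i) (z := fun i => setN (T i)) i V.top
  refine ⟨pfam_famN hd hT.sip hT.nopi U hU, mk U (allN B I), mk U f, isOrd_allN U, ?_, ?_, ?_, ?_⟩
  · exact of_mem_allN (P := fun V a => ∃ A, mem V A (mk V (famN T)) ∧ Rel (mem V) (mk V f) a A)
      (fun a => Rep.ex (fun A => (Rep.mem A _).and (rep_rel f a A)))
      (fun i V => ⟨_, setN_mem_famN T V i, hf i V⟩) U
  · intro a A A' h1 h2
    obtain ⟨A', rfl⟩ := mk_surj A'
    refine of_rel_mk (P := fun V a A => Rel (mem V) (mk V f) a (mk V A') → A = mk V A')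
      (fun a A => (rep_rel f a A').imp (Rep.eq A A')) ?_ U a A h1 h2
    intro i V _ g2
    refine of_rel_mk (P := fun W a C => mk W (ordN i) = a → mk W (setN (T i)) = C)
      (fun a C => (Rep.eq _ a).imp (Rep.eq _ C)) ?_ V _ _ g2 rfl
    intro j W _ k
    rw [ordN_inj W k]
  · exact of_mem_mk (P := fun V A => ∃ a, mem V a (mk V (allN B I)) ∧ Rel (mem V) (mk V f) a A)
      (fun A => Rep.ex (fun a => (Rep.mem a _).and (rep_rel f a A)))
      (fun i V _ => ⟨_, ordN_mem_allN V i, hf i V⟩) U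
  · intro a b A A' h1 _ h2 h3
    obtain ⟨b, rfl⟩ := mk_surj b
    obtain ⟨A', rfl⟩ := mk_surj A'
    refine of_rel_mk (P := fun V a A => mem V a (mk V b) → Rel (mem V) (mk V f) (mk V b) (mk V A') →
        AlmostSub (mem V) (mk V (kN B)) (mk V A') A)
      (fun a A => (Rep.mem a b).imp ((rep_rel f b A').imp (rep_almostSub _ A' A))) ?_ U a A h2 h1 h3
    intro i V _ g1 g2
    refine of_rel_mk (P := fun W b C => mem W (mk W (ordN i)) b →
        AlmostSub (mem W) (mk W (kN B)) C (mk W (setN (T i))))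
      (fun b C => (Rep.mem _ b).imp (rep_almostSub _ C _)) ?_ V _ _ g2 g1
    intro j W _ k
    refine almostSub_of_asub hd (p := ⊤) (fun W' _ => setN_sub _ W') ?_ W W.top
    rw [tr_setN, tr_setN]
    exact hT.dec i j (lt_of_mem_ordN W k)

theorem Tower.total (hd : Distrib B) {U : Ultra B} {T A C : Mod U}
    (hT : Tower (mem U) (mk U (kN B)) T) (hA : mem U A T) (hC : mem U C T) :
    AlmostSub (mem U) (mk U (kN B)) A C ∨ AlmostSub (mem U) (mk U (kN B)) C A := by
  obtain ⟨hp, d, f, h1, -, h3, h4, h5⟩ := hT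
  obtain ⟨a, ha, ra⟩ := h4 A hA
  obtain ⟨b, hb, rb⟩ := h4 C hC
  rcases h1.2 a b ha hb with h | h | h
  · exact Or.inr (h5 a b A C h hb ra rb)
  · subst h
    rw [h3 a A C ra rb]
    exact Or.inl (almostSub_of_sub hd U (hp.1 C hC).1 (fun _ hx => hx))
  · exact Or.inl (h5 b a C A h ha rb ra)

theorem tower_not_le {c : Θ → K → B} (h : Iface B c) (U : Ultra B) (T : Mod U)
    (hT : Tower (mem U) (mk U (kN B)) T) : ¬ CardLE (mem U) T (mk U (famN c)) := by
  have hd := h.distrib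
  intro hle
  obtain ⟨T, rfl⟩ := mk_surj T
  obtain ⟨q, hq, -, hF⟩ := ((rep_tower (kN B) T).and (rep_cardLE T (famN c))).localize
    ⟨hT, hle⟩ U.top
  obtain ⟨y, hy⟩ := inv_cover (covered_mk q (fun j => setN (c j)) (fun _ => ⊤))
    (fun V hV => (hF V hV).2)
  let S : ℕ → Name B := fun n =>
    Name.mk (Th n) (fun j => y ⟨n, j⟩) (fun j => bmem (y ⟨n, j⟩) T)
  have hS : ∀ n V x, mem V x (mk V (S n)) → mem V x (mk V T) := fun n =>
    of_mem_mk (P := fun V x => mem V x (mk V T)) (fun x => Rep.mem x T) (fun j V hV => hV)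
  have hP : ∀ n, Forces q (fun V => ∃ A, mem V A (mk V T) ∧
      ∀ C, mem V C (mk V (S n)) → AlmostSub (mem V) (mk V (kN B)) A C) := by
    intro n V hV
    by_contra hc
    push Not at hc
    have hT := (hF V hV).1
    obtain ⟨P, hP1, hP2⟩ := kill_model h (covered_mk q (fun j : Th n => y ⟨n, j⟩)
      (fun j => bmem (y ⟨n, j⟩) T))
      (fun W hW G g1 g2 => (hF W hW).1.1.2.1 G (fun A hA => hS n W A (g1 A hA)) g2) V hV
    refine hT.1.2.2 ⟨P, hP1, fun A hA => ?_⟩
    obtain ⟨C, hC, hn⟩ := hc A hA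
    exact almostSub_trans hd V hP1.1 (hP2 C hC)
      ((hT.total hd hA (hS n V C hC)).resolve_left hn)
  choose t ht using fun n => Forces.ex (P := fun V A => mem V A (mk V T) ∧
      ∀ C, mem V C (mk V (S n)) → AlmostSub (mem V) (mk V (kN B)) A C)
    (fun A => (Rep.mem A T).and (Rep.all (fun C => (Rep.mem C _).imp (rep_almostSub _ A C))))
    (hP n)
  let G : Name B := Name.mk (ULift.{1} ℕ) (fun n => t n.down) (fun _ => ⊤)
  have hG : SmallCov q G := ⟨_, inferInstance, _, covered_mk _ _ _⟩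
  obtain ⟨V, hV⟩ := exists_ultra hq
  have hT := (hF V hV).1
  obtain ⟨I, hI1, hI2⟩ := hT.1.2.1 (mk V G) (fun A hA =>
    of_mem_mk (P := fun W A => W.s q → mem W A (mk W T))
      (fun A => (Rep.of_s q).imp (Rep.mem A T)) (fun n W _ hW => (ht n.down W hW).1) V A hA hV)
    (hG.lt hd V hV)
  have hI3 : ∀ x, mem V x I → mem V x (mk V (kN B)) := fun x hx => ((hI1 x).mp hx).1
  refine hT.1.2.2 ⟨I, ⟨hI3, hI2⟩, fun A hA => ?_⟩
  obtain ⟨C, hC, hCA⟩ := hy.elim (P := fun W A => ∃ C, mem W C (mk W G) ∧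
      AlmostSub (mem W) (mk W (kN B)) C A)
    (fun A => Rep.ex (fun C => (Rep.mem C G).and (rep_almostSub _ C A)))
    (fun s W hW hs => ⟨mk W (t s.1),
      mem_mk_of (A := fun n : ULift.{1} ℕ => t n.down) ⟨s.1⟩ W.top,
      (ht s.1 W hW).2 _ (mem_mk_of (A := fun j : Th s.1 => y ⟨s.1, j⟩) s.2 hs)⟩) V hV A hA
  exact almostSub_trans hd V hI3
    (almostSub_of_sub hd V hI3 (fun x hx => ((hI1 x).mp hx).2 C hC)) hCA

theorem model_of_iface {B : Type 1} [CompleteBooleanAlgebra B] {c : Θ → K → B} (h : Iface B c)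
    {p : B} {I : Type 1} [LinearOrder I] [WellFoundedLT I] {T : I → K → B} (hp : p ≠ ⊥)
    (hT : BTower p T) :
    ∃ (M : Type 2) (E : M → M → Prop), IsZFC E ∧ ∃ k, IsRegUnc E k ∧ ∃ F, PFam E k F ∧
      (∀ G, PFam E k G → CardLE E F G) ∧ (∃ T, Tower E k T) ∧
        ∀ T, Tower E k T → CardLT E F T := by
  obtain ⟨U, hU⟩ := exists_ultra hp
  refine ⟨Mod U, mem U, mod_isZFC U, mk U (kN B), isRegUnc_kN h.distrib U, mk U (famN c),
    pfam_famN h.distrib h.sip (p := ⊤) (fun q a hq _ h1 h2 => h.nopi q a hq h1 h2) U U.top,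
    famN_minimal h U, ⟨_, tower_famN h.distrib hT U hU⟩, fun T hT => ?_⟩
  exact ⟨famN_minimal h U T hT.1, tower_not_le h U T hT⟩

end Pool.Agent.P.MP_b10269_lc
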