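import Mathlib
import Pool.Agent.P.MP_b10269_lc.Poset2

/-! The statement that the Cohen sets have no pseudo-intersection, at the level of conditions. -/

namespace Pool.Agent.P.MP_b10269_lc

/-- No condition forces that an unbounded set is almost contained in all Cohen sets. -/
def NoPIP : Prop :=
  ∀ (O : K → Dt → Prop) (p : Dt), (∀ x p q, Le q p → O x p → O x q) → Val p →
    (∀ β q, Le q p → ∃ r, Le r q ∧ ∃ x, β ≤ x ∧ O x r) →
    (∀ α q, Le q p → ∃ r, Le r q ∧ ∃ β, ∀ x, β ≤ x → ∀ r', Le r' r → O x r' →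
      Atom.c α x false ∉ r') → False

end Pool.Agent.P.MP_b10269_lc
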