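import Mathlib
import Pool.Agent.P.MP_b10269_lc.Flip
import Pool.Agent.P.MP_b10269_lc.NoPIDef

/-! The Cohen sets have no pseudo-intersection in the extension. -/

namespace Pool.Agent.P.MP_b10269_lc

open Cardinal Set

theorem Sub.exists_new {n : ℕ} {M : Dt} (h : Sub n M) : ∃ α, ∀ ξ b, Atom.c α ξ b ∉ M := by
  let e : Atom → Θ := fun a => match a with
    | .c α _ _ => α
    | _ => ⟨0, (∅ : Set K)⟩
  by_contra hc
  push Not at hc
  have h1 : e '' M = Set.univ := Set.eq_univ_of_forall fun α => by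
    obtain ⟨_, _, g⟩ := hc α
    exact ⟨_, g, rfl⟩
  have h2 : #(e '' M) ≤ #(Th n) := mk_image_le.trans h.card
  rw [h1, mk_univ] at h2
  exact absurd ((Th_le_Θ (n + 1)).trans h2) (not_le.mpr (Th_lt n))

theorem nopip : NoPIP := by
  intro O p hm hp hU hA
  choose f f1 f2 using fun x => exists_predense (fun q => Val q ∧ O x q) (fun _ h => h.1)
  have hS : #(⋃ x, ⋃ k, f x k) ≤ #K :=
    card_iUnion_le aleph0_le_K le_rfl fun x => card_iUnion_le aleph0_le_K le_rfl fun k =>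
      (Sm.card_lt.mp ((f1 x k).elim (fun h => h.1.sm) (fun h => h ▸ sm_bad))).le
  choose M hM1 hM2 using fun n => exists_sub n _ hS
  choose al hal using fun n => (hM2 n).exists_new
  have hN : Sm (univ : Set (ULift.{1} ℕ)) := small_univ
  obtain ⟨p0, a1, a2⟩ := exists_inter hN (fun n q => ∃ β, ∀ x, β ≤ x → ∀ r', Le r' q → O x r' →
      Atom.c (al n.down) x false ∉ r')
    (fun _ _ _ h ⟨β, g⟩ => ⟨β, fun x hx r' hr' => g x hx r' (hr'.trans h)⟩) hp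
    (fun n _ q hq => hA (al n.down) q hq)
  obtain ⟨β1, a3⟩ := hN.bound (fun n β => ∀ x, β ≤ x → ∀ r', Le r' p0 → O x r' →
      Atom.c (al n.down) x false ∉ r') a2 (fun _ _ _ h g x hx => g x (h.trans hx))
  obtain ⟨F, hF, rfl, rfl, b1, ⟨β0, b2⟩, b3⟩ := exists_FD M al hM2 hal a1.left
    (fun β q => ∃ x, β ≤ x ∧ ∃ k, O x (f x k) ∧ Le q (f x k)) (fun β q hq => by
      obtain ⟨r, c1, x, c2, c3⟩ := hU β q (hq.trans a1)
      obtain ⟨k, c4, v, c5, c6⟩ := f2 x r ⟨c1.left, c3⟩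
      exact ⟨v, c5.trans c1, x, c2, k, c4.2, c6⟩)
  obtain ⟨δ, c1, c2⟩ := hF.exists_cl (max β0 β1)
  obtain ⟨Γ, d1, d2, d3, d4⟩ := hF.exists_gamma (L := {⊤}) ⟨_, rfl⟩ (δ := δ)
    (by rintro _ rfl; exact c2)
  obtain ⟨q, e1, ξ, e2, k, e3, e4⟩ := b3 δ
  obtain ⟨n, hn⟩ := hF.deep_bound ξ
  obtain ⟨q', -, g1, g2, g3⟩ := hF.FF_all hn ⊤ δ Γ e2 d1 (below_top _) d2
    (fun η g _ => (d4 η g).2)
  obtain ⟨v, k1, k2⟩ := hF.via_cp g3 (e1.mono e4)
    (fun a ha => hM1 n (mem_iUnion.mpr ⟨ξ, mem_iUnion.mpr ⟨k, ha⟩⟩))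
  exact a3 ⟨n⟩ trivial ξ (((le_max_right _ _).trans c1.le).trans e2) v
    ((k2.trans g1).trans (d3 p0 β0 b1 ⟨_, rfl, below_top _⟩ ((le_max_left _ _).trans_lt c1) b2))
    (hm _ _ _ k1 e3) (k2.sub g2)

end Pool.Agent.P.MP_b10269_lc
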