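import Mathlib
import Pool.Agent.P.MP_b10269_lc.NoPIDef
import Pool.Agent.P.MP_b10269_lc.Iface

/-! The regular open algebra of the forcing order and the interface. -/

namespace Pool.Agent.P.MP_b10269_lc

open Cardinal Set

/-- Conditions as a type. -/
structure Cond : Type 1 where
  mkCond ::
  dt : Dt
  val : Val dt

instance : Preorder Cond where
  le p q := Le p.1 q.1
  le_refl p := p.2
  le_trans _ _ _ := Le.trans

/-- The regular open algebra. -/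
def RO : Type 1 := Heyting.Regular (LowerSet Cond)

noncomputable instance : CompleteBooleanAlgebra RO :=
  { (inferInstance : BooleanAlgebra (Heyting.Regular (LowerSet Cond))) with
    sSup := fun S => Heyting.Regular.toRegular (sSup (Heyting.Regular.val '' S))
    sInf := fun S => Heyting.Regular.toRegular (sInf (Heyting.Regular.val '' S))
    isLUB_sSup := fun _ => Heyting.Regular.gi.isLUB_of_u_image (isLUB_sSup _)
    isGLB_sInf := fun _ => Heyting.Regular.gi.isGLB_of_u_image (isGLB_sInf _) }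

theorem mem_compl_lower (s : LowerSet Cond) (p : Cond) : p ∈ sᶜ ↔ ∀ q, q ≤ p → q ∉ s := by
  rw [← LowerSet.Iic_le, le_compl_iff_disjoint_right, disjoint_iff, eq_bot_iff]
  constructor
  · intro h q hq hs
    have : q ∈ (⊥ : LowerSet Cond) := h (LowerSet.mem_inf_iff.mpr ⟨hq, hs⟩)
    exact LowerSet.notMem_bot this
  · intro h q hq
    have := LowerSet.mem_inf_iff.mp hq
    exact (h q this.1 this.2).elim

theorem mem_compl_compl (s : LowerSet Cond) (p : Cond) :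
    p ∈ sᶜᶜ ↔ ∀ q, q ≤ p → ∃ r, r ≤ q ∧ r ∈ s := by
  rw [mem_compl_lower]
  refine forall₂_congr fun q _ => ?_
  rw [mem_compl_lower]
  push Not
  rfl

/-- The condition `p` lies in the regular open set `b`. -/
def pt (p : Dt) (b : RO) : Prop :=
  ∃ h : Val p, (⟨p, h⟩ : Cond) ∈ (Heyting.Regular.val b : LowerSet Cond)

theorem pt.val {p : Dt} {b : RO} (h : pt p b) : Val p := h.1

theorem pt.mono {p q : Dt} {b : RO} (h : pt p b) (hq : Le q p) : pt q b :=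
  ⟨hq.left, (Heyting.Regular.val b : LowerSet Cond).lower
    (show (⟨q, hq.left⟩ : Cond) ≤ ⟨p, h.1⟩ from hq) h.2⟩

theorem ro_le_iff {a b : RO} : a ≤ b ↔ ∀ p, pt p a → pt p b :=
  ⟨fun h _ hp => ⟨hp.1, h hp.2⟩, fun h p hp => (h p.1 ⟨p.2, hp⟩).2⟩

theorem pt.up {p : Dt} {a b : RO} (h : pt p a) (hab : a ≤ b) : pt p b := ro_le_iff.mp hab p h

theorem pt_inf {p : Dt} {a b : RO} (h1 : pt p a) (h2 : pt p b) : pt p (a ⊓ b) :=
  ⟨h1.1, LowerSet.mem_inf_iff.mpr ⟨h1.2, h2.2⟩⟩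

theorem not_pt_bot (p : Dt) : ¬ pt p ⊥ := fun h => LowerSet.notMem_bot h.2

theorem pt_top {p : Dt} (h : Val p) : pt p ⊤ := ⟨h, LowerSet.mem_top⟩

theorem exists_pt {b : RO} (hb : b ≠ ⊥) : ∃ p, pt p b := by
  by_contra hc
  exact hb (eq_bot_iff.mpr (ro_le_iff.mpr fun p hp => (hc ⟨p, hp⟩).elim))

theorem pt.ne_bot {p : Dt} {b : RO} (h : pt p b) : b ≠ ⊥ := fun hb => not_pt_bot p (hb ▸ h)

theorem pt_dense {p : Dt} {b : RO} (hp : Val p) (h : ∀ q, Le q p → ∃ r, Le r q ∧ pt r b) :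
    pt p b := by
  refine ⟨hp, ?_⟩
  rw [← (Heyting.Regular.prop b).eq, mem_compl_compl]
  intro q hq
  obtain ⟨r, h1, h2⟩ := h q.1 hq
  exact ⟨⟨r, h1.left⟩, h1, h2.2⟩

/-- The regular open set generated by a set of conditions. -/
noncomputable def mkB (O : Dt → Prop) : RO :=
  Heyting.Regular.toRegular (LowerSet.mk {p : Cond | ∃ r, Le p.1 r ∧ O r}
    (fun _ _ h ⟨r, h1, h2⟩ => ⟨r, Le.trans h h1, h2⟩))

theorem pt_mkB {O : Dt → Prop} (hO : ∀ p q, Le q p → O p → O q) {p : Dt} (hp : Val p) :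
    pt p (mkB O) ↔ ∀ q, Le q p → ∃ r, Le r q ∧ O r := by
  constructor
  · rintro ⟨_, h⟩ q hq
    obtain ⟨r, h1, r', h2, h3⟩ := (mem_compl_compl _ _).mp h ⟨q, hq.left⟩ hq
    exact ⟨r.1, h1, hO _ _ h2 h3⟩
  · intro h
    refine ⟨hp, (mem_compl_compl _ _).mpr fun q hq => ?_⟩
    obtain ⟨r, h1, h2⟩ := h q.1 hq
    exact ⟨⟨r, h1.left⟩, h1, r, h1.left, h2⟩

theorem pt_mkB_of {O : Dt → Prop} (hO : ∀ p q, Le q p → O p → O q) {p : Dt} (hp : Val p)
    (h : O p) : pt p (mkB O) :=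
  (pt_mkB hO hp).mpr fun q hq => ⟨q, hq.left, hO _ _ hq h⟩

theorem pt.exists_of_mkB {O : Dt → Prop} (hO : ∀ p q, Le q p → O p → O q) {p : Dt}
    (h : pt p (mkB O)) : ∃ r, Le r p ∧ O r := (pt_mkB hO h.val).mp h p h.val

/-- The regular open set generated by one condition. -/
noncomputable def cone (p : Dt) : RO := mkB (fun r => Le r p)

theorem pt_cone {p q : Dt} (h : Le q p) : pt q (cone p) :=
  pt_mkB_of (fun _ _ g1 g2 => g1.trans g2) h.left h

theorem cone_le {p : Dt} {b : RO} (h : pt p b) : cone p ≤ b := by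
  refine ro_le_iff.mpr fun q hq => pt_dense hq.val fun r hr => ?_
  obtain ⟨v, h1, h2⟩ := (hq.mono hr).exists_of_mkB (fun _ _ g1 g2 => g1.trans g2)
  exact ⟨v, h1, h.mono h2⟩

theorem pt.exists_le {p q : Dt} (h : pt q (cone p)) : ∃ r, Le r q ∧ Le r p :=
  h.exists_of_mkB (fun _ _ g1 g2 => g1.trans g2)

theorem pt_biInf {J : Type 1} {u : Set J} {f : J → RO} {p : Dt} (hp : Val p)
    (h : ∀ j ∈ u, pt p (f j)) : pt p (⨅ j ∈ u, f j) :=
  (pt_cone hp).up (le_iInf₂ fun j hj => cone_le (h j hj))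

theorem unb_iff {b : RO} {a : K → RO} :
    Unb b a ↔ ∀ β p, pt p b → ∃ r, Le r p ∧ ∃ x, β ≤ x ∧ pt r (a x) := by
  refine forall_congr' fun β => ⟨fun h p hp => ?_, fun h => ?_⟩
  · have hO : ∀ p q, Le q p → (∃ x, β ≤ x ∧ pt p (a x)) → ∃ x, β ≤ x ∧ pt q (a x) :=
      fun _ _ g ⟨x, g1, g2⟩ => ⟨x, g1, g2.mono g⟩
    refine ((hp.up h).up (b := mkB fun r => ∃ x, β ≤ x ∧ pt r (a x)) ?_).exists_of_mkB hO
    exact iSup₂_le fun x hx => ro_le_iff.mpr fun q hq => pt_mkB_of hO hq.val ⟨x, hx, hq⟩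
  · refine ro_le_iff.mpr fun p hp => pt_dense hp.val fun q hq => ?_
    obtain ⟨r, h1, x, h2, h3⟩ := h q (hp.mono hq)
    exact ⟨r, h1, h3.up (le_iSup₂_of_le x h2 le_rfl)⟩

theorem asub_iff {b : RO} {a a' : K → RO} : ASub b a a' ↔ ∀ p, pt p b → ∃ r, Le r p ∧
    ∃ β, ∀ x, β ≤ x → ∀ r', Le r' r → pt r' (a x) → pt r' (a' x) := by
  constructor
  · intro h p hp
    obtain ⟨c, β, h1, h2, h3⟩ := h (cone p) (pt_cone hp.val).ne_bot (cone_le hp)
    obtain ⟨v, hv⟩ := exists_pt h1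
    obtain ⟨r, g1, g2⟩ := (hv.up h2).exists_le
    exact ⟨r, g2, β, fun x hx r' k1 k2 => (pt_inf (hv.mono (k1.trans g1)) k2).up (h3 x hx)⟩
  · intro h q h1 h2
    obtain ⟨p, hp⟩ := exists_pt h1
    obtain ⟨r, g1, β, g2⟩ := h p (hp.up h2)
    refine ⟨cone r, β, (pt_cone g1.left).ne_bot, cone_le (hp.mono g1), fun x hx => ?_⟩
    refine ro_le_iff.mpr fun v hv => pt_dense hv.val fun w hw => ?_
    obtain ⟨w', k1, k2⟩ := ((hv.mono hw).up inf_le_left).exists_le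
    exact ⟨w', k1, g2 x hx w' k2 ((hv.mono (k1.trans hw)).up inf_le_right)⟩

theorem ro_distrib : Distrib RO := by
  intro ι _ Φ hm hd b hb
  obtain ⟨p, hp⟩ := exists_pt hb
  obtain ⟨q, h1, h2⟩ := exists_inter (s := (univ : Set ι)) small_univ (fun i q => Φ i (cone q))
    (fun i p q h => hm i _ _ (cone_le (pt_cone h))) hp.val (fun i _ q hq => by
      obtain ⟨c, g1, g2, g3⟩ := hd i (cone q) (pt_cone hq.left).ne_bot
      obtain ⟨v, hv⟩ := exists_pt g1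
      obtain ⟨r, k1, k2⟩ := (hv.up g2).exists_le
      exact ⟨r, k2, hm i _ _ (cone_le (hv.mono k1)) g3⟩)
  exact ⟨cone q, (pt_cone h1.left).ne_bot, cone_le (hp.mono h1), fun i => h2 i trivial⟩

theorem mem_mono (a : Atom) : ∀ p q, Le q p → a ∈ p → a ∈ q := fun _ _ h g => h.sub g

/-- The Cohen sets. -/
noncomputable def cohen (α : Θ) (x : K) : RO := mkB (fun p => Atom.c α x true ∈ p)

/-- The height of a Cohen atom. -/
noncomputable def Atom.ht : Atom → K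
  | .c _ ξ _ => ξ
  | _ => 0

theorem cohen_sip : BSIP cohen := by
  intro u hu
  refine unb_iff.mpr fun β p hp => ?_
  obtain ⟨γ, hγ⟩ := (hp.val.sm.image Atom.ht).bdd
  have hq : Val ((fun j => Atom.c j (max β γ) true) '' u) := by
    refine val_of (Sm.image hu _) ?_ ?_
    · rintro α ξ - ⟨j, -, g⟩
      cases g
    · rintro η π ⟨j, -, g⟩
      cases g
  have hle := amalg hp.val hq ?_ ?_
  · refine ⟨_, hle, max β γ, le_max_left _ _, pt_biInf hle.left fun j hj => ?_⟩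
    exact pt_mkB_of (mem_mono _) hle.left (Or.inr ⟨j, hj, rfl⟩)
  · rintro α ξ (g1 | ⟨j, -, g1⟩) (g2 | ⟨j', -, g2⟩)
    · exact hp.val.func α ξ g1 g2
    · cases g2
    · cases g1
      exact absurd (le_max_right β γ) (not_le.mpr (hγ _ ⟨_, g2, rfl⟩))
    · cases g2
  · rintro η - (⟨x, j, -, g⟩ | ⟨x, j, -, g⟩) <;> cases g

theorem cohen_nopi (h : NoPIP) (b : RO) (a : K → RO) (hb : b ≠ ⊥) (h1 : Unb b a)
    (h2 : ∀ α, ASub b a (cohen α)) : False := by
  obtain ⟨p, hp⟩ := exists_pt hb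
  refine h (fun x q => pt q (a x)) p (fun x p q g1 g2 => g2.mono g1) hp.val
    (fun β q hq => unb_iff.mp h1 β q (hp.mono hq)) (fun α q hq => ?_)
  obtain ⟨r, g1, β, g2⟩ := asub_iff.mp (h2 α) q (hp.mono hq)
  refine ⟨r, g1, β, fun x hx r' k1 k2 k3 => ?_⟩
  obtain ⟨v, k4, k5⟩ := (g2 x hx r' k1 k2).exists_of_mkB (mem_mono _)
  exact k4.left.func α x k5 (k4.sub k3)

theorem kill_row (η : Row) (A : Th (lev η) → K → RO) (hA : BSIP A)
    (hf : ∀ j x p, Val p → (Forc η p (fam η j x) ↔ pt p (A j x))) :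
    ∃ a, Unb ⊤ a ∧ ∀ j, ASub ⊤ a (A j) := by
  have hs : Sip η := by
    refine sip_iff.mpr fun u hu β p hp => ?_
    obtain ⟨r, h1, x, h2, h3⟩ := unb_iff.mp (hA u hu) β p (pt_top hp)
    exact ⟨r, h1, x, h2, fun j hj => (hf j x r h1.left).mpr (h3.up (iInf₂_le j hj))⟩
  refine ⟨fun x => mkB (fun p => Atom.s η x ∈ p), unb_iff.mpr fun β p hp => ?_,
    fun j => asub_iff.mpr fun p hp => ?_⟩
  · obtain ⟨q, h1, x, h2, h3⟩ := add_point hp.val η β
    exact ⟨q, h1, x, h2, pt_mkB_of (mem_mono _) h1.left h3⟩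
  · have hπ : Prom η (fun _ x => fam η j x) :=
      prom_iff.mpr fun m q hq => ⟨q, hq, {j}, 0, (dec_iff hq).mpr
        ⟨Sm.single j, fun _ => hs, fun x _ v _ g => g j rfl⟩⟩
    have h1 := add_prom hp.val hπ
    obtain ⟨β, hβ⟩ := (h1.left.sm.stem η).bdd
    refine ⟨_, h1, β, fun x hx r k1 k2 => pt_dense k1.left fun q hq => ?_⟩
    obtain ⟨v, k3, k4⟩ := (k2.mono hq).exists_of_mkB (mem_mono _)
    refine ⟨v, k3, (hf j x v k3.left).mp ?_⟩
    exact ((k3.trans hq).trans k1).new k4 (fun g => absurd hx (not_le.mpr (hβ x g)))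
      (Or.inr rfl)

theorem ro_kill (n : ℕ) (A : Th n → K → RO) (hA : BSIP A) :
    ∃ a, Unb ⊤ a ∧ ∀ j, ASub ⊤ a (A j) := by
  choose f h1 h2 using fun j x => exists_predense (fun p => pt p (A j x)) (fun _ h => h.val)
  have hsm : ∀ j x k, Sm (f j x k) := fun j x k =>
    (h1 j x k).elim (fun h => h.val.sm) (fun h => h ▸ sm_bad)
  choose g hg using fun j x k => dec_surj (hsm j x k)
  obtain ⟨η0, h0⟩ := row_bound (⋃ j, ⋃ x, ⋃ k, rows (f j x k))
    (card_iUnion_le aleph0_le_Θ (Th_le_Θ n) fun j => card_iUnion_le aleph0_le_Θ K_le_Θ fun x =>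
      card_iUnion_le aleph0_le_Θ K_le_Θ fun k =>
        (Sm.card_lt.mp (hsm j x k).rows).le.trans K_le_Θ)
  obtain ⟨η, h3, h4⟩ := exists_bk.choose_spec ⟨n, g⟩ η0
  have key : ∀ (v : Σ n, (Th n → K → Fam)), bk η = v → ∀ A : Th v.1 → K → RO, BSIP A →
      (∀ j x p, Val p → (Forc η p (v.2 j x) ↔ pt p (A j x))) →
      ∃ a, Unb ⊤ a ∧ ∀ j, ASub ⊤ a (A j) := by
    rintro v rfl
    exact kill_row η
  refine key ⟨n, g⟩ h4 A hA fun j x p hp => ?_
  have hb : ∀ k, res (dec (g j x k)) η = f j x k := fun k => by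
    rw [hg]
    refine (below_of_rows fun η' h => WithTop.coe_lt_coe.mpr ((h0 η' ?_).trans_le h3)).res_eq
    exact mem_iUnion.mpr ⟨j, mem_iUnion.mpr ⟨x, mem_iUnion.mpr ⟨k, h⟩⟩⟩
  rw [forc_iff hp]
  constructor
  · refine fun H => pt_dense hp fun q hq => ?_
    obtain ⟨r, g1, k, g2⟩ := H q hq
    rw [hb] at g2
    rcases h1 j x k with h | h
    · exact ⟨r, g1, h.mono g2⟩
    · exact (not_le_bad (h ▸ g2)).elim
  · intro H q hq
    obtain ⟨k, -, r, g1, g2⟩ := h2 j x q (H.mono hq)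
    exact ⟨r, g1, k, (hb k).symm ▸ g2⟩

theorem iface_of_nopip (h : NoPIP) :
    ∃ (B : Type 1) (_ : CompleteBooleanAlgebra B) (c : Θ → K → B), Iface B c :=
  ⟨RO, inferInstance, cohen, (pt_top val_empty).ne_bot, ro_distrib, cohen_sip, cohen_nopi h,
    ro_kill⟩

end Pool.Agent.P.MP_b10269_lc
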