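import Mathlib
import Pool.Agent.P.MP_b10269_lc.Defs2
import Pool.Agent.P.MP_b10269_lc.Layer3
import Pool.Agent.P.MP_b10269_lc.BTower
import Pool.Agent.P.MP_b10269_lc.RO
import Pool.Agent.P.MP_b10269_lc.NoPI

/-! The model: `κ` inaccessible, `p(κ)` singular, `p(κ) < t(κ)`. -/

namespace Pool.Agent.P.MP_b10269_lc

open Name Cardinal

variable {B : Type 1} [CompleteBooleanAlgebra B]

theorem isInacc_kN (hd : Distrib B) (U : Ultra B) : IsInacc (mem U) (mk U (kN B)) := by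
  refine ⟨isRegUnc_kN hd U, of_mem_allN (P := fun V a => ∃ P,
    (∀ x, mem V x P ↔ ∀ y, mem V y x → mem V y a) ∧ CardLT (mem V) P (mk V (kN B)))
    (fun a => Rep.ex (fun P => (Rep.all (fun x => (Rep.mem x P).iff (rep_sub x a))).and
      (rep_cardLT P _))) (fun β V => ?_) U⟩
  obtain ⟨P, hP⟩ := Forces.ex (p := (⊤ : B))
    (P := fun V P => ∀ x, mem V x P ↔ ∀ y, mem V y x → mem V y (mk V (ordN β)))
    (fun P => Rep.all (fun x => (Rep.mem x P).iff (rep_sub x _))) (fun V _ => mod_power V _)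
  refine ⟨mk V P, hP V V.top, SmallCov.lt hd (p := ⊤) ⟨Set (Set.Iio β), inferInstance,
    fun τ => Name.mk τ (fun v => ordN v.1.1) (fun _ => ⊤), fun u q hq _ hu => ?_⟩ V V.top⟩
  obtain ⟨r, h1, h2, h3⟩ := hd (Set.Iio β) (fun v a => a ≤ tr u v.1 ∨ a ≤ (tr u v.1)ᶜ)
    (fun _ _ _ h g => g.imp h.trans h.trans) (fun v a ha => by
      by_cases h : a ≤ tr u v.1
      · exact ⟨a, ha, le_rfl, Or.inl h⟩
      · obtain ⟨r, g1, g2, g3⟩ := exists_of_not_le h
        exact ⟨r, g1, g2, Or.inr g3⟩) q hq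
  refine ⟨{v | r ≤ tr u v.1}, r, h1, h2, fun W hW => mod_ext W _ _ fun z => ⟨fun hz => ?_, ?_⟩⟩
  · have h4 := (hP W W.top _).mp (hu W (W.mono h2 hW)) z hz
    rw [ordN_eq β] at h4
    refine of_mem_mk (P := fun W z => W.s r → mem W z (mk W u) → mem W z (mk W (Name.mk
      {v : Set.Iio β | r ≤ tr u v.1} (fun v => ordN v.1.1) (fun _ => ⊤))))
      (fun z => (Rep.of_s r).imp ((Rep.mem z u).imp (Rep.mem z _))) ?_ W z h4 hW hz
    intro v X _ g1 g2
    rcases h3 v with g | g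
    · exact mem_mk_of (ι := {v : Set.Iio β | r ≤ tr u v.1}) (A := fun v => ordN v.1.1) ⟨v, g⟩ X.top
    · exact absurd (tr_iff.mpr g2) (X.compl_iff.mp (X.mono g g1))
  · exact fun hz => of_mem_mk (P := fun W z => W.s r → mem W z (mk W u))
      (fun z => (Rep.of_s r).imp (Rep.mem z u))
      (fun v X _ g => tr_iff.mp (X.mono v.2 g)) W z hz hW

theorem exists_least_tower {p : B} (hp : p ≠ ⊥) {T : Name B}
    (hT : Forces p (fun U => Tower (mem U) (mk U (kN B)) (mk U T))) :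
    ∃ (q : B) (T' : Name B), q ≠ ⊥ ∧
      Forces q (fun U => LeastWith (mem U) (Tower (mem U) (mk U (kN B))) (mk U T')) := by
  let S : Set Cardinal.{1} := {c | ∃ (q : B) (T' : Name B) (J : Type 1) (y : J → Name B),
    q ≠ ⊥ ∧ Forces q (fun U => Tower (mem U) (mk U (kN B)) (mk U T')) ∧ Covered q T' y ∧ #J = c}
  have hS : S.Nonempty := by
    cases T with
    | mk ι A b => exact ⟨_, p, _, ι, A, hp, hT, covered_mk p A b, rfl⟩
  obtain ⟨c, ⟨q, T', J, y, h1, h2, h3, rfl⟩, hmin⟩ := (wellFounded_lt (α := Cardinal.{1})).has_min S hS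
  refine ⟨q, T', h1, fun U hU => ⟨h2 U hU, fun G hG => ?_⟩⟩
  obtain ⟨G, rfl⟩ := mk_surj G
  refine Rep.imp_of_dense ((Rep.of_s q).and (rep_tower (kN B) G)) (rep_cardLE T' G)
    (fun r hr hF => ?_) U ⟨hU, hG⟩
  obtain ⟨lo, wf, hord⟩ := exists_ord_eq_type_lt J
  rcases @cmp_cover B _ J lo wf r T' _ (h3.mono (le_of_ultra fun V hV => (hF V hV).1)) G with
    g | ⟨s, w, z, g1, g2, g3⟩
  · exact ⟨r, hr, le_rfl, g⟩
  · exact (hmin _ ⟨s, G, _, z, g1, fun V hV => (hF V (V.mono g2 hV)).2, g3, rfl⟩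
      (@mk_Iio_lt J lo wf w hord)).elim

theorem cardLE_of_sub {I : Type 1} (y : I → Name B) (b : I → B) (Z : Name B) (U : Ultra B)
    (h : ∀ i (V : Ultra B), mem V (mk V (y i)) (mk V Z)) :
    CardLE (mem U) (mk U (Name.mk I y b)) (mk U Z) := by
  have key : ∀ a c, Rel (mem U) (mk U (Name.mk I (fun i => opair (y i) (y i)) b)) a c → a = c :=
    of_rel_mk (P := fun _ a c => a = c) (fun a c => Rep.eq a c) (fun _ _ _ => rfl) U
  refine ⟨mk U (Name.mk I (fun i => opair (y i) (y i)) b), ?_, ?_,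
    fun a c c' g1 g2 => (key a c g1).symm.trans (key a c' g2),
    fun a a' c g1 g2 => (key a c g1).trans (key a' c g2).symm⟩
  · exact of_mem_mk (P := fun V t => ∃ a c, mem V a (mk V (Name.mk I y b)) ∧ mem V c (mk V Z) ∧
      IsOPair (mem V) t a c) (fun t => Rep.ex (fun a => Rep.ex (fun c =>
        (Rep.mem a _).and ((Rep.mem c Z).and (rep_opair t a c)))))
      (fun i V g => ⟨_, _, mem_mk_of i g, h i V, isOPair_opair V _ _⟩) U
  · exact of_mem_mk (P := fun V a => ∃ c,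
      Rel (mem V) (mk V (Name.mk I (fun i => opair (y i) (y i)) b)) a c)
      (fun a => Rep.ex (fun c => rep_rel _ a c)) (fun i V g => ⟨_, rel_mk_of i g⟩) U

theorem singular_famN {c : Θ → K → B} (h : Iface B c) (U : Ultra B) :
    SingularOmega (mem U) (mk U (famN c)) := by
  have hF := pfam_famN h.distrib h.sip (p := ⊤) (fun q a hq _ h1 h2 => h.nopi q a hq h1 h2)
  have key : ∀ n q (y : Th n → Name B), q ≠ ⊥ → ¬ Covered q (famN c) y := by
    intro n q y hq hy
    obtain ⟨V, hV⟩ := exists_ultra hq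
    exact (hF V V.top).2.2 (kill_model h hy (fun W _ => (hF W W.top).2.1) V hV)
  let S : ℕ → Name B := fun n => Name.mk (Th n) (fun j => setN (c ⟨n, j⟩)) (fun _ => ⊤)
  let N : Name B := Name.mk (ULift.{1} ℕ) (fun n => S n.down) (fun _ => ⊤)
  refine ⟨fun hc => ?_, mk U N, forces_countable (covered_mk ⊤ _ _) U U.top, ?_, fun A => ⟨?_, ?_⟩⟩
  · obtain ⟨q, g1, -, g2⟩ := (rep_countable _).localize hc U.top
    obtain ⟨y, hy⟩ := exists_cover_of_countable g2
    have := infinite_Th 0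
    let e : ULift.{1} ℕ ↪ Th 0 := Equiv.ulift.toEmbedding.trans (Infinite.natEmbedding _)
    exact key 0 q (Function.extend e y (fun _ => N)) g1
      (hy.reindex (fun i => ⟨e i, e.injective.extend_apply _ _ i⟩))
  · refine of_mem_mk (P := fun V s => CardLT (mem V) s (mk V (famN c)))
      (fun s => rep_cardLT s _) (fun n V _ => ⟨cardLE_of_sub _ _ _ V
        (fun j W => setN_mem_famN c W _), fun hc => ?_⟩) U
    obtain ⟨q, g1, -, g2⟩ := (rep_cardLE _ _).localize hc V.top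
    obtain ⟨y, hy⟩ := inv_cover (covered_mk q _ _) g2
    exact key _ q y g1 hy
  · exact of_mem_mk (P := fun V A => ∃ s, mem V s (mk V N) ∧ mem V A s)
      (fun A => Rep.ex (fun s => (Rep.mem s N).and (Rep.mem A s)))
      (fun α V _ => ⟨mk V (S α.1), mem_mk_of (A := fun n : ULift.{1} ℕ => S n.down) ⟨α.1⟩ V.top,
        mem_mk_of (A := fun j => setN (c ⟨α.1, j⟩)) α.2 V.top⟩) U A
  · rintro ⟨s, g1, g2⟩
    obtain ⟨A, rfl⟩ := mk_surj A
    refine of_mem_mk (P := fun V s => mem V (mk V A) s → mem V (mk V A) (mk V (famN c)))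
      (fun s => (Rep.mem A s).imp (Rep.mem A _)) (fun n V _ => ?_) U s g1 g2
    exact of_mem_mk (P := fun V A => mem V A (mk V (famN c))) (fun A => Rep.mem A _)
      (fun j W _ => setN_mem_famN c W _) V _

theorem exists_model : ∃ (M : Type 2) (E : M → M → Prop), IsZFC E ∧ ∃ k F T : M, IsInacc E k ∧
    LeastWith E (PFam E k) F ∧ LeastWith E (Tower E k) T ∧ CardLT E F T ∧ SingularOmega E F := by
  obtain ⟨B, _, c, h⟩ := iface_of_nopip nopip
  obtain ⟨p, I, _, _, T, hp, hT⟩ := exists_btower h.ne h.distrib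
  obtain ⟨q, T', hq, hT'⟩ := exists_least_tower hp (tower_famN h.distrib hT)
  obtain ⟨U, hU⟩ := exists_ultra hq
  exact ⟨Mod U, mem U, mod_isZFC U, mk U (kN B), mk U (famN c), mk U T', isInacc_kN h.distrib U,
    ⟨pfam_famN h.distrib h.sip (p := ⊤) (fun q a hq _ h1 h2 => h.nopi q a hq h1 h2) U U.top,
      famN_minimal h U⟩, hT' U hU,
    ⟨famN_minimal h U _ (hT' U hU).1.1, tower_not_le h U _ (hT' U hU).1⟩, singular_famN h U⟩

end Pool.Agent.P.MP_b10269_lc
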